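import Pool.Agent.H697.IR.Walk

/-!
# The closing probability of decreasing trees
-/

set_option linter.unusedSectionVars false

namespace Pool.Agent.H697.IR

open Finset Pool.Agent.H697.Forest

/-- A path which goes up to a common ancestor and then down. -/
theorem exists_updown {p : ℕ → ℕ} (hp : ∀ j, p (j + 1) ≤ j) (N : ℕ) : ∀ s t, s + t ≤ N →
    ∃ (n i : ℕ) (x : ℕ → ℕ), IsPath p (max s t) n x ∧ x 0 = s ∧ x n = t ∧ i ≤ n ∧
      (∀ j < i, 0 < x j ∧ x (j + 1) = p (x j)) ∧
      (∀ j, i ≤ j → j < n → 0 < x (j + 1) ∧ x j = p (x (j + 1))) := by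
  induction N with
  | zero =>
    intro s t h
    obtain rfl : s = 0 := by omega
    obtain rfl : t = 0 := by omega
    exact ⟨0, 0, fun _ => 0, ⟨fun j _ => le_rfl, fun j hj => absurd hj (by omega),
      fun i hi j hj _ => by omega⟩, rfl, rfl, le_rfl, fun j hj => absurd hj (by omega),
      fun j _ hj => absurd hj (by omega)⟩
  | succ N ih =>
    have key : ∀ s t, s + t ≤ N + 1 → s < t →
      ∃ (n i : ℕ) (x : ℕ → ℕ), IsPath p (max s t) n x ∧ x 0 = s ∧ x n = t ∧ i ≤ n ∧
      (∀ j < i, 0 < x j ∧ x (j + 1) = p (x j)) ∧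
      (∀ j, i ≤ j → j < n → 0 < x (j + 1) ∧ x j = p (x (j + 1))) := by
      intro s t hst hlt
      obtain ⟨t', rfl⟩ : ∃ t', t = t' + 1 := ⟨t - 1, by omega⟩
      have hpt := hp t'
      obtain ⟨n, i, x, h1, h2, h3, h4, h5, h6⟩ := ih s (p (t' + 1)) (by omega)
      have hle : ∀ j ≤ n, x j ≤ t' := fun j hj => (h1.1 j hj).trans (by omega)
      refine ⟨n + 1, i, fun l => if l = n + 1 then t' + 1 else x l, ⟨?_, ?_, ?_⟩, ?_, ?_,
        by omega, ?_, ?_⟩
      · intro j hj
        dsimp only
        split_ifs with h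
        · omega
        · have := hle j (by omega)
          omega
      · intro j hj
        dsimp only
        rw [if_neg (by omega)]
        split_ifs with h
        · obtain rfl : j = n := by omega
          rw [h3]
          exact Or.inl ⟨by omega, rfl⟩
        · exact h1.2.1 j (by omega)
      · intro a ha b hb hab
        dsimp only at hab
        split_ifs at hab with e1 e2 e2
        · omega
        · have := hle b (by omega)
          omega
        · have := hle a (by omega)
          omega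
        · exact h1.2.2 a (by omega) b (by omega) hab
      · simp [h2]
      · simp
      · intro j hj
        dsimp only
        rw [if_neg (by omega), if_neg (by omega)]
        exact h5 j hj
      · intro j hj1 hj2
        dsimp only
        rw [if_neg (show j ≠ n + 1 by omega)]
        split_ifs with h
        · obtain rfl : j = n := by omega
          exact ⟨by omega, h3⟩
        · exact h6 j hj1 (by omega)
    intro s t hst
    rcases lt_trichotomy s t with h | rfl | h
    · exact key s t hst h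
    · exact ⟨0, 0, fun _ => s, ⟨fun j _ => le_max_left s s, fun j hj => absurd hj (by omega),
        fun i hi j hj _ => by omega⟩, rfl, rfl, le_rfl, fun j hj => absurd hj (by omega),
        fun j _ hj => absurd hj (by omega)⟩
    · obtain ⟨n, i, x, h1, h2, h3, h4, h5, h6⟩ := key t s (by omega) h
      refine ⟨n, n - i, fun j => x (n - j), ?_, by simpa using h3, by simpa using h2,
        Nat.sub_le _ _, ?_, ?_⟩
      · rw [max_comm]
        exact h1.rev
      · intro j hj
        have := h6 (n - (j + 1)) (by omega) (by omega)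
        rw [show n - (j + 1) + 1 = n - j by omega] at this
        exact this
      · intro j hj1 hj2
        have := h5 (n - (j + 1)) (by omega)
        rw [show n - (j + 1) + 1 = n - j by omega] at this
        exact this

variable {V : Type} [Fintype V] [DecidableEq V] (G : SimpleGraph V) [DecidableRel G.Adj]

/-- The degrees of the images decrease. -/
def Dec (p : ℕ → ℕ) (k : ℕ) (f : ℕ → V) : Prop :=
  ∀ j ≤ k, 0 < j → 0 < p j → dg G (f j) ≤ dg G (f (p (p j)))

variable {G} {p : ℕ → ℕ}

theorem dec_up {k n i : ℕ} {x : ℕ → ℕ} (h1 : IsPath p k n x) (hi : i ≤ n)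
    (h5 : ∀ j < i, 0 < x j ∧ x (j + 1) = p (x j)) {f : ℕ → V} (hf : Dec G p k f) (m : ℕ)
    (hm : 2 * m ≤ i) : dg G (f (x 0)) ≤ dg G (f (x (2 * m))) := by
  induction m with
  | zero => exact le_rfl
  | succ m ih =>
    refine (ih (by omega)).trans ?_
    obtain ⟨a1, a2⟩ := h5 (2 * m) (by omega)
    obtain ⟨b1, b2⟩ := h5 (2 * m + 1) (by omega)
    have := hf (x (2 * m)) (h1.1 _ (by omega)) a1 (by omega)
    rw [← a2, ← b2] at this
    exact this

theorem dec_down {k n i : ℕ} {x : ℕ → ℕ} (h1 : IsPath p k n x)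
    (h6 : ∀ j, i ≤ j → j < n → 0 < x (j + 1) ∧ x j = p (x (j + 1))) {f : ℕ → V}
    (hf : Dec G p k f) (m : ℕ) (hm : i + 2 * m ≤ n) :
    dg G (f (x n)) ≤ dg G (f (x (n - 2 * m))) := by
  induction m with
  | zero => exact le_rfl
  | succ m ih =>
    refine (ih (by omega)).trans ?_
    obtain ⟨a1, a2⟩ := h6 (n - 2 * m - 1) (by omega) (by omega)
    obtain ⟨b1, b2⟩ := h6 (n - 2 * m - 2) (by omega) (by omega)
    rw [show n - 2 * m - 1 + 1 = n - 2 * m by omega] at a1 a2
    rw [show n - 2 * m - 2 + 1 = n - 2 * m - 1 by omega] at b1 b2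
    have := hf (x (n - 2 * m)) (h1.1 _ (by omega)) a1 (by omega)
    rw [← a2, ← b2, show n - 2 * m - 2 = n - 2 * (m + 1) by omega] at this
    exact this

/-! ### Frobenius norms -/

/-- The square of the Frobenius norm. -/
noncomputable def fro (A : Matrix V V ℝ) : ℝ := ∑ x, ∑ y, A x y ^ 2

theorem fro_nonneg (A : Matrix V V ℝ) : 0 ≤ fro A :=
  Finset.sum_nonneg fun _ _ => Finset.sum_nonneg fun _ _ => sq_nonneg _

theorem fro_transpose (A : Matrix V V ℝ) : fro A.transpose = fro A := Finset.sum_comm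

theorem contraction (hd : ∀ x, 0 < dg G x) (g : V → ℝ) :
    ∑ x, (∑ z, Mm G x z * g z) ^ 2 ≤ ∑ z, g z ^ 2 := by
  have h1 : ∀ x, (∑ z, Mm G x z * g z) ^ 2 ≤
      ∑ z, (if G.Adj x z then (1 : ℝ) else 0) * (g z ^ 2 / dg G z) := by
    intro x
    have h2 := sum_mul_sq_le_sq_mul_sq (univ : Finset V)
      (fun z => if G.Adj x z then 1 / √(dg G x) else 0)
      (fun z => if G.Adj x z then g z / √(dg G z) else 0)
    have h3 : ∀ z, (if G.Adj x z then 1 / √(dg G x) else 0) *
        (if G.Adj x z then g z / √(dg G z) else 0) = Mm G x z * g z := by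
      intro z
      unfold Mm
      split_ifs
      · rw [div_mul_div_comm, one_mul, one_div, div_eq_inv_mul]
      · simp
    have h4 : ∑ z, (if G.Adj x z then 1 / √(dg G x) else 0) ^ 2 = 1 := by
      refine Eq.trans (Finset.sum_congr rfl fun z _ => ?_) (sum_ext hd x)
      split_ifs
      · rw [div_pow, one_pow, Real.sq_sqrt (dg_nonneg x)]
      · simp
    have h5 : ∀ z, (if G.Adj x z then g z / √(dg G z) else 0) ^ 2 =
        (if G.Adj x z then (1 : ℝ) else 0) * (g z ^ 2 / dg G z) := by
      intro z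
      split_ifs
      · rw [div_pow, Real.sq_sqrt (dg_nonneg z), one_mul]
      · simp
    rw [Finset.sum_congr rfl fun z _ => h3 z, h4, one_mul,
      Finset.sum_congr rfl fun z _ => h5 z] at h2
    exact h2
  refine (Finset.sum_le_sum fun x _ => h1 x).trans (le_of_eq ?_)
  rw [Finset.sum_comm]
  refine Finset.sum_congr rfl fun z _ => ?_
  rw [← Finset.sum_mul]
  have h6 : ∑ x, (if G.Adj x z then (1 : ℝ) else 0) = dg G z := by
    rw [← sum_adj_one z]
    exact Finset.sum_congr rfl fun x _ => by simp only [G.adj_comm x z]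
  rw [h6]
  have := (hd z).ne'
  field_simp

theorem fro_mul_left (hd : ∀ x, 0 < dg G x) (A : Matrix V V ℝ) : fro (Mm G * A) ≤ fro A := by
  unfold fro
  rw [Finset.sum_comm, Finset.sum_comm (f := fun x y => A x y ^ 2)]
  refine Finset.sum_le_sum fun y _ => ?_
  simp only [Matrix.mul_apply]
  exact contraction hd fun z => A z y

theorem fro_mul_right (hd : ∀ x, 0 < dg G x) (A : Matrix V V ℝ) : fro (A * Mm G) ≤ fro A := by
  rw [← fro_transpose, Matrix.transpose_mul, Mm_transpose]
  exact (fro_mul_left hd _).trans (le_of_eq (fro_transpose A))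

theorem fro_pow_left (hd : ∀ x, 0 < dg G x) (A : Matrix V V ℝ) (a : ℕ) :
    fro (Mm G ^ a * A) ≤ fro A := by
  induction a with
  | zero => rw [pow_zero, Matrix.one_mul]
  | succ a ih =>
    rw [pow_succ', Matrix.mul_assoc]
    exact (fro_mul_left hd _).trans ih

theorem fro_pow_right (hd : ∀ x, 0 < dg G x) (A : Matrix V V ℝ) (a : ℕ) :
    fro (A * Mm G ^ a) ≤ fro A := by
  induction a with
  | zero => rw [pow_zero, Matrix.mul_one]
  | succ a ih =>
    rw [pow_succ, ← Matrix.mul_assoc]
    exact (fro_mul_right hd _).trans ih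

theorem Am_transpose : (Am G).transpose = Am G := by
  ext a b
  exact Am_symm b a

variable (G) in
/-- The bound for the closing probability. -/
noncomputable def QQ : ℝ := fro (Am G * Mm G)

theorem fro_le_QQ (hd : ∀ x, 0 < dg G x) {a b : ℕ} (h : 0 < a + b) :
    fro (Mm G ^ a * Am G * Mm G ^ b) ≤ QQ G := by
  rcases Nat.eq_zero_or_pos b with rfl | hb
  · obtain ⟨a', rfl⟩ : ∃ a', a = a' + 1 := ⟨a - 1, by omega⟩
    rw [pow_zero, Matrix.mul_one, pow_succ, Matrix.mul_assoc]
    refine (fro_pow_left hd _ _).trans (le_of_eq ?_)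
    rw [← fro_transpose, Matrix.transpose_mul, Mm_transpose, Am_transpose]
    rfl
  · obtain ⟨b', rfl⟩ : ∃ b', b = b' + 1 := ⟨b - 1, by omega⟩
    rw [pow_succ', ← Matrix.mul_assoc, Matrix.mul_assoc (Mm G ^ a)]
    refine (fro_pow_right hd _ _).trans ?_
    exact fro_pow_left hd _ _

/-- The trace of `M^(2a) A M^(2b) A`. -/
theorem trace_eq (a b : ℕ) :
    ∑ x, ∑ y, (Mm G ^ (2 * a) * Am G * Mm G ^ (2 * b)) x y * Am G x y =
      fro (Mm G ^ a * Am G * Mm G ^ b) := by
  have h1 : ∀ A B : Matrix V V ℝ, ∑ x, ∑ y, A x y * B x y = Matrix.trace (A * B.transpose) := by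
    intro A B
    unfold Matrix.trace
    refine Finset.sum_congr rfl fun x _ => ?_
    rw [Matrix.diag_apply, Matrix.mul_apply]
    exact Finset.sum_congr rfl fun y _ => rfl
  have h2 : fro (Mm G ^ a * Am G * Mm G ^ b) =
      ∑ x, ∑ y, (Mm G ^ a * Am G * Mm G ^ b) x y * (Mm G ^ a * Am G * Mm G ^ b) x y :=
    Finset.sum_congr rfl fun x _ => Finset.sum_congr rfl fun y _ => sq _
  rw [h2, h1, h1, Am_transpose, Matrix.transpose_mul, Matrix.transpose_mul, Am_transpose,
    Mm_pow_transpose, Mm_pow_transpose, two_mul, two_mul, pow_add, pow_add]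
  simp only [Matrix.mul_assoc]
  rw [Matrix.trace_mul_comm]
  simp only [Matrix.mul_assoc]

/-- The closing probability. -/
theorem closing (hd : ∀ x, 0 < dg G x) (hp : ∀ j, p (j + 1) ≤ j) {k : ℕ} {s t : ℕ}
    {n i : ℕ} {x : ℕ → ℕ} (h1 : IsPath p k n x) (h2 : x 0 = s)
    (h3 : x n = t) (h4 : i ≤ n) (h5 : ∀ j < i, 0 < x j ∧ x (j + 1) = p (x j))
    (h6 : ∀ j, i ≤ j → j < n → 0 < x (j + 1) ∧ x j = p (x (j + 1)))
    (hn : 3 ≤ n) (hodd : n % 2 = 1) (P : (ℕ → V) → Prop) [DecidablePred P]
    (hP : ∀ f, P f → Dec G p k f) :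
    W G p k (fun f => Am G (f s) (f t) * (if P f then 1 else 0)) ≤ QQ G := by
  classical
  obtain ⟨a, ha1, ha2, b, hb⟩ : ∃ a, 2 * a ≤ i ∧ i ≤ 2 * a + 1 ∧ ∃ b, n = 2 * a + 1 + 2 * b := by
    refine ⟨i / 2, by omega, by omega, (n - 1 - 2 * (i / 2)) / 2, by omega⟩
  subst hb
  have hker := h1.ker4 hd hp k (2 * a) (2 * b) x
  rw [h2, h3] at hker
  let ψ : V → V → V → V → ℝ := fun a' b' c' e' => Am G a' e' *
    ((if dg G a' ≤ dg G b' then 1 else 0) * (if dg G e' ≤ dg G c' then 1 else 0))
  have hψ : ∀ a' b' c' e', 0 ≤ ψ a' b' c' e' := by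
    intro a' b' c' e'
    refine mul_nonneg (Am_nonneg _ _) (mul_nonneg ?_ ?_) <;> split_ifs <;> norm_num
  have hle : W G p k (fun f => Am G (f s) (f t) * (if P f then 1 else 0)) ≤
      W G p k (fun f => ψ (f s) (f (x (2 * a))) (f (x (2 * a + 1))) (f t)) := by
    refine W_mono k fun f => ?_
    refine mul_le_mul_of_nonneg_left ?_ (Am_nonneg _ _)
    by_cases hPf : P f
    · have hD := hP f hPf
      have e1 := dec_up h1 h4 h5 hD a ha1
      have e2 := dec_down h1 h6 hD b (by omega)
      rw [h2] at e1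
      rw [h3, show 2 * a + 1 + 2 * b - 2 * b = 2 * a + 1 by omega] at e2
      rw [if_pos hPf, if_pos e1, if_pos e2, mul_one]
    · rw [if_neg hPf]
      refine mul_nonneg ?_ ?_ <;> split_ifs <;> norm_num
  refine hle.trans ((hker ψ hψ).trans ?_)
  refine le_trans ?_ (fro_le_QQ hd (a := a) (b := b) (by omega))
  rw [← trace_eq]
  -- rearrange
  have hR : ∑ a', ∑ e', (Mm G ^ (2 * a) * Am G * Mm G ^ (2 * b)) a' e' * Am G a' e' =
      ∑ a', ∑ b', ∑ c', ∑ e', (Mm G ^ (2 * a)) a' b' * Am G b' c' * (Mm G ^ (2 * b)) c' e' *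
        Am G a' e' := by
    refine Finset.sum_congr rfl fun a' _ => ?_
    calc ∑ e', (Mm G ^ (2 * a) * Am G * Mm G ^ (2 * b)) a' e' * Am G a' e' =
          ∑ e', ∑ c', ∑ b', (Mm G ^ (2 * a)) a' b' * Am G b' c' * (Mm G ^ (2 * b)) c' e' *
            Am G a' e' := by
          refine Finset.sum_congr rfl fun e' _ => ?_
          rw [Matrix.mul_apply, Finset.sum_mul]
          refine Finset.sum_congr rfl fun c' _ => ?_
          rw [Matrix.mul_apply, Finset.sum_mul, Finset.sum_mul]
      _ = ∑ e', ∑ b', ∑ c', (Mm G ^ (2 * a)) a' b' * Am G b' c' * (Mm G ^ (2 * b)) c' e' *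
            Am G a' e' := Finset.sum_congr rfl fun e' _ => Finset.sum_comm
      _ = ∑ b', ∑ e', ∑ c', (Mm G ^ (2 * a)) a' b' * Am G b' c' * (Mm G ^ (2 * b)) c' e' *
            Am G a' e' := Finset.sum_comm
      _ = _ := Finset.sum_congr rfl fun b' _ => Finset.sum_comm
  rw [hR]
  refine Finset.sum_le_sum fun a' _ => Finset.sum_le_sum fun b' _ =>
    Finset.sum_le_sum fun c' _ => Finset.sum_le_sum fun e' _ => ?_
  have hA := Am_nonneg (G := G) b' c'
  have hA2 := Am_nonneg (G := G) a' e'
  have hM1 := Mm_pow_nonneg (G := G) (2 * a) a' b'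
  have hM2 := Mm_pow_nonneg (G := G) (2 * b) c' e'
  have hrhs : 0 ≤ (Mm G ^ (2 * a)) a' b' * Am G b' c' * (Mm G ^ (2 * b)) c' e' * Am G a' e' := by
    positivity
  by_cases e1 : dg G a' ≤ dg G b'
  · by_cases e2 : dg G e' ≤ dg G c'
    · simp only [ψ, if_pos e1, if_pos e2, mul_one]
      unfold Kn
      have hb' := hd b'
      have hc' := hd c'
      have sb : 0 < √(dg G b') := Real.sqrt_pos.2 hb'
      have sc : 0 < √(dg G c') := Real.sqrt_pos.2 hc'
      have s1 : √(dg G a') ≤ √(dg G b') := Real.sqrt_le_sqrt e1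
      have s2 : √(dg G e') ≤ √(dg G c') := Real.sqrt_le_sqrt e2
      have q1 : √(dg G b') * √(dg G b') = dg G b' := Real.mul_self_sqrt hb'.le
      have q2 : √(dg G c') * √(dg G c') = dg G c' := Real.mul_self_sqrt hc'.le
      have h7 : √(dg G a') * √(dg G b') * (√(dg G c') * √(dg G e')) / (dg G b' * dg G c') ≤ 1 := by
        rw [div_le_one (by positivity), ← q1, ← q2, q1, q2]
        calc √(dg G a') * √(dg G b') * (√(dg G c') * √(dg G e')) ≤
              √(dg G b') * √(dg G b') * (√(dg G c') * √(dg G c')) := by gcongr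
          _ = _ := by rw [q1, q2]
      calc √(dg G a') * (Mm G ^ (2 * a)) a' b' * √(dg G b') *
            (√(dg G c') * (Mm G ^ (2 * b)) c' e' * √(dg G e')) * Am G b' c' /
            (dg G b' * dg G c') * Am G a' e' =
            ((Mm G ^ (2 * a)) a' b' * Am G b' c' * (Mm G ^ (2 * b)) c' e' * Am G a' e') *
            (√(dg G a') * √(dg G b') * (√(dg G c') * √(dg G e')) / (dg G b' * dg G c')) := by
            ring
        _ ≤ _ := mul_le_of_le_one_right hrhs h7
    · simp only [ψ, if_neg e2, mul_zero]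
      exact hrhs
  · simp only [ψ, if_neg e1, zero_mul, mul_zero]
    exact hrhs

/-- The probability that a new vertex coincides with an old one. -/
theorem coincide (hd : ∀ x, 0 < dg G x) (hp : ∀ j, p (j + 1) ≤ j) {k s t : ℕ} (ht : t ≤ k)
    (hst : s < t) : W G p k (fun f => if f s = f t then 1 else 0) ≤ Fintype.card V := by
  classical
  induction k with
  | zero => omega
  | succ k ih =>
    have hpk := hp k
    rcases Nat.lt_or_ge k t with h | h
    · obtain rfl : t = k + 1 := by omega
      have h1 : W G p (k + 1) (fun f => if f s = f (k + 1) then 1 else 0) ≤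
          W G p k (fun f => (fun _ y => 1 / dg G y) (f (p (k + 1))) (f (p (k + 1)))) := by
        simp only [W, Function.update_of_ne (show s ≠ k + 1 by omega), Function.update_self]
        refine W_mono k fun f => ?_
        rw [Finset.sum_eq_single (f s)]
        · rw [if_pos rfl, mul_one]
          have := hd (f (p (k + 1)))
          split_ifs
          · exact le_rfl
          · positivity
        · intro z _ hz
          rw [if_neg (Ne.symm hz), mul_zero]
        · simp
      have h2 := IsPath.ker2 (p := p) hd hp k 0 (fun _ => p (k + 1)) ⟨fun j _ => hpk,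
        fun j hj => absurd hj (by omega), fun i hi j hj _ => by omega⟩
      refine h1.trans ((h2 (fun _ y => 1 / dg G y) fun x y => by
        have := hd y
        positivity).trans (le_of_eq ?_))
      have h3 : ∀ x : V, ∑ y, Kn G 0 x y * (1 / dg G y) = 1 := by
        intro x
        rw [Finset.sum_eq_single x]
        · rw [Kn_zero, if_pos rfl]
          exact mul_one_div_cancel (hd x).ne'
        · intro y _ hyx
          rw [Kn_zero, if_neg (Ne.symm hyx), zero_mul]
        · simp
      rw [Finset.sum_congr rfl fun x _ => h3 x]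
      simp
    · rw [W_step hd k fun f z => by
        rw [Function.update_of_ne (show s ≠ k + 1 by omega),
          Function.update_of_ne (show t ≠ k + 1 by omega)]]
      exact ih h

end Pool.Agent.H697.IR
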