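import Pool.Agent.H697.IR.Embed
import Pool.Agent.H697.CL.Easy

/-!
# Bipartite graphs without an induced forest are clustered on one of the sides
-/

set_option linter.unusedSectionVars false

namespace Pool.Agent.H697.IR

open Finset Pool.Agent.H697.Forest
open Pool.Agent.H697.CL (nb nR mem_nb mem_nR card_nb card_nR)

variable {V : Type} [Fintype V] [DecidableEq V] (G : SimpleGraph V) [DecidableRel G.Adj]

/-- The similarity of two vertices. -/
noncomputable def JG (c c' : V) : ℝ :=
  ((G.neighborFinset c ∩ G.neighborFinset c').card : ℝ) /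
    (G.neighborFinset c ∪ G.neighborFinset c').card

/-- The sum of the similarities. -/
noncomputable def Q2 : ℝ :=
  ∑ y, (∑ c ∈ G.neighborFinset y, ∑ c' ∈ G.neighborFinset y, JG G c c') / dg G y

variable {G}

theorem QQ_sq_le (hd : ∀ x, 0 < dg G x) : QQ G ^ 2 ≤ Zm G * (2 * Q2 G) := by
  classical
  -- the common neighbours
  let cod : V → V → ℝ := fun c c' => ∑ a, Am G a c * Am G a c'
  have hcod : ∀ c c', cod c c' = ((G.neighborFinset c ∩ G.neighborFinset c').card : ℝ) := by
    intro c c'
    simp only [cod]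
    have h1 : ∀ a, Am G a c * Am G a c' =
        if a ∈ G.neighborFinset c ∩ G.neighborFinset c' then 1 else 0 := by
      intro a
      have e1 : a ∈ G.neighborFinset c ∩ G.neighborFinset c' ↔ G.Adj a c ∧ G.Adj a c' := by
        simp [G.adj_comm]
      unfold Am
      rw [if_congr e1 rfl rfl]
      by_cases h2 : G.Adj a c <;> by_cases h3 : G.Adj a c' <;> simp [h2, h3]
    rw [Finset.sum_congr rfl fun a _ => h1 a, Finset.sum_boole]
    congr 2
    ext a
    simp
  let w : V × V × V → ℝ := fun q => Am G q.2.1 q.1 * Am G q.2.2 q.1 / dg G q.1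
  let g : V × V × V → ℝ := fun q => cod q.2.1 q.2.2 / (√(dg G q.2.1) * √(dg G q.2.2))
  have hw0 : ∀ q, 0 ≤ w q := fun q =>
    div_nonneg (mul_nonneg (Am_nonneg _ _) (Am_nonneg _ _)) (dg_nonneg _)
  have hQ : QQ G = ∑ q, w q * g q := by
    unfold QQ fro
    rw [Finset.sum_comm, Fintype.sum_prod_type]
    refine Finset.sum_congr rfl fun y _ => ?_
    rw [Fintype.sum_prod_type]
    have h1 : ∀ a, (Am G * Mm G) a y ^ 2 = ∑ c, ∑ c', (Am G c y * Am G c' y / dg G y) *
        (Am G a c * Am G a c' / (√(dg G c) * √(dg G c'))) := by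
      intro a
      rw [Matrix.mul_apply, sq, Finset.sum_mul_sum]
      refine Finset.sum_congr rfl fun c _ => Finset.sum_congr rfl fun c' _ => ?_
      have h2 : ∀ c, Mm G c y = Am G c y / (√(dg G c) * √(dg G y)) := by
        intro c
        unfold Mm Am
        split_ifs <;> simp
      rw [h2, h2]
      have sy : 0 < √(dg G y) := Real.sqrt_pos.2 (hd y)
      have sc : 0 < √(dg G c) := Real.sqrt_pos.2 (hd c)
      have sc' : 0 < √(dg G c') := Real.sqrt_pos.2 (hd c')
      have hy : √(dg G y) * √(dg G y) = dg G y := Real.mul_self_sqrt (dg_nonneg y)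
      rw [show Am G c y * Am G c' y / dg G y = Am G c y * Am G c' y / (√(dg G y) * √(dg G y)) by
        rw [hy]]
      field_simp
    rw [Finset.sum_congr rfl fun a _ => h1 a, Finset.sum_comm]
    refine Finset.sum_congr rfl fun c _ => ?_
    rw [Finset.sum_comm]
    refine Finset.sum_congr rfl fun c' _ => ?_
    rw [← Finset.mul_sum, ← Finset.sum_div]
  have hw : ∑ q, w q = Zm G := by
    rw [Fintype.sum_prod_type]
    refine Finset.sum_congr rfl fun y _ => ?_
    rw [Fintype.sum_prod_type]
    have h1 : ∑ c, ∑ c', Am G c y * Am G c' y / dg G y = dg G y * dg G y / dg G y := by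
      simp only [← Finset.sum_div, ← Finset.mul_sum, ← Finset.sum_mul]
      have h2 : ∑ c, Am G c y = dg G y := by
        rw [← sum_adj_one y]
        exact Finset.sum_congr rfl fun c _ => by unfold Am; simp only [G.adj_comm c y]
      rw [h2]
    change ∑ c, ∑ c', Am G c y * Am G c' y / dg G y = _
    rw [h1, mul_div_assoc, div_self (hd y).ne', mul_one]
  have hg : ∀ c c', cod c c' / (√(dg G c) * √(dg G c')) *
      (cod c c' / (√(dg G c) * √(dg G c'))) ≤ 2 * JG G c c' := by
    intro c c'
    have hc := hd c
    have hc' := hd c'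
    have e1 : √(dg G c) * √(dg G c) = dg G c := Real.mul_self_sqrt hc.le
    have e2 : √(dg G c') * √(dg G c') = dg G c' := Real.mul_self_sqrt hc'.le
    have h1 : cod c c' / (√(dg G c) * √(dg G c')) * (cod c c' / (√(dg G c) * √(dg G c'))) =
        cod c c' * cod c c' / (dg G c * dg G c') := by
      rw [div_mul_div_comm, ← e1, ← e2, e1, e2]
      congr 1
      rw [← e1, ← e2, e1, e2]
      calc √(dg G c) * √(dg G c') * (√(dg G c) * √(dg G c')) =
          (√(dg G c) * √(dg G c)) * (√(dg G c') * √(dg G c')) := by ring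
        _ = _ := by rw [e1, e2]
    rw [h1]
    unfold JG
    rw [← hcod]
    set U : ℝ := ((G.neighborFinset c ∪ G.neighborFinset c').card : ℝ) with hU
    have hU1 : dg G c ≤ U := by
      rw [hU]
      unfold dg
      rw [← SimpleGraph.card_neighborFinset_eq_degree]
      exact_mod_cast Finset.card_le_card Finset.subset_union_left
    have hU2 : U ≤ dg G c + dg G c' := by
      rw [hU]
      unfold dg
      rw [← SimpleGraph.card_neighborFinset_eq_degree, ← SimpleGraph.card_neighborFinset_eq_degree]
      exact_mod_cast Finset.card_union_le _ _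
    have h2 : 0 ≤ cod c c' := by rw [hcod]; positivity
    have h3 : cod c c' ≤ dg G c := by
      rw [hcod]
      unfold dg
      rw [← SimpleGraph.card_neighborFinset_eq_degree]
      exact_mod_cast Finset.card_le_card Finset.inter_subset_left
    have h4 : cod c c' ≤ dg G c' := by
      rw [hcod]
      unfold dg
      rw [← SimpleGraph.card_neighborFinset_eq_degree]
      exact_mod_cast Finset.card_le_card Finset.inter_subset_right
    rw [← mul_div_assoc, div_le_div_iff₀ (by positivity) (by linarith)]
    have h5 : cod c c' * U ≤ 2 * (dg G c * dg G c') := by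
      calc cod c c' * U ≤ cod c c' * (dg G c + dg G c') := by gcongr
        _ = cod c c' * dg G c + cod c c' * dg G c' := by ring
        _ ≤ dg G c' * dg G c + dg G c * dg G c' := by gcongr
        _ = _ := by ring
    nlinarith
  have hQ2 : ∑ q, w q * (g q * g q) ≤ 2 * Q2 G := by
    unfold Q2
    rw [Fintype.sum_prod_type, Finset.mul_sum]
    refine Finset.sum_le_sum fun y _ => ?_
    rw [Fintype.sum_prod_type, ← mul_div_assoc, Finset.mul_sum]
    have h1 : ∀ F : V → ℝ, ∑ c', Am G c' y * F c' = ∑ c' ∈ G.neighborFinset y, F c' := by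
      intro F
      have h2 : ∀ c', Am G c' y * F c' = if G.Adj y c' then F c' else 0 := by
        intro c'
        unfold Am
        rw [if_congr (G.adj_comm c' y) rfl rfl]
        split_ifs <;> simp
      rw [Finset.sum_congr rfl fun c' _ => h2 c', ← Finset.sum_filter]
      refine Finset.sum_congr ?_ fun _ _ => rfl
      ext z
      simp
    have h3 : ∑ c, ∑ c', w (y, c, c') * (g (y, c, c') * g (y, c, c')) =
        (∑ c ∈ G.neighborFinset y, ∑ c' ∈ G.neighborFinset y,
          (g (y, c, c') * g (y, c, c'))) / dg G y := by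
      rw [← h1, Finset.sum_div]
      refine Finset.sum_congr rfl fun c _ => ?_
      rw [← h1, Finset.mul_sum, Finset.sum_div]
      refine Finset.sum_congr rfl fun c' _ => ?_
      simp only [w]
      ring
    rw [h3]
    refine div_le_div_of_nonneg_right ?_ (dg_nonneg y)
    refine Finset.sum_le_sum fun c _ => ?_
    rw [Finset.mul_sum]
    exact Finset.sum_le_sum fun c' _ => hg c c'
  have hCS := sum_mul_sq_le_sq_mul_sq (univ : Finset (V × V × V)) (fun q => √(w q))
    (fun q => √(w q) * g q)
  have h1 : ∀ q, √(w q) * (√(w q) * g q) = w q * g q := by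
    intro q
    rw [← mul_assoc, Real.mul_self_sqrt (hw0 q)]
  have h2 : ∀ q, √(w q) ^ 2 = w q := fun q => Real.sq_sqrt (hw0 q)
  have h3 : ∀ q, (√(w q) * g q) ^ 2 = w q * (g q * g q) := by
    intro q
    rw [mul_pow, Real.sq_sqrt (hw0 q), sq]
  rw [Finset.sum_congr rfl fun q _ => h1 q, Finset.sum_congr rfl fun q _ => h2 q,
    Finset.sum_congr rfl fun q _ => h3 q, ← hQ, hw] at hCS
  refine hCS.trans (mul_le_mul_of_nonneg_left hQ2 ?_)
  exact Finset.sum_nonneg fun x _ => dg_nonneg x

end Pool.Agent.H697.IR
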