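import Pool.Agent.H697.CL.Easy

/-!
# Games without induced subgraphs, and clustered games: definitions
-/

namespace Pool.Agent.H697.IR

open Pool.Agent.H697.CL (clus)
open Pool.Agent.H697.UG (Game Simple cgraph)

/-- The same edges and tables, with exchanged ends of the edges: the left vertices become the right
vertices. -/
def mirror (J : Game) : Game := J.map fun e => ((e.1.2, e.1.1), e.2)

/-- The game is simple, and its clustering coefficient is at least `γ` for one of the two choices of
the left side. -/
def SideClustered (γ : ℝ) (J : Game) : Prop := Simple J ∧ (γ ≤ clus J ∨ γ ≤ clus (mirror J))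

/-- The simple games whose constraint graph has no induced subgraph `H i`. -/
def NoInd {ι : Type} {V : ι → Type} (H : ∀ i, SimpleGraph (V i)) (I : Game) : Prop :=
  Simple I ∧ ∀ i, IsEmpty (H i ↪g cgraph I)

end Pool.Agent.H697.IR
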