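import Pool.Agent.H697.IR.Good
import Pool.Agent.H697.Forest.Order

/-!
# Induced forests in bipartite graphs with arbitrary degrees
-/

set_option linter.unusedSectionVars false

namespace Pool.Agent.H697.IR

open Finset Pool.Agent.H697.Forest

/-- A homomorphism changes the side at each step of a path. -/
theorem side_path {V : Type} {G : SimpleGraph V} {col : V → Bool}
    (hcol : ∀ x y, G.Adj x y → col x ≠ col y) {p : ℕ → ℕ} {k : ℕ} {f : ℕ → V}
    (hf : ∀ j, j < k → G.Adj (f (p (j + 1))) (f (j + 1))) {n : ℕ} {x : ℕ → ℕ}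
    (h : IsPath p k n x) (m : ℕ) (hm : m ≤ n) :
    col (f (x m)) = xor (col (f (x 0))) (decide (m % 2 = 1)) := by
  induction m with
  | zero => simp
  | succ m ih =>
    have h1 := ih (by omega)
    have h2 : G.Adj (f (x m)) (f (x (m + 1))) := by
      rcases h.2.1 m (by omega) with ⟨h3, h4⟩ | ⟨h3, h4⟩
      · obtain ⟨t, ht⟩ : ∃ t, x (m + 1) = t + 1 := ⟨x (m + 1) - 1, by omega⟩
        have := h.1 (m + 1) hm
        rw [h4, ht]
        exact hf t (by omega)
      · obtain ⟨t, ht⟩ : ∃ t, x m = t + 1 := ⟨x m - 1, by omega⟩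
        have := h.1 m (by omega)
        rw [h4, ht]
        exact (hf t (by omega)).symm
    have h3 := hcol _ _ h2
    rw [h1] at h3
    have h4 : decide ((m + 1) % 2 = 1) = !(decide (m % 2 = 1)) := by
      rcases Nat.mod_two_eq_zero_or_one m with h | h
      · simp [h, show (m + 1) % 2 = 1 by omega]
      · simp [h, show (m + 1) % 2 = 0 by omega]
    rw [h4]
    revert h3
    cases col (f (x (m + 1))) <;> cases col (f (x 0)) <;> cases decide (m % 2 = 1) <;> simp

/-- **Induced trees.** -/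
theorem exists_tree (k : ℕ) : ∃ κ : ℝ, 0 < κ ∧ ∀ (p : ℕ → ℕ), (∀ j, p (j + 1) ≤ j) →
    ∀ (V : Type) [Fintype V] [DecidableEq V] (G : SimpleGraph V) [DecidableRel G.Adj]
      (col : V → Bool), (∀ x y, G.Adj x y → col x ≠ col y) → (∀ x, 0 < dg G x) → 0 < Zm G →
      QQ G ≤ κ * Zm G → (Fintype.card V : ℝ) ≤ κ * Zm G →
      ∃ f : ℕ → V, (∀ s ≤ k, ∀ t ≤ k, f s = f t → s = t) ∧
        ∀ s ≤ k, ∀ t ≤ k, (G.Adj (f s) (f t) ↔ TAdj p s t) := by
  classical
  obtain ⟨ε, hε, hε2, hbad⟩ := exists_eps k (1 / 4) (by norm_num)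
  refine ⟨ε ^ k / (8 * (k + 1) ^ 2), by positivity, fun p hp V _ _ G _ col hcol hd hZ hQ hV => ?_⟩
  set κ : ℝ := ε ^ k / (8 * (k + 1) ^ 2) with hκ
  let OD : ℕ → ℕ → Prop := fun s t => ∃ (n i : ℕ) (x : ℕ → ℕ), IsPath p k n x ∧ x 0 = s ∧
    x n = t ∧ i ≤ n ∧ (∀ j < i, 0 < x j ∧ x (j + 1) = p (x j)) ∧
    (∀ j, i ≤ j → j < n → 0 < x (j + 1) ∧ x j = p (x (j + 1))) ∧ 3 ≤ n ∧ n % 2 = 1
  let b : ℕ × ℕ → (ℕ → V) → ℝ := fun q f =>
    (if OD q.1 q.2 then Am G (f q.1) (f q.2) else 0) + (if f q.1 = f q.2 then 1 else 0)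
  have hb0 : ∀ q f, 0 ≤ b q f := by
    intro q f
    refine add_nonneg ?_ ?_
    · split_ifs
      · exact Am_nonneg _ _
      · exact le_rfl
    · split_ifs <;> norm_num
  let I : (ℕ → V) → ℝ := fun f => if Gd G ε k p k f then 1 else 0
  have hI0 : ∀ f, 0 ≤ I f := by
    intro f
    simp only [I]
    split_ifs <;> norm_num
  have hI1 : ∀ f, I f ≤ 1 := by
    intro f
    simp only [I]
    split_ifs <;> norm_num
  set S := ((range (k + 1)) ×ˢ (range (k + 1))).filter
    (fun q : ℕ × ℕ => q.1 ≠ q.2 ∧ ¬ TAdj p q.1 q.2) with hS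
  have hcard : (S.card : ℝ) ≤ (k + 1) ^ 2 := by
    have : S.card ≤ (k + 1) * (k + 1) := by
      refine (Finset.card_filter_le _ _).trans ?_
      rw [Finset.card_product, Finset.card_range]
    calc (S.card : ℝ) ≤ ((k + 1) * (k + 1) : ℕ) := by exact_mod_cast this
      _ = (k + 1) ^ 2 := by push_cast; ring
  have hco : ∀ s t, s ≤ k → t ≤ k → s ≠ t →
      W G p k (fun f => if f s = f t then 1 else 0) ≤ Fintype.card V := by
    intro s t hs ht hst
    rcases Nat.lt_or_ge s t with h | h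
    · exact coincide hd hp ht h
    · have h1 := coincide hd hp (k := k) (s := t) (t := s) hs (by omega)
      refine le_trans (le_of_eq ?_) h1
      congr 1
      funext f
      exact if_congr eq_comm rfl rfl
  have hW0 : ∀ φ : (ℕ → V) → ℝ, (∀ f, 0 ≤ φ f) → 0 ≤ W G p k φ := by
    intro φ hφ
    have := W_mono (G := G) (p := p) k hφ
    rwa [W_zero] at this
  have hbS : ∀ q ∈ S, W G p k (fun f => b q f * I f) ≤ 2 * κ * Zm G := by
    intro q hq
    simp only [hS, Finset.mem_filter, Finset.mem_product, Finset.mem_range] at hq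
    have h1 : W G p k (fun f => b q f * I f) =
        W G p k (fun f => (if OD q.1 q.2 then Am G (f q.1) (f q.2) else 0) * I f) +
        W G p k (fun f => (if f q.1 = f q.2 then 1 else 0) * I f) := by
      rw [← W_add]
      congr 1
      funext f
      simp only [b]
      ring
    rw [h1]
    have h2 : W G p k (fun f => (if OD q.1 q.2 then Am G (f q.1) (f q.2) else 0) * I f) ≤
        QQ G := by
      by_cases h : OD q.1 q.2
      · simp only [if_pos h]
        obtain ⟨n, i, x, a1, a2, a3, a4, a5, a6, a7, a8⟩ := h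
        exact closing hd hp a1 a2 a3 a4 a5 a6 a7 a8 (Gd G ε k p k) fun f hf => hf.dec
      · simp only [if_neg h, zero_mul]
        rw [W_zero]
        exact fro_nonneg _
    have h3 : W G p k (fun f => (if f q.1 = f q.2 then 1 else 0) * I f) ≤
        Fintype.card V := by
      refine le_trans (W_mono k fun f => ?_) (hco q.1 q.2 (by omega) (by omega) hq.2.1)
      refine mul_le_of_le_one_right ?_ (hI1 f)
      split_ifs <;> norm_num
    linarith
  have hmain : ε ^ k * (Zm G / 2) ≤ W G p k I := by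
    refine le_trans ?_ (le_W_good hε.le hd hp k le_rfl)
    have := root_le (G := G) hε2 (N := k) (hbad V G)
    refine mul_le_mul_of_nonneg_left ?_ (by positivity)
    linarith
  have hpos : 0 < W G p k (fun f => I f - ∑ q ∈ S, b q f * I f) := by
    rw [W_sub, W_sum]
    have h2 : ∑ q ∈ S, W G p k (fun f => b q f * I f) ≤
        (k + 1) ^ 2 * (2 * κ * Zm G) := by
      refine (Finset.sum_le_sum hbS).trans ?_
      rw [Finset.sum_const, nsmul_eq_mul]
      gcongr
    have h3 : ((k : ℝ) + 1) ^ 2 * (2 * κ * Zm G) = ε ^ k * (Zm G / 4) := by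
      rw [hκ]
      field_simp
      ring
    have h4 : 0 < ε ^ k * (Zm G / 4) := by positivity
    have h5 : ε ^ k * (Zm G / 2) = 2 * (ε ^ k * (Zm G / 4)) := by ring
    linarith
  obtain ⟨f, hf, hf2⟩ := exists_of_W_pos hp k hpos
  have hG : Gd G ε k p k f := by
    by_contra h
    have h1 : I f = 0 := if_neg h
    rw [h1] at hf2
    simp at hf2
  have hIf : I f = 1 := if_pos hG
  simp only [hIf, mul_one] at hf2
  have hgood : ∀ q ∈ S, b q f < 1 := by
    intro q hq
    have h1 : b q f ≤ ∑ q ∈ S, b q f :=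
      Finset.single_le_sum (f := fun q => b q f) (fun q _ => hb0 q f) hq
    linarith
  have hadj : ∀ s ≤ k, ∀ t ≤ k, TAdj p s t → G.Adj (f s) (f t) := by
    intro s hs t ht hst
    rcases hst with ⟨h1, h2⟩ | ⟨h1, h2⟩
    · obtain ⟨t', rfl⟩ : ∃ t', t = t' + 1 := ⟨t - 1, by omega⟩
      rw [h2]
      exact hf t' (by omega)
    · obtain ⟨s', rfl⟩ : ∃ s', s = s' + 1 := ⟨s - 1, by omega⟩
      rw [h2]
      exact (hf s' (by omega)).symm
  have hno : ∀ s ≤ k, ∀ t ≤ k, s ≠ t → ¬ TAdj p s t → f s ≠ f t ∧ ¬ G.Adj (f s) (f t) := by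
    intro s hs t ht hst hT
    have hmem : (s, t) ∈ S := by
      simp only [hS, Finset.mem_filter, Finset.mem_product, Finset.mem_range]
      exact ⟨⟨by omega, by omega⟩, hst, hT⟩
    have h1 := hgood _ hmem
    have h2 : (0 : ℝ) ≤ (if OD s t then Am G (f s) (f t) else 0) := by
      split_ifs
      · exact Am_nonneg _ _
      · exact le_rfl
    have h3 : (0 : ℝ) ≤ (if f s = f t then 1 else 0) := by split_ifs <;> norm_num
    refine ⟨fun h => ?_, fun h => ?_⟩
    · simp only [b] at h1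
      rw [if_pos h] at h1
      linarith
    · obtain ⟨n, i, x, a1, a2, a3, a4, a5, a6⟩ := exists_updown hp (s + t) s t le_rfl
      have a1' : IsPath p k n x := ⟨fun j hj => (a1.1 j hj).trans (max_le hs ht), a1.2.1, a1.2.2⟩
      have hn0 : n ≠ 0 := by
        rintro rfl
        exact hst (a2.symm.trans a3)
      have hn1 : n ≠ 1 := by
        rintro rfl
        have := a1.2.1 0 (by omega)
        rw [a2, a3] at this
        exact hT this
      rcases Nat.mod_two_eq_zero_or_one n with hm | hm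
      · have h4 := side_path hcol hf a1' n le_rfl
        rw [a2, a3] at h4
        simp only [hm, zero_ne_one, decide_false, Bool.xor_false] at h4
        exact hcol _ _ h h4.symm
      · have h4 : OD s t := ⟨n, i, x, a1', a2, a3, a4, a5, a6, by omega, hm⟩
        simp only [b] at h1
        rw [if_pos h4] at h1
        unfold Am at h1
        rw [if_pos h] at h1
        linarith
  refine ⟨f, fun s hs t ht heq => ?_, fun s hs t ht => ⟨fun ha => ?_, hadj s hs t ht⟩⟩
  · by_contra hst
    by_cases h1 : TAdj p s t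
    · exact (hadj s hs t ht h1).ne heq
    · exact (hno s hs t ht hst h1).1 heq
  · by_contra h1
    have hst : s ≠ t := by
      rintro rfl
      exact G.loopless.irrefl _ ha
    exact (hno s hs t ht hst h1).2 ha

/-- **Induced forests.** -/
theorem exists_forest {α : Type} [Fintype α] (H : SimpleGraph α) (hH : H.IsAcyclic) :
    ∃ κ : ℝ, 0 < κ ∧ ∀ (V : Type) [Fintype V] [DecidableEq V] (G : SimpleGraph V)
      [DecidableRel G.Adj] (col : V → Bool), (∀ x y, G.Adj x y → col x ≠ col y) →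
      (∀ x, 0 < dg G x) → 0 < Zm G →
      QQ G ≤ κ * Zm G → (Fintype.card V : ℝ) ≤ κ * Zm G → Nonempty (H ↪g G) := by
  obtain ⟨e, p, hp, he⟩ := exists_parent H hH
  obtain ⟨κ, hκ, h⟩ := exists_tree (Fintype.card α)
  refine ⟨κ, hκ, fun V _ _ G _ col hcol hd hZ hQ hV => ?_⟩
  obtain ⟨f, hf1, hf2⟩ := h p hp V G col hcol hd hZ hQ hV
  refine ⟨⟨⟨fun a => f ((e.symm a : ℕ) + 1), fun a b hab => ?_⟩, fun {a b} => ?_⟩⟩
  · have ha := (e.symm a).2
    have hb := (e.symm b).2
    have h1 := hf1 _ (by omega) _ (by omega) hab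
    exact e.symm.injective (Fin.ext (by omega))
  · have ha := (e.symm a).2
    have hb := (e.symm b).2
    have h1 := hf2 ((e.symm a : ℕ) + 1) (by omega) ((e.symm b : ℕ) + 1) (by omega)
    have h2 := he (e.symm a) (e.symm b)
    rw [Equiv.apply_symm_apply, Equiv.apply_symm_apply] at h2
    exact h1.trans h2.symm

end Pool.Agent.H697.IR
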