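import Pool.Agent.H697.IR.Close

/-!
# Decreasing trees have positive probability
-/

set_option linter.unusedSectionVars false

namespace Pool.Agent.H697.IR

open Finset Pool.Agent.H697.Forest

variable {V : Type} [Fintype V] [DecidableEq V] (G : SimpleGraph V) [DecidableRel G.Adj]

/-- The walk `x, y` has many decreasing continuations. -/
def good (ε : ℝ) : ℕ → V → V → Prop
  | 0, _, _ => True
  | n + 1, x, y => good ε n x y ∧
      ε * dg G y ≤ (by classical exact
        ((G.neighborFinset y).filter fun z => dg G z ≤ dg G x ∧ good ε n y z).card : ℕ)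

open Classical in
theorem good_succ {ε : ℝ} {n : ℕ} {x y : V} : good G ε (n + 1) x y ↔ good G ε n x y ∧
    ε * dg G y ≤ (((G.neighborFinset y).filter fun z => dg G z ≤ dg G x ∧
      good G ε n y z).card : ℝ) := by
  exact Iff.rfl

variable {G}

theorem good_anti {ε : ℝ} {a b : ℕ} (h : a ≤ b) {x y : V} (hg : good G ε b x y) :
    good G ε a x y := by
  induction h with
  | refl => exact hg
  | step _ ih => exact ih hg.1

theorem good_mono {ε ε' : ℝ} (h : ε ≤ ε') {n : ℕ} {x y : V} (hg : good G ε' n x y) :
    good G ε n x y := by
  classical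
  induction n generalizing x y with
  | zero => trivial
  | succ n ih =>
    rw [good_succ] at hg ⊢
    refine ⟨ih hg.1, ?_⟩
    calc ε * dg G y ≤ ε' * dg G y := mul_le_mul_of_nonneg_right h (dg_nonneg y)
      _ ≤ _ := hg.2
      _ ≤ _ := by
        norm_cast
        exact Finset.card_le_card (Finset.monotone_filter_right _ fun z _ hz => ⟨hz.1, ih hz.2⟩)

open Classical in
variable (G) in
/-- The number of pairs which are not good. -/
noncomputable def badc (ε : ℝ) (n : ℕ) : ℝ :=
  ∑ y, (((G.neighborFinset y).filter fun x => ¬ good G ε n x y).card : ℝ)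

theorem badc_mono {ε ε' : ℝ} (h : ε ≤ ε') (n : ℕ) : badc G ε n ≤ badc G ε' n := by
  classical
  unfold badc
  refine Finset.sum_le_sum fun y _ => ?_
  norm_cast
  exact Finset.card_le_card (Finset.monotone_filter_right _ fun z _ hz h' => hz (good_mono h h'))

/-- The number of the neighbours with few smaller neighbours. -/
theorem card_low (y : V) (l : ℝ) (hl : 0 ≤ l) :
    (((G.neighborFinset y).filter fun x => (((G.neighborFinset y).filter fun z =>
      dg G z ≤ dg G x).card : ℝ) < l).card : ℝ) ≤ l := by
  classical
  set B := (G.neighborFinset y).filter fun x => (((G.neighborFinset y).filter fun z =>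
      dg G z ≤ dg G x).card : ℝ) < l with hB
  rcases B.eq_empty_or_nonempty with h0 | h0
  · rw [h0]
    simpa using hl
  · obtain ⟨x, hx, hmax⟩ := Finset.exists_max_image B (fun x => dg G x) h0
    have h1 := (Finset.mem_filter.1 hx).2
    refine le_trans ?_ h1.le
    norm_cast
    refine Finset.card_le_card fun z hz => ?_
    exact Finset.mem_filter.2 ⟨(Finset.mem_filter.1 hz).1, hmax z hz⟩

/-- The sum over directed edges. -/
theorem badc_swap (ε : ℝ) (n : ℕ) [∀ x : V, DecidablePred fun z => ¬ good G ε n x z] :
    ∑ x, (((G.neighborFinset x).filter fun z => ¬ good G ε n x z).card : ℝ) = badc G ε n := by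
  classical
  unfold badc
  have h1 : ∀ x, (((G.neighborFinset x).filter fun z => ¬ good G ε n x z).card : ℝ) =
      ∑ z, if G.Adj x z ∧ ¬ good G ε n x z then 1 else 0 := by
    intro x
    rw [Finset.sum_boole]
    congr 2
    ext z
    simp
  rw [Finset.sum_congr rfl fun x _ => h1 x, Finset.sum_comm]
  refine Finset.sum_congr rfl fun y _ => ?_
  rw [Finset.sum_boole]
  congr 2
  ext z
  simp [G.adj_comm]

theorem badc_succ {ε β δ : ℝ} (hε : 0 ≤ ε) (hβ : 0 < β) {n : ℕ} (h : badc G ε n ≤ δ * Zm G) :
    badc G ε (n + 1) ≤ (δ + (ε + β) + δ / β) * Zm G := by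
  classical
  have h1 : ∀ y, (((G.neighborFinset y).filter fun x => ¬ good G ε (n + 1) x y).card : ℝ) ≤
      (((G.neighborFinset y).filter fun x => ¬ good G ε n x y).card : ℝ) +
      ((ε + β) * dg G y +
      (((G.neighborFinset y).filter fun z => ¬ good G ε n y z).card : ℝ) / β) := by
    intro y
    set By : ℝ := (((G.neighborFinset y).filter fun z => ¬ good G ε n y z).card : ℝ) with hBy
    have hBy0 : 0 ≤ By := Nat.cast_nonneg _
    have hdy := dg_nonneg (G := G) y
    have h2 : (G.neighborFinset y).filter (fun x => ¬ good G ε (n + 1) x y) ⊆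
        (G.neighborFinset y).filter (fun x => ¬ good G ε n x y) ∪
        (G.neighborFinset y).filter (fun x => (((G.neighborFinset y).filter fun z =>
          dg G z ≤ dg G x ∧ good G ε n y z).card : ℝ) < ε * dg G y) := by
      intro x hx
      rw [Finset.mem_union, Finset.mem_filter, Finset.mem_filter]
      obtain ⟨h3, h4⟩ := Finset.mem_filter.1 hx
      rw [good_succ] at h4
      by_cases h5 : good G ε n x y
      · right
        refine ⟨h3, ?_⟩
        by_contra h6
        exact h4 ⟨h5, not_lt.1 h6⟩
      · exact Or.inl ⟨h3, h5⟩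
    have h3 : (((G.neighborFinset y).filter (fun x => (((G.neighborFinset y).filter fun z =>
          dg G z ≤ dg G x ∧ good G ε n y z).card : ℝ) < ε * dg G y)).card : ℝ) ≤
        (ε + β) * dg G y + By / β := by
      rcases le_or_gt By (β * dg G y) with h4 | h4
      · have h5 := card_low (G := G) y ((ε + β) * dg G y) (by positivity)
        have h6 : (((G.neighborFinset y).filter (fun x => (((G.neighborFinset y).filter fun z =>
          dg G z ≤ dg G x ∧ good G ε n y z).card : ℝ) < ε * dg G y)).card : ℝ) ≤
          (((G.neighborFinset y).filter fun x => (((G.neighborFinset y).filter fun z =>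
            dg G z ≤ dg G x).card : ℝ) < (ε + β) * dg G y).card : ℝ) := by
          norm_cast
          refine Finset.card_le_card (Finset.monotone_filter_right _ fun x _ hx => ?_)
          have h7 : (((G.neighborFinset y).filter fun z => dg G z ≤ dg G x).card : ℝ) ≤
              (((G.neighborFinset y).filter fun z =>
                dg G z ≤ dg G x ∧ good G ε n y z).card : ℝ) + By := by
            rw [hBy]
            norm_cast
            refine le_trans (Finset.card_le_card ?_) (Finset.card_union_le _ _)
            intro z hz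
            have hz' := Finset.mem_filter.1 hz
            by_cases h8 : good G ε n y z
            · exact Finset.mem_union_left _ (Finset.mem_filter.2 ⟨hz'.1, hz'.2, h8⟩)
            · exact Finset.mem_union_right _ (Finset.mem_filter.2 ⟨hz'.1, h8⟩)
          change _ < _ at hx
          change (_ : ℝ) < _
          linarith
        have : 0 ≤ By / β := by positivity
        linarith
      · have h5 : (((G.neighborFinset y).filter (fun x => (((G.neighborFinset y).filter fun z =>
          dg G z ≤ dg G x ∧ good G ε n y z).card : ℝ) < ε * dg G y)).card : ℝ) ≤ dg G y := by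
          unfold dg
          rw [← SimpleGraph.card_neighborFinset_eq_degree]
          norm_cast
          exact Finset.card_filter_le _ _
        have h6 : dg G y ≤ By / β := by
          rw [le_div_iff₀ hβ]
          linarith
        have : 0 ≤ (ε + β) * dg G y := by positivity
        linarith
    calc _ ≤ (((G.neighborFinset y).filter (fun x => ¬ good G ε n x y) ∪
        (G.neighborFinset y).filter (fun x => (((G.neighborFinset y).filter fun z =>
          dg G z ≤ dg G x ∧ good G ε n y z).card : ℝ) < ε * dg G y)).card : ℝ) := by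
          exact_mod_cast Finset.card_le_card h2
      _ ≤ _ := by
          refine le_trans ?_ (add_le_add_right h3 _)
          exact_mod_cast Finset.card_union_le _ _
  unfold badc
  refine (Finset.sum_le_sum fun y _ => h1 y).trans ?_
  rw [Finset.sum_add_distrib, Finset.sum_add_distrib, ← Finset.mul_sum, ← Finset.sum_div,
    badc_swap]
  change badc G ε n + ((ε + β) * Zm G + badc G ε n / β) ≤ _
  have h2 : badc G ε n / β ≤ δ * Zm G / β := by gcongr
  calc _ ≤ δ * Zm G + ((ε + β) * Zm G + δ * Zm G / β) := by gcongr
    _ = _ := by ring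

/-- For small `ε` almost all pairs are good. -/
theorem exists_eps (n : ℕ) : ∀ δ : ℝ, 0 < δ → ∃ ε : ℝ, 0 < ε ∧ ε ≤ 1 / 2 ∧
    ∀ (V : Type) [Fintype V] [DecidableEq V] (G : SimpleGraph V) [DecidableRel G.Adj],
      badc G ε n ≤ δ * Zm G := by
  classical
  induction n with
  | zero =>
    intro δ hδ
    refine ⟨1 / 2, by norm_num, le_rfl, fun V _ _ G _ => ?_⟩
    have h1 : badc G (1 / 2) 0 = 0 := by
      unfold badc
      refine Finset.sum_eq_zero fun y _ => ?_
      rw [Nat.cast_eq_zero, Finset.card_eq_zero, Finset.filter_eq_empty_iff]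
      intro x _ h
      exact h trivial
    rw [h1]
    have : 0 ≤ Zm G := Finset.sum_nonneg fun x _ => dg_nonneg x
    positivity
  | succ n ih =>
    intro δ hδ
    set β := min (δ / 4) 1 with hβ
    have hβ0 : 0 < β := by positivity
    have hβ1 : β ≤ δ / 4 := min_le_left _ _
    have hβ2 : β ≤ 1 := min_le_right _ _
    obtain ⟨ε', h1, h2, h3⟩ := ih (δ * β / 4) (by positivity)
    refine ⟨min ε' (δ / 4), by positivity, (min_le_left _ _).trans h2, fun V _ _ G _ => ?_⟩
    have h4 : badc G (min ε' (δ / 4)) n ≤ δ * β / 4 * Zm G :=
      (badc_mono (min_le_left _ _) n).trans (h3 V G)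
    have h5 := badc_succ (by positivity : (0 : ℝ) ≤ min ε' (δ / 4)) hβ0 h4
    have hZ : 0 ≤ Zm G := Finset.sum_nonneg fun x _ => dg_nonneg x
    refine h5.trans (mul_le_mul_of_nonneg_right ?_ hZ)
    have h6 : min ε' (δ / 4) ≤ δ / 4 := min_le_right _ _
    have h7 : δ * β / 4 / β = δ / 4 := by field_simp
    have h8 : δ * β / 4 ≤ δ / 4 := by nlinarith
    rw [h7]
    linarith

/-! ### The good event -/

variable (G) in
open Classical in
/-- The root has many good neighbours. -/
def RG (ε : ℝ) (N : ℕ) (x : V) : Prop :=
  ε * dg G x ≤ (((G.neighborFinset x).filter fun z => good G ε N x z).card : ℝ)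

variable (G) in
/-- The good event. -/
def Gd (ε : ℝ) (N : ℕ) (p : ℕ → ℕ) (k : ℕ) (f : ℕ → V) : Prop :=
  RG G ε N (f 0) ∧ ∀ j, 0 < j → j ≤ k → good G ε (N - j) (f (p j)) (f j) ∧
    (0 < p j → dg G (f j) ≤ dg G (f (p (p j))))

theorem Gd.dec {ε : ℝ} {N : ℕ} {p : ℕ → ℕ} {k : ℕ} {f : ℕ → V} (h : Gd G ε N p k f) :
    Dec G p k f := fun j hj h0 h1 => (h.2 j h0 hj).2 h1

open Classical in
theorem root_le {ε δ : ℝ} (hε1 : ε ≤ 1 / 2) {N : ℕ}
    (h : badc G ε N ≤ δ * Zm G) :
    (1 - 2 * δ) * Zm G ≤ ∑ x, dg G x * (if RG G ε N x then 1 else 0) := by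
  have h1 : ∀ x, dg G x ≤ dg G x * (if RG G ε N x then 1 else 0) +
      2 * (((G.neighborFinset x).filter fun z => ¬ good G ε N x z).card : ℝ) := by
    intro x
    have hx := dg_nonneg (G := G) x
    split_ifs with h2
    · have : (0 : ℝ) ≤ (((G.neighborFinset x).filter fun z => ¬ good G ε N x z).card : ℝ) :=
        Nat.cast_nonneg _
      linarith
    · unfold RG at h2
      rw [not_le] at h2
      have h3 : (((G.neighborFinset x).filter fun z => good G ε N x z).card : ℝ) +
          (((G.neighborFinset x).filter fun z => ¬ good G ε N x z).card : ℝ) = dg G x := by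
        unfold dg
        rw [← SimpleGraph.card_neighborFinset_eq_degree]
        norm_cast
        exact Finset.card_filter_add_card_filter_not _
      nlinarith
  have h2 := Finset.sum_le_sum fun x (_ : x ∈ (univ : Finset V)) => h1 x
  rw [Finset.sum_add_distrib, ← Finset.mul_sum, badc_swap] at h2
  change Zm G ≤ _ at h2
  linarith

open Classical in
/-- The weight of the good event. -/
theorem le_W_good {ε : ℝ} (hε : 0 ≤ ε) (hd : ∀ x, 0 < dg G x) {p : ℕ → ℕ}
    (hp : ∀ j, p (j + 1) ≤ j) {N : ℕ} (k : ℕ) (hk : k ≤ N) :
    ε ^ k * ∑ x, dg G x * (if RG G ε N x then 1 else 0) ≤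
      W G p k (fun f => if Gd G ε N p k f then 1 else 0) := by
  induction k with
  | zero =>
    rw [pow_zero, one_mul]
    simp only [W]
    refine le_of_eq (Finset.sum_congr rfl fun x _ => ?_)
    congr 1
    refine if_congr ⟨fun h => ⟨h, fun j h1 h2 => by omega⟩, fun h => h.1⟩ rfl rfl
  | succ k ih =>
    have hpk := hp k
    have h1 : W G p k (fun f => ε * (if Gd G ε N p k f then 1 else 0)) ≤
        W G p (k + 1) (fun f => if Gd G ε N p (k + 1) f then 1 else 0) := by
      simp only [W]
      refine W_mono k fun f => ?_
      by_cases hG : Gd G ε N p k f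
      · rw [if_pos hG, mul_one]
        set q := p (k + 1) with hq
        have hdq := hd (f q)
        -- the good extensions
        set T := (G.neighborFinset (f q)).filter fun z =>
          good G ε (N - (k + 1)) (f q) z ∧ (0 < q → dg G z ≤ dg G (f (p q))) with hT
        have hcard : ε * dg G (f q) ≤ (T.card : ℝ) := by
          rcases Nat.eq_zero_or_pos q with h0 | h0
          · have h2 := hG.1
            unfold RG at h2
            rw [← h0] at h2
            refine h2.trans ?_
            norm_cast
            refine Finset.card_le_card (Finset.monotone_filter_right _ fun z _ hz => ?_)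
            exact ⟨good_anti (by omega) hz, fun h => absurd h (by omega)⟩
          · have h2 := (hG.2 q h0 hpk).1
            have h3 : good G ε ((N - (k + 1)) + 1) (f (p q)) (f q) :=
              good_anti (by omega) h2
            rw [good_succ] at h3
            refine h3.2.trans ?_
            norm_cast
            exact Finset.card_le_card (Finset.monotone_filter_right _ fun z _ hz =>
              ⟨hz.2, fun _ => hz.1⟩)
        have h2 : ∑ z ∈ T, 1 / dg G (f q) ≤
            ∑ z, (if G.Adj (f q) z then 1 / dg G (f q) else 0) *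
              (if Gd G ε N p (k + 1) (Function.update f (k + 1) z) then 1 else 0) := by
          have h3 : ∑ z ∈ T, 1 / dg G (f q) = ∑ z ∈ T,
              (if G.Adj (f q) z then 1 / dg G (f q) else 0) *
              (if Gd G ε N p (k + 1) (Function.update f (k + 1) z) then 1 else 0) := by
            refine Finset.sum_congr rfl fun z hz => ?_
            rw [hT, Finset.mem_filter, SimpleGraph.mem_neighborFinset] at hz
            rw [if_pos hz.1, if_pos, mul_one]
            refine ⟨?_, fun j hj0 hj => ?_⟩
            · rw [Function.update_of_ne (by omega)]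
              exact hG.1
            · rcases Nat.lt_or_ge k j with h4 | h4
              · obtain rfl : j = k + 1 := by omega
                rw [Function.update_self, ← hq, Function.update_of_ne (show q ≠ k + 1 by omega)]
                refine ⟨hz.2.1, fun h5 => ?_⟩
                obtain ⟨q', hq'⟩ : ∃ q', q = q' + 1 := ⟨q - 1, by omega⟩
                have h6 := hp q'
                rw [Function.update_of_ne (by rw [hq']; omega)]
                exact hz.2.2 h5
              · obtain ⟨j', rfl⟩ : ∃ j', j = j' + 1 := ⟨j - 1, by omega⟩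
                have h5 := hp j'
                rw [Function.update_of_ne (show j' + 1 ≠ k + 1 by omega),
                  Function.update_of_ne (show p (j' + 1) ≠ k + 1 by omega)]
                refine ⟨(hG.2 (j' + 1) hj0 h4).1, fun h6 => ?_⟩
                obtain ⟨q', hq'⟩ : ∃ q', p (j' + 1) = q' + 1 := ⟨p (j' + 1) - 1, by omega⟩
                have h7 := hp q'
                rw [Function.update_of_ne (by rw [hq']; omega)]
                exact (hG.2 (j' + 1) hj0 h4).2 h6
          rw [h3]
          refine Finset.sum_le_sum_of_subset_of_nonneg (Finset.subset_univ _) fun z _ _ => ?_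
          refine mul_nonneg (ext_nonneg _ _) ?_
          split_ifs <;> norm_num
        refine le_trans ?_ h2
        rw [Finset.sum_const, nsmul_eq_mul, mul_one_div, le_div_iff₀ hdq]
        exact hcard
      · rw [if_neg hG, mul_zero]
        refine Finset.sum_nonneg fun z _ => mul_nonneg (ext_nonneg _ _) ?_
        split_ifs <;> norm_num
    rw [W_smul] at h1
    have h2 := ih (by omega)
    calc ε ^ (k + 1) * ∑ x, dg G x * (if RG G ε N x then 1 else 0) =
        ε * (ε ^ k * ∑ x, dg G x * (if RG G ε N x then 1 else 0)) := by ring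
      _ ≤ _ := by gcongr
      _ ≤ _ := h1

end Pool.Agent.H697.IR
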