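import Pool.Agent.H697.IR.RegDefs

/-!
# Games with a bounded number of parallel edges: definitions
-/

namespace Pool.Agent.H697.IR

open Pool.Agent.H697.CL (clus)
open Pool.Agent.H697.UG (Game cgraph)

/-- At most `M` edges join the same two vertices. -/
def Mult (M : ℕ) (J : Game) : Prop := ∀ p : ℕ × ℕ, (J.map Prod.fst).count p ≤ M

/-- There are at most `M` parallel edges, and the clustering coefficient is at least `γ` for one of
the two choices of the left side. -/
def SideClusteredM (M : ℕ) (γ : ℝ) (J : Game) : Prop :=
  Mult M J ∧ (γ ≤ clus J ∨ γ ≤ clus (mirror J))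

/-- The games with at most `M` parallel edges whose constraint graph has no induced subgraph
`H i`. -/
def NoIndM {ι : Type} {V : ι → Type} (H : ∀ i, SimpleGraph (V i)) (M : ℕ) (J : Game) : Prop :=
  Mult M J ∧ ∀ i, IsEmpty (H i ↪g cgraph J)

end Pool.Agent.H697.IR
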