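import Pool.Agent.H697.IR.RelEasy
import Pool.Agent.H697.IR.MultDefs

/-!
# Games with a bounded number of parallel edges
-/

namespace Pool.Agent.H697.IR

open Finset Pool.Agent.NPC
open Pool.Agent.H697.CL (clus)
open Pool.Agent.H697.UG (Game Edge Simple edges mem_edges card_edges cgraph)

/-- Keep one edge of every bundle of parallel edges. -/
def keep (J : Game) : Game :=
  J.foldr (fun e acc => if acc.any (fun f => decide (f.1 = e.1)) = true then acc else e :: acc) []

theorem keep_cons (e : Edge) (l : Game) : keep (e :: l) =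
    if (keep l).any (fun f => decide (f.1 = e.1)) = true then keep l else e :: keep l := rfl

theorem keep_sublist (J : Game) : (keep J).Sublist J := by
  induction J with
  | nil => exact List.Sublist.refl _
  | cons e l ih =>
    rw [keep_cons]
    split_ifs
    · exact ih.cons e
    · exact ih.cons_cons e

theorem poly_keep : Poly keep := by
  unfold keep
  refine Poly.foldr (l := fun J : Game => J) (s := fun _ : Game => ([] : Game))
    (F := fun (_ : Game) (e : Edge) (acc : Game) =>
      if acc.any (fun f => decide (f.1 = e.1)) = true then acc else e :: acc) Poly.id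
    (NPC.Poly.const _) ?_ Polynomial.X fun J k _ => ?_
  · have i : Poly (fun p : Game × Edge × Game => p) := Poly.id
    refine Poly.ite (p := fun p : Game × Edge × Game =>
      p.2.2.any (fun f => decide (f.1 = p.2.1.1)) = true) ?_ (Poly.snd (Poly.snd i))
      (Poly.cons (Poly.fst (Poly.snd i)) (Poly.snd (Poly.snd i)))
    refine Poly.decide_bool (b := fun p : Game × Edge × Game =>
      p.2.2.any (fun f => decide (f.1 = p.2.1.1))) ?_
    refine Poly.any (p := fun (p : Game × Edge × Game) (f : Edge) => decide (f.1 = p.2.1.1))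
      (Poly.snd (Poly.snd i)) ?_
    have j : Poly (fun p : (Game × Edge × Game) × Edge => p) := Poly.id
    exact Poly.decide_eq (Poly.fst (Poly.snd j)) (Poly.fst (Poly.fst (Poly.snd (Poly.fst j))))
  · rw [Polynomial.eval_X]
    exact (UG.sz_sublist (keep_sublist (J.drop k))).trans (UG.sz_sublist (List.drop_sublist k J))

theorem mem_keep (J : Game) (p : ℕ × ℕ) : (∃ e ∈ keep J, e.1 = p) ↔ ∃ e ∈ J, e.1 = p := by
  induction J with
  | nil => exact Iff.rfl
  | cons e l ih =>
    rw [keep_cons]
    split_ifs with h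
    · rw [ih]
      constructor
      · rintro ⟨f, hf, h1⟩
        exact ⟨f, List.mem_cons_of_mem _ hf, h1⟩
      · rintro ⟨f, hf, h1⟩
        rcases List.mem_cons.1 hf with rfl | hf
        · rw [List.any_eq_true] at h
          obtain ⟨f', hf', h2⟩ := h
          rw [decide_eq_true_eq] at h2
          exact ih.1 ⟨f', hf', h2.trans h1⟩
        · exact ⟨f, hf, h1⟩
    · constructor
      · rintro ⟨f, hf, h1⟩
        rcases List.mem_cons.1 hf with rfl | hf
        · exact ⟨f, List.mem_cons_self, h1⟩
        · obtain ⟨f', hf', h2⟩ := ih.1 ⟨f, hf, h1⟩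
          exact ⟨f', List.mem_cons_of_mem _ hf', h2⟩
      · rintro ⟨f, hf, h1⟩
        rcases List.mem_cons.1 hf with rfl | hf
        · exact ⟨f, List.mem_cons_self, h1⟩
        · obtain ⟨f', hf', h2⟩ := ih.2 ⟨f, hf, h1⟩
          exact ⟨f', List.mem_cons_of_mem _ hf', h2⟩

theorem edges_keep (J : Game) : edges (keep J) = edges J := by
  ext p
  rw [mem_edges, mem_edges]
  exact mem_keep J p

theorem simple_keep (J : Game) : Simple (keep J) := by
  unfold Simple
  induction J with
  | nil => exact List.nodup_nil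
  | cons e l ih =>
    rw [keep_cons]
    split_ifs with h
    · exact ih
    · rw [List.map_cons, List.nodup_cons]
      refine ⟨fun h1 => h ?_, ih⟩
      obtain ⟨f, hf, h2⟩ := List.mem_map.1 h1
      rw [List.any_eq_true]
      exact ⟨f, hf, by rw [decide_eq_true_eq]; exact h2⟩

theorem cgraph_keep (J : Game) : cgraph (keep J) = cgraph J := by
  unfold cgraph
  congr 1
  ext p
  have := mem_keep J p
  simp only [Set.mem_setOf_eq, List.mem_map]
  exact this

theorem length_keep {J : Game} {M : ℕ} (hM : Mult M J) : J.length ≤ M * (keep J).length := by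
  classical
  rw [← card_edges (simple_keep J), edges_keep, ← List.length_map (f := Prod.fst) (as := J),
    ← List.sum_toFinset_count_eq_length]
  refine (sum_le_card_nsmul _ _ M fun p _ => ?_).trans ?_
  · have h1 := hM p
    have h2 : (instBEqProd : BEq (ℕ × ℕ)) = instBEqOfDecidableEq := lawful_beq_subsingleton _ _
    rw [h2] at h1
    exact h1
  · rw [smul_eq_mul, mul_comm]
    exact le_rfl

theorem keep_ne_nil {J : Game} (h : J ≠ []) : keep J ≠ [] := by
  intro h0
  obtain ⟨e, he⟩ := List.exists_mem_of_ne_nil J h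
  obtain ⟨f, hf, -⟩ := (mem_keep J e.1).2 ⟨e, he, rfl⟩
  rw [h0] at hf
  exact List.not_mem_nil hf

theorem sideClustered_keep {J : Game} {γ : ℝ} (h : γ ≤ clus J ∨ γ ≤ clus (mirror J)) :
    SideClustered γ (keep J) := by
  refine ⟨simple_keep J, ?_⟩
  rw [clus_congr (edges_keep J), clus_congr (show edges (mirror (keep J)) = edges (mirror J) by
    rw [edges_mirror, edges_mirror, edges_keep])]
  exact h

/-- Counting in a sublist. -/
theorem count_sub {J J' : Game} (h : J'.Sublist J) (P : Edge → Bool) :
    (J'.filter P).length ≤ (J.filter P).length ∧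
      J'.length - (J'.filter P).length ≤ J.length - (J.filter P).length := by
  have h1 : ∀ l : Game, l.length = (l.filter P).length + (l.filter fun e => !P e).length :=
    fun l => List.length_eq_length_filter_add P
  have h2 := (h.filter P).length_le
  have h3 := (h.filter fun e => !P e).length_le
  refine ⟨h2, ?_⟩
  have h4 := h1 J
  have h5 := h1 J'
  omega

section
variable {J : Game} {M : ℕ} (hM : Mult M J)

include hM in
/-- The values of the game with one edge of every bundle. -/
theorem value_keep (hne : J ≠ []) (P : Edge → Bool) {ε δ : ℝ} :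
    ((1 - ε) * J.length ≤ (J.filter P).length →
      (1 - M * ε) * (keep J).length ≤ ((keep J).filter P).length) ∧
    (((J.filter P).length : ℝ) ≤ δ * J.length →
      (((keep J).filter P).length : ℝ) ≤ M * δ * (keep J).length) := by
  obtain ⟨h1, h2⟩ := count_sub (keep_sublist J) P
  have h3 : (J.length : ℝ) ≤ M * (keep J).length := by exact_mod_cast length_keep hM
  have h4 : (0 : ℝ) < J.length := by exact_mod_cast List.length_pos_iff.2 hne
  have h5 := List.length_filter_le P J
  have h6 := List.length_filter_le P (keep J)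
  have h1' : (((keep J).filter P).length : ℝ) ≤ (J.filter P).length := by exact_mod_cast h1
  have h5' : ((J.filter P).length : ℝ) ≤ J.length := by exact_mod_cast h5
  have h2' : ((keep J).length : ℝ) - ((keep J).filter P).length ≤
      J.length - (J.filter P).length := by
    have : (keep J).length + (J.filter P).length ≤ J.length + ((keep J).filter P).length := by
      omega
    have h : ((keep J).length : ℝ) + (J.filter P).length ≤
        J.length + ((keep J).filter P).length := by exact_mod_cast this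
    linarith
  constructor
  · intro h
    have hε : 0 ≤ ε := by
      by_contra hc
      push Not at hc
      nlinarith
    have h7 : ε * J.length ≤ ε * (M * (keep J).length) := mul_le_mul_of_nonneg_left h3 hε
    nlinarith
  · intro h
    have hδ : 0 ≤ δ := by
      by_contra hc
      push Not at hc
      have : (0 : ℝ) ≤ (J.filter P).length := by positivity
      nlinarith
    have h7 : δ * J.length ≤ δ * (M * (keep J).length) := mul_le_mul_of_nonneg_left h3 hδ
    nlinarith

include hM in
theorem yes_keep_UG {q : ℕ} {ε : ℝ} (h : UG.Yes q ε J) : UG.Yes q (M * ε) (keep J) := by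
  obtain ⟨hG, L, M', hLM⟩ := h
  exact ⟨⟨keep_ne_nil hG.1, fun e he => hG.2 e ((keep_sublist J).subset he)⟩, L, M',
    (value_keep hM hG.1 _ (δ := 0)).1 hLM⟩

include hM in
theorem no_keep_UG {q : ℕ} {δ : ℝ} (h : UG.No q δ J) : UG.No q (M * δ) (keep J) := by
  obtain ⟨hG, hno⟩ := h
  exact ⟨⟨keep_ne_nil hG.1, fun e he => hG.2 e ((keep_sublist J).subset he)⟩, fun L M' =>
    (value_keep hM hG.1 _ (ε := 0)).2 (hno L M')⟩

include hM in
theorem yes_keep_LC {d q₁ q₂ : ℕ} {ε : ℝ} (h : LC.Yes d q₁ q₂ ε J) :
    LC.Yes d q₁ q₂ (M * ε) (keep J) := by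
  obtain ⟨hG, L, M', hLM⟩ := h
  exact ⟨⟨keep_ne_nil hG.1, fun e he => hG.2 e ((keep_sublist J).subset he)⟩, L, M',
    (value_keep hM hG.1 _ (δ := 0)).1 hLM⟩

include hM in
theorem no_keep_LC {d q₁ q₂ : ℕ} {δ : ℝ} (h : LC.No d q₁ q₂ δ J) :
    LC.No d q₁ q₂ (M * δ) (keep J) := by
  obtain ⟨hG, hno⟩ := h
  exact ⟨⟨keep_ne_nil hG.1, fun e he => hG.2 e ((keep_sublist J).subset he)⟩, fun L M' =>
    (value_keep hM hG.1 _ (ε := 0)).2 (hno L M')⟩

end

/-- Unique games with at most `M` parallel edges which are clustered on one of the sides are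
easy. -/
theorem easy_mult_UG {q : ℕ} (hq : 0 < q) {M : ℕ} {γ ε δ : ℝ} (h : M * (2 * ε + δ) < γ) :
    UG.Easy (SideClusteredM M γ) q ε δ := by
  obtain ⟨P, hP, hsep⟩ := easy_two hq (γ := γ) (ε := M * ε) (δ := M * δ) (by linarith)
  exact ⟨fun J => P (keep J), InPP.of_poly hP poly_keep fun _ => Iff.rfl, fun J hJ =>
    ⟨fun hy => (hsep _ (sideClustered_keep hJ.2)).1 (yes_keep_UG hJ.1 hy),
      fun hn => (hsep _ (sideClustered_keep hJ.2)).2 (no_keep_UG hJ.1 hn)⟩⟩

/-- d-to-1 games with at most `M` parallel edges which are clustered on one of the sides are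
easy. -/
theorem easy_mult_LC {d : ℕ} (hd : 0 < d) {q₁ q₂ : ℕ} (hq₁ : 0 < q₁) (hq₂ : 0 < q₂) {M : ℕ}
    {γ ε δ : ℝ} (h : M * (2 * ε + d * δ) < γ) :
    LC.Easy (SideClusteredM M γ) (LC.Yes d q₁ q₂ ε) (LC.No d q₁ q₂ δ) := by
  obtain ⟨P, hP, hsep⟩ := easy_side_LC hd hq₁ hq₂ (γ := γ) (ε := M * ε) (δ := M * δ)
    (by linarith)
  exact ⟨fun J => P (keep J), InPP.of_poly hP poly_keep fun _ => Iff.rfl, fun J hJ =>
    ⟨fun hy => (hsep _ (sideClustered_keep hJ.2)).1 (yes_keep_LC hJ.1 hy),
      fun hn => (hsep _ (sideClustered_keep hJ.2)).2 (no_keep_LC hJ.1 hn)⟩⟩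

/-- Games with at most `M` parallel edges without an induced forest are clustered. -/
theorem sideClusteredM_of_noIndM {ι : Type} {V : ι → Type} [∀ i, Finite (V i)]
    (H : ∀ i, SimpleGraph (V i)) (i : ι) (hi : (H i).IsAcyclic) :
    ∃ γ : ℝ, 0 < γ ∧ ∀ (M : ℕ) (I : Game), I ≠ [] → NoIndM H M I → SideClusteredM M γ I := by
  obtain ⟨γ, h0, h⟩ := sideClustered_of_noInd H i hi
  refine ⟨γ, h0, fun M I hI hN => ⟨hN.1, ?_⟩⟩
  have h1 := (h (keep I) (keep_ne_nil hI) ⟨simple_keep I, fun i => by
    rw [cgraph_keep]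
    exact hN.2 i⟩).2
  rw [clus_congr (edges_keep I), clus_congr (show edges (mirror (keep I)) = edges (mirror I) by
    rw [edges_mirror, edges_mirror, edges_keep])] at h1
  exact h1

theorem mult_of_simple {I : Game} (h : Simple I) {M : ℕ} (hM : 0 < M) : Mult M I := fun p =>
  (List.nodup_iff_count_le_one.1 h p).trans hM

theorem noIndM_of_noInd {ι : Type} {V : ι → Type} {H : ∀ i, SimpleGraph (V i)} {I : Game}
    (h : NoInd H I) {M : ℕ} (hM : 0 < M) : NoIndM H M I := ⟨mult_of_simple h.1 hM, h.2⟩

end Pool.Agent.H697.IR
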