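import Pool.Agent.H697.IR.Mult
import Pool.Agent.H697.CL.LCDich

/-!
# d-to-1 games with a bounded number of parallel edges, clustered on the left side
-/

namespace Pool.Agent.H697.IR

open Pool.Agent.NPC
open Pool.Agent.H697.CL (clus Clustered)
open Pool.Agent.H697.UG (Game)

/-- d-to-1 games with at most `M` parallel edges which are clustered on the side of the large
alphabet are easy. -/
theorem easy_multL_LC (d : ℕ) {q₁ q₂ : ℕ} (hq₁ : 0 < q₁) (hq₂ : 0 < q₂) {M : ℕ} {γ ε δ : ℝ}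
    (h : M * (2 * ε + δ) < γ) :
    LC.Easy (fun J => Mult M J ∧ γ ≤ clus J) (LC.Yes d q₁ q₂ ε) (LC.No d q₁ q₂ δ) := by
  obtain ⟨P, hP, hsep⟩ := CL.easy_LC d hq₁ hq₂ (γ := γ) (ε := M * ε) (δ := M * δ) (by linarith)
  have hk : ∀ J : Game, γ ≤ clus J → Clustered γ (keep J) := fun J hJ => ⟨simple_keep J, by
    rw [clus_congr (edges_keep J)]
    exact hJ⟩
  exact ⟨fun J => P (keep J), InPP.of_poly hP poly_keep fun _ => Iff.rfl, fun J hJ =>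
    ⟨fun hy => (hsep _ (hk J hJ.2)).1 (yes_keep_LC hJ.1 hy),
      fun hn => (hsep _ (hk J hJ.2)).2 (no_keep_LC hJ.1 hn)⟩⟩

/-- Classes of games clustered on the side of the large alphabet. -/
theorem easy_of_multL {Cl : Game → Prop} {M : ℕ} {γ : ℝ}
    (hCl : ∀ I, I ≠ [] → Cl I → Mult M I ∧ γ ≤ clus I) (d : ℕ) {q₁ q₂ : ℕ} (hq₁ : 0 < q₁)
    (hq₂ : 0 < q₂) {ε δ : ℝ} (h : M * (2 * ε + δ) < γ) :
    LC.Easy Cl (LC.Yes d q₁ q₂ ε) (LC.No d q₁ q₂ δ) := by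
  obtain ⟨P, hP, hsep⟩ := easy_multL_LC d hq₁ hq₂ h
  exact ⟨P, hP, fun I hI => ⟨fun hy => (hsep I (hCl I hy.1.1 hI)).1 hy,
    fun hn => (hsep I (hCl I hn.1.1 hI)).2 hn⟩⟩

/-- Classes of games clustered on one of the sides. -/
theorem easy_of_multS {Cl : Game → Prop} {M : ℕ} {γ : ℝ}
    (hCl : ∀ I, I ≠ [] → Cl I → SideClusteredM M γ I) {d : ℕ} (hd : 0 < d) {q₁ q₂ : ℕ}
    (hq₁ : 0 < q₁) (hq₂ : 0 < q₂) {ε δ : ℝ} (h : M * (2 * ε + d * δ) < γ) :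
    LC.Easy Cl (LC.Yes d q₁ q₂ ε) (LC.No d q₁ q₂ δ) := by
  obtain ⟨P, hP, hsep⟩ := easy_mult_LC hd hq₁ hq₂ h
  exact ⟨P, hP, fun I hI => ⟨fun hy => (hsep I (hCl I hy.1.1 hI)).1 hy,
    fun hn => (hsep I (hCl I hn.1.1 hI)).2 hn⟩⟩

end Pool.Agent.H697.IR
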