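import Pool.Agent.H697.IR.Defs

/-!
# Regular games without induced subgraphs: definitions
-/

namespace Pool.Agent.H697.IR

open Pool.Agent.H697.UG (Game degL degR)

/-- All vertices of the constraint graph (the ends of the edges) have degree `D`. -/
def Reg (D : ℕ) (I : Game) : Prop :=
  (∀ u, 0 < degL I u → degL I u = D) ∧ ∀ v, 0 < degR I v → degR I v = D

/-- The simple games whose constraint graph is `D`-regular and has no induced subgraph `H i`. -/
def RegInd {ι : Type} {V : ι → Type} (H : ∀ i, SimpleGraph (V i)) (D : ℕ) (I : Game) : Prop :=
  NoInd H I ∧ Reg D I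

end Pool.Agent.H697.IR
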