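import Pool.Agent.H697.CL.LCDich
import Pool.Agent.H697.IR.RegDefs

/-!
# Hardness for regular games
-/

namespace Pool.Agent.H697.IR

open Finset Pool.Agent.NPC Pool.Agent.H697.LF Pool.Agent.H697.Exp Pool.Agent.H697.Forest
open Pool.Agent.H697.UG (Game Edge Simple edges mem_edges cgraph degL degR isEmpty_of_girth
  card_edges_filter)
open Pool.Agent.H697.CL (nb nR mem_nb mem_nR card_nb card_nR degL_eq prs prs_eq)

theorem girth_cgraph {J : Game} {g : ℕ} (hG : GirthGT (graphOf J) g) : GirthGT (cgraph J) g := by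
  classical
  intro a p hp
  have ha : a ∈ (cgraph J).support := by
    cases p with
    | nil => exact absurd rfl hp.ne_nil
    | cons h q => exact ⟨_, h⟩
  let φ : cgraph J →g graphOf J :=
    ⟨fun x => if h : x ∈ (cgraph J).support then ⟨x, h⟩ else ⟨a, ha⟩, by
      intro x y hxy
      have hx : x ∈ (cgraph J).support := ⟨y, hxy⟩
      have hy : y ∈ (cgraph J).support := ⟨x, hxy.symm⟩
      rw [dif_pos hx, dif_pos hy]
      exact hxy⟩
  refine girthGT_of_hom φ (fun x y z hxy hxz h => ?_) hG a p hp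
  have hy : y ∈ (cgraph J).support := ⟨x, hxy.symm⟩
  have hz : z ∈ (cgraph J).support := ⟨x, hxz.symm⟩
  have h1 : (if h : y ∈ (cgraph J).support then (⟨y, h⟩ : (cgraph J).support) else ⟨a, ha⟩) =
      if h : z ∈ (cgraph J).support then ⟨z, h⟩ else ⟨a, ha⟩ := h
  rw [dif_pos hy, dif_pos hz] at h1
  exact congrArg Subtype.val h1

theorem degR_eq {J : Game} (hS : Simple J) (v : ℕ) : degR J v = (nb (edges J) v).card := by
  rw [card_nb]
  exact card_edges_filter hS _ _ (by simp)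

theorem nm_injOn_inl (J : Game) : Set.InjOn (fun b : (cgraph J).support => LF.nm b.1)
    {b | b.1.isLeft = true} := by
  rintro ⟨a | a, ha⟩ h1 ⟨b | b, hb⟩ h2 h
  · have : a = b := h
    subst this
    rfl
  · simp at h2
  · simp at h1
  · simp at h1

theorem nm_injOn_inr (J : Game) : Set.InjOn (fun b : (cgraph J).support => LF.nm b.1)
    {b | b.1.isRight = true} := by
  rintro ⟨a | a, ha⟩ h1 ⟨b | b, hb⟩ h2 h
  · simp at h1
  · simp at h1
  · simp at h2
  · have : a = b := h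
    subst this
    rfl

theorem ncard_left {J : Game} (hS : Simple J) (u : ℕ) (h : Sum.inl u ∈ (cgraph J).support) :
    ((graphOf J).neighborSet ⟨Sum.inl u, h⟩).ncard = degL J u := by
  rw [degL_eq hS, ← Set.ncard_coe_finset,
    ← Set.ncard_image_of_injOn (f := fun b : (cgraph J).support => LF.nm b.1)
      (s := (graphOf J).neighborSet ⟨Sum.inl u, h⟩)]
  · congr 1
    ext v
    rw [Set.mem_image, mem_coe, mem_nR]
    constructor
    · rintro ⟨⟨b | b, hb⟩, h1, h2⟩
      · exact absurd (show (cgraph J).Adj (Sum.inl u) (Sum.inl b) from h1) (fun h => h.elim)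
      · have h3 : (cgraph J).Adj (Sum.inl u) (Sum.inr b) := h1
        have h4 : b = v := h2
        rw [← h4]
        obtain ⟨e, he, hee⟩ := List.mem_map.1 (cadj_lr.1 h3)
        exact mem_edges.2 ⟨e, he, hee⟩
    · intro h1
      obtain ⟨e, he, hee⟩ := mem_edges.1 h1
      have h3 : (cgraph J).Adj (Sum.inl u) (Sum.inr v) :=
        cadj_lr.2 (List.mem_map.2 ⟨e, he, hee⟩)
      exact ⟨⟨Sum.inr v, (SimpleGraph.mem_support _).2 ⟨_, h3.symm⟩⟩, h3, rfl⟩
  · refine (nm_injOn_inr J).mono ?_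
    rintro ⟨b | b, hb⟩ h1
    · exact absurd (show (cgraph J).Adj (Sum.inl u) (Sum.inl b) from h1) (fun h => h.elim)
    · rfl

theorem ncard_right {J : Game} (hS : Simple J) (v : ℕ) (h : Sum.inr v ∈ (cgraph J).support) :
    ((graphOf J).neighborSet ⟨Sum.inr v, h⟩).ncard = degR J v := by
  rw [degR_eq hS, ← Set.ncard_coe_finset,
    ← Set.ncard_image_of_injOn (f := fun b : (cgraph J).support => LF.nm b.1)
      (s := (graphOf J).neighborSet ⟨Sum.inr v, h⟩)]
  · congr 1
    ext u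
    rw [Set.mem_image, mem_coe, mem_nb]
    constructor
    · rintro ⟨⟨b | b, hb⟩, h1, h2⟩
      · have h3 : (cgraph J).Adj (Sum.inr v) (Sum.inl b) := h1
        have h4 : b = u := h2
        rw [← h4]
        obtain ⟨e, he, hee⟩ := List.mem_map.1 (cadj_rl.1 h3)
        exact mem_edges.2 ⟨e, he, hee⟩
      · exact absurd (show (cgraph J).Adj (Sum.inr v) (Sum.inr b) from h1) (fun h => h.elim)
    · intro h1
      obtain ⟨e, he, hee⟩ := mem_edges.1 h1
      have h3 : (cgraph J).Adj (Sum.inr v) (Sum.inl u) :=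
        cadj_rl.2 (List.mem_map.2 ⟨e, he, hee⟩)
      exact ⟨⟨Sum.inl u, (SimpleGraph.mem_support _).2 ⟨_, h3.symm⟩⟩, h3, rfl⟩
  · refine (nm_injOn_inl J).mono ?_
    rintro ⟨b | b, hb⟩ h1
    · rfl
    · exact absurd (show (cgraph J).Adj (Sum.inr v) (Sum.inr b) from h1) (fun h => h.elim)

theorem ncard_top {k : ℕ} (x : Fin (k + 1)) :
    ((⊤ : SimpleGraph (Fin (k + 1))).neighborSet x).ncard = k := by
  classical
  have h1 : (⊤ : SimpleGraph (Fin (k + 1))).neighborSet x =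
      ((univ.erase x : Finset (Fin (k + 1))) : Set (Fin (k + 1))) := by
    ext y
    rw [SimpleGraph.mem_neighborSet, SimpleGraph.top_adj, mem_coe, mem_erase]
    exact ⟨fun h => ⟨h.symm, mem_univ _⟩, fun h => h.1.symm⟩
  rw [h1, Set.ncard_coe_finset, card_erase_of_mem (mem_univ _), card_univ, Fintype.card_fin]
  omega

theorem reg_of_lift {J : Game} (hS : Simple J) {n k : ℕ}
    (h : IsLift n (graphOf J) (⊤ : SimpleGraph (Fin (k + 1)))) : Reg k J := by
  obtain ⟨φ, h1, -⟩ := h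
  have h2 : ∀ w, ((graphOf J).neighborSet w).ncard = k := by
    intro w
    rw [← ncard_top (φ w), ← (h1 w).image_eq, Set.ncard_image_of_injOn (h1 w).injOn]
  constructor
  · intro u hu
    have h3 : Sum.inl u ∈ (cgraph J).support := by
      rw [degL_eq hS] at hu
      obtain ⟨v, hv⟩ := card_pos.1 hu
      obtain ⟨e, he, hee⟩ := mem_edges.1 (mem_nR.1 hv)
      exact ⟨Sum.inr v, cadj_lr.2 (List.mem_map.2 ⟨e, he, hee⟩)⟩
    rw [← ncard_left hS u h3]
    exact h2 _
  · intro v hv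
    have h3 : Sum.inr v ∈ (cgraph J).support := by
      rw [degR_eq hS] at hv
      obtain ⟨u, hu⟩ := card_pos.1 hv
      obtain ⟨e, he, hee⟩ := mem_edges.1 (mem_nb.1 hu)
      exact ⟨Sum.inl u, cadj_rl.2 (List.mem_map.2 ⟨e, he, hee⟩)⟩
    rw [← ncard_right hS v h3]
    exact h2 _

theorem top_dense (D : ℕ) : D * Nat.card (Fin (2 * D + 1 + 1)) <
    (⊤ : SimpleGraph (Fin (2 * D + 1 + 1))).edgeSet.ncard := by
  classical
  have h4 := prs_eq (⊤ : SimpleGraph (Fin (2 * D + 1 + 1)))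
  have h5 : prs (⊤ : SimpleGraph (Fin (2 * D + 1 + 1))) univ = (2 * D + 2) * (2 * D + 1) := by
    unfold prs
    rw [card_filter, sum_product]
    have h6 : ∀ a : Fin (2 * D + 1 + 1), ∑ b : Fin (2 * D + 1 + 1),
        (if (⊤ : SimpleGraph (Fin (2 * D + 1 + 1))).Adj a b then 1 else 0) = 2 * D + 1 := by
      intro a
      rw [← card_filter]
      have h7 : (univ.filter fun b => (⊤ : SimpleGraph (Fin (2 * D + 1 + 1))).Adj a b) =
          univ.erase a := by
        ext b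
        simp only [mem_filter, mem_univ, true_and, SimpleGraph.top_adj, mem_erase, and_true]
        exact ne_comm
      rw [h7, card_erase_of_mem (mem_univ _), card_univ, Fintype.card_fin]
      omega
    rw [sum_congr rfl fun a _ => h6 a, sum_const, card_univ, Fintype.card_fin, smul_eq_mul]
  rw [Nat.card_eq_fintype_card, Fintype.card_fin]
  nlinarith

theorem top_adj_exists (k : ℕ) (a : Fin (2 * k + 1 + 1)) :
    ∃ b, (⊤ : SimpleGraph (Fin (2 * k + 1 + 1))).Adj a b := by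
  obtain ⟨b, hb⟩ := exists_ne a
  exact ⟨b, hb.symm⟩

/-- Games of large girth have no induced subgraph with a short cycle. -/
theorem exists_girth {ι : Type} [Finite ι] {V : ι → Type} (H : ∀ i, SimpleGraph (V i))
    (hH : ∀ i, ¬ (H i).IsAcyclic) : ∃ g, ∀ J : Game, Simple J → GirthGT (graphOf J) g →
      NoInd H J := by
  have hcyc : ∀ i, ∃ (a : V i) (p : (H i).Walk a a), p.IsCycle := by
    intro i
    have := hH i
    unfold SimpleGraph.IsAcyclic at this
    push Not at this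
    exact this
  choose a p hp using hcyc
  have := Fintype.ofFinite ι
  refine ⟨∑ i, (p i).length, fun J hS hJ => ⟨hS, fun i => isEmpty_of_girth (hp i) ?_
    (girth_cgraph hJ)⟩⟩
  exact single_le_sum (f := fun i => (p i).length) (fun _ _ => Nat.zero_le _) (mem_univ i)

/-- The reduction to regular games. -/
theorem regular_UG {q : ℕ} (hq : 0 < q) {δ δ' : ℝ} (h : δ < δ') : ∃ D : ℕ,
    ∀ {ι : Type} [Finite ι] (V : ι → Type) (H : ∀ i, SimpleGraph (V i)),
      (∀ i, ¬ (H i).IsAcyclic) → ∀ ε : ℝ,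
        (UG.Hard (fun _ => True) q ε δ → UG.Hard (RegInd H D) q ε δ') ∧
        (UG.Easy (RegInd H D) q ε δ' → UG.Easy (fun _ => True) q ε δ) := by
  obtain ⟨d, hd⟩ := lifts_of_one hq h
  refine ⟨2 * d + 1, fun {ι} _ V H hH ε => ?_⟩
  obtain ⟨g, hg⟩ := exists_girth H hH
  obtain ⟨h1, h2⟩ := hd (Fin (2 * d + 1 + 1)) (⊤ : SimpleGraph (Fin (2 * d + 1 + 1))) g
    (top_adj_exists d) (top_dense d) ε
  have hsub : ∀ J, OnLifts g (⊤ : SimpleGraph (Fin (2 * d + 1 + 1))) J →
      RegInd H (2 * d + 1) J := by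
    rintro J ⟨hS, hG, n, -, hl⟩
    exact ⟨hg J hS hG, reg_of_lift hS hl⟩
  refine ⟨fun hh => (h1 hh).mono hsub le_rfl le_rfl, fun hh => h2 ?_⟩
  obtain ⟨P, hP, hsep⟩ := hh
  exact ⟨P, hP, fun I hI => hsep I (hsub I hI)⟩

open Pool.Agent.H697.LC Pool.Agent.H697.CL in
/-- The reduction to regular d-to-1 games, with perfect completeness. -/
theorem regular_LC (d : ℕ) {q₁ q₂ : ℕ} (hq₁ : 0 < q₁) (hq₂ : 0 < q₂) {δ δ' : ℝ} (h : δ < δ') :
    ∃ D : ℕ, ∀ {ι : Type} [Finite ι] (V : ι → Type) (H : ∀ i, SimpleGraph (V i)),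
      (∀ i, ¬ (H i).IsAcyclic) →
        (Hard (fun _ => True) (Yes d q₁ q₂ 0) (No d q₁ q₂ δ) →
          Hard (RegInd H D) (Yes d q₁ q₂ 0) (No d q₁ q₂ δ')) ∧
        (Easy (RegInd H D) (Yes d q₁ q₂ 0) (No d q₁ q₂ δ') →
          Easy (fun _ => True) (Yes d q₁ q₂ 0) (No d q₁ q₂ δ)) := by
  obtain ⟨D, hD⟩ := exists_reduction_LC_lift d hq₁ hq₂ (le_refl (0 : ℝ)) one_pos h
  refine ⟨2 * D + 1, fun {ι} _ V H hH => ?_⟩
  obtain ⟨g, hg⟩ := exists_girth H hH
  obtain ⟨F, hF, hL, _, hY, _, hN⟩ := hD (Fin (2 * D + 1 + 1))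
    (⊤ : SimpleGraph (Fin (2 * D + 1 + 1))) g (top_adj_exists D) (top_dense D)
  have hCl : ∀ I, IsGame d q₁ q₂ I → True → RegInd H (2 * D + 1) (F I) := by
    intro I hI _
    obtain ⟨hS, hgi, n, hn, hl⟩ := hL I hI
    exact ⟨hg _ hS hgi, reg_of_lift hS hl⟩
  exact ⟨fun hh => LC_hard_of_reduction (IsGame d q₁ q₂) hh hF (fun _ h => h.1) (fun _ h => h.1)
    hCl hY hN, fun hh => LC_easy_of_reduction (IsGame d q₁ q₂) hh hF (fun _ h => h.1)
    (fun _ h => h.1) hCl hY hN⟩

end Pool.Agent.H697.IR
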