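import Pool.Agent.H697.CL.Alg

/-!
# The algorithm for clustered games, for relations
-/

namespace Pool.Agent.H697.IR

open Pool.Agent.NPC
open Pool.Agent.H697.UG (Game Edge degL degR hasE)
open Pool.Agent.H697.CL (pw best poly_lsum poly_best poly_pw)

/-- The edge `e = (u, v)` with the label `x` of `u` agrees with the edge `(z, v)` with the label `a`
of `z`: some label `t < n` of `v` is mapped to `x` by the first and to `a` by the second edge. -/
def agM (n : ℕ) (J : Game) (z a x : ℕ) (e : Edge) : Bool :=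
  J.any fun f => decide (f.1 = (z, e.1.2)) && (List.range n).any fun t =>
    decide (e.2[t]? = some x) && decide (f.2[t]? = some a)

/-- The score of the label `x` of `u` for the label `a` of the leader `z`. -/
def innM (n Q : ℕ) (J : Game) (z a u x : ℕ) : ℕ :=
  ((J.filter fun e => decide (e.1.1 = u) && agM n J z a x e).map fun e => pw Q J z u e.1.2).sum

/-- The score of the label `a` of the leader `z`. -/
def midM (n q Q : ℕ) (J : Game) (z a : ℕ) : ℕ :=
  (J.map fun e => best (fun x => innM n Q J z a e.1.1 x) q).sum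

/-- The score of the game. -/
def totalM (n q Q : ℕ) (J : Game) : ℕ :=
  (J.map fun e => best (fun a => midM n q Q J e.1.1 a) q).sum

/-- The answer of the algorithm. -/
def accM (n q A B C : ℕ) (J : Game) : Bool :=
  decide (B * (C * J.length ^ 3) * J.length ≤ A * totalM n q (C * J.length ^ 3) J)

section
variable {α : Type} [TEnc α]

theorem poly_agM (n : ℕ) {J : α → Game} {z a x : α → ℕ} {e : α → Edge} (hJ : Poly J)
    (hz : Poly z) (ha : Poly a) (hx : Poly x) (he : Poly e) :
    Poly (fun s => agM n (J s) (z s) (a s) (x s) (e s)) := by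
  unfold agM
  refine Poly.any (p := fun s (f : Edge) => decide (f.1 = (z s, (e s).1.2)) &&
    (List.range n).any fun t => decide ((e s).2[t]? = some (x s)) &&
      decide (f.2[t]? = some (a s))) hJ ?_
  have he' : Poly (fun p : α × Edge => e p.1) := he.comp (Poly.fst Poly.id)
  have h2 : Poly (fun p : α × Edge => p.2) := Poly.snd Poly.id
  refine Poly.and (Poly.decide_eq (Poly.fst h2)
    (Poly.pair (hz.comp (Poly.fst Poly.id)) (Poly.snd (Poly.fst he')))) ?_
  refine Poly.any (p := fun (p : α × Edge) (t : ℕ) => decide ((e p.1).2[t]? = some (x p.1)) &&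
      decide (p.2.2[t]? = some (a p.1))) (NPC.Poly.const _) ?_
  have i : Poly (fun p : (α × Edge) × ℕ => p) := Poly.id
  exact Poly.and
    (Poly.decide_eq (Poly.getElem? (Poly.snd (he.comp (Poly.fst (Poly.fst i)))) (Poly.snd i))
      (Poly.some (hx.comp (Poly.fst (Poly.fst i)))))
    (Poly.decide_eq (Poly.getElem? (Poly.snd (Poly.snd (Poly.fst i))) (Poly.snd i))
      (Poly.some (ha.comp (Poly.fst (Poly.fst i)))))

theorem poly_innM (n : ℕ) {Q : α → ℕ} {J : α → Game} {z a u x : α → ℕ} (hQ : Poly Q)
    (hJ : Poly J) (hz : Poly z) (ha : Poly a) (hu : Poly u) (hx : Poly x) :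
    Poly (fun s => innM n (Q s) (J s) (z s) (a s) (u s) (x s)) := by
  unfold innM
  have i : Poly (fun p : α × Edge => p) := Poly.id
  refine poly_lsum (F := fun s (e : Edge) => pw (Q s) (J s) (z s) (u s) e.1.2)
    (Poly.filter (p := fun s (e : Edge) => decide (e.1.1 = u s) &&
      agM n (J s) (z s) (a s) (x s) e) hJ ?_) ?_
  · exact Poly.and (Poly.decide_eq (Poly.fst (Poly.fst (Poly.snd i))) (hu.comp (Poly.fst i)))
      (poly_agM n (hJ.comp (Poly.fst i)) (hz.comp (Poly.fst i)) (ha.comp (Poly.fst i))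
        (hx.comp (Poly.fst i)) (Poly.snd i))
  · exact poly_pw (hQ.comp (Poly.fst i)) (hJ.comp (Poly.fst i)) (hz.comp (Poly.fst i))
      (hu.comp (Poly.fst i)) (Poly.snd (Poly.fst (Poly.snd i)))

theorem poly_midM (n q : ℕ) {Q : α → ℕ} {J : α → Game} {z a : α → ℕ} (hQ : Poly Q) (hJ : Poly J)
    (hz : Poly z) (ha : Poly a) :
    Poly (fun s => midM n q (Q s) (J s) (z s) (a s)) := by
  unfold midM
  have i : Poly (fun p : α × Edge => p) := Poly.id
  refine poly_lsum (F := fun s (e : Edge) =>
    best (fun x => innM n (Q s) (J s) (z s) (a s) e.1.1 x) q) hJ ?_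
  exact poly_best (f := fun (p : α × Edge) x => innM n (Q p.1) (J p.1) (z p.1) (a p.1) p.2.1.1 x) q
    fun m => poly_innM n (hQ.comp (Poly.fst i)) (hJ.comp (Poly.fst i)) (hz.comp (Poly.fst i))
      (ha.comp (Poly.fst i)) (Poly.fst (Poly.fst (Poly.snd i))) (NPC.Poly.const m)

theorem poly_totalM (n q : ℕ) {Q : α → ℕ} {J : α → Game} (hQ : Poly Q) (hJ : Poly J) :
    Poly (fun s => totalM n q (Q s) (J s)) := by
  unfold totalM
  have i : Poly (fun p : α × Edge => p) := Poly.id
  refine poly_lsum (F := fun s (e : Edge) =>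
    best (fun a => midM n q (Q s) (J s) e.1.1 a) q) hJ ?_
  exact poly_best (f := fun (p : α × Edge) a => midM n q (Q p.1) (J p.1) p.2.1.1 a) q
    fun m => poly_midM n q (hQ.comp (Poly.fst i)) (hJ.comp (Poly.fst i))
      (Poly.fst (Poly.fst (Poly.snd i))) (NPC.Poly.const m)

end

theorem poly_accM (n q A B C : ℕ) : Poly (accM n q A B C) := by
  unfold accM
  have hl : Poly (fun J : Game => J.length) := Poly.length Poly.id
  have hQ : Poly (fun J : Game => C * J.length ^ 3) :=
    (Poly.mul (NPC.Poly.const C) (Poly.mul (Poly.mul hl hl) hl)).congr fun J => by ring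
  exact Poly.decide_le (Poly.mul (Poly.mul (NPC.Poly.const B) hQ) hl)
    (Poly.mul (NPC.Poly.const A) (poly_totalM n q hQ Poly.id))

end Pool.Agent.H697.IR
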