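import Pool.Agent.H697.CL.Sound

/-!
# Labellings from random leaders, for relations
-/

namespace Pool.Agent.H697.IR

open Finset
open Pool.Agent.H697.CL (nb nR mem_nb mem_nR card_nb card_nR om om_nonneg sum_pairs
  sum_om_left_le sum_om_right_le rk rk_inj card_rank)

variable {E : Finset (ℕ × ℕ)} {A B : Type} (R : ℕ × ℕ → A → B → Prop)

/-- Two edges with the same second end agree on a label of this end. -/
def Ag (e f : ℕ × ℕ) (x a : A) : Prop := ∃ t, R e x t ∧ R f a t

open Classical in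
/-- The weight of the agreeing pairs. -/
noncomputable def TP (P : ℕ × ℕ → ℕ × ℕ → A → A → Prop) (E : Finset (ℕ × ℕ)) (a : ℕ → A)
    (X : ℕ → ℕ → A) : ℝ :=
  ∑ e ∈ E, ∑ f ∈ E.filter (fun f => f.2 = e.2),
    if P e f (X f.1 e.1) (a f.1) then om E e f else 0

open Classical in
/-- The number of satisfied edges. -/
noncomputable def numR (E : Finset (ℕ × ℕ)) (L : ℕ → A) (M : ℕ → B) : ℕ :=
  (E.filter fun e => R e (L e.1) (M e.2)).card

theorem completeR (L : ℕ → A) (M : ℕ → B) :
    ∑ e ∈ E, ∑ f ∈ E.filter (fun f => f.2 = e.2), om E e f ≤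
      TP (Ag R) E L (fun _ u => L u) + 2 * ((E.card : ℝ) - numR R E L M) := by
  classical
  set bad := E.filter fun e => ¬ R e (L e.1) (M e.2) with hbad
  have hcard : ((E.card : ℝ) - numR R E L M) = bad.card := by
    have := card_filter_add_card_filter_not (s := E) (fun e => R e (L e.1) (M e.2))
    have h2 : (numR R E L M : ℝ) + bad.card = E.card := by
      unfold numR
      rw [← this]
      push_cast
      congr 2
    linarith
  rw [hcard]
  have h1 : ∀ e ∈ E, ∀ f ∈ E.filter (fun f => f.2 = e.2), om E e f ≤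
      (if Ag R e f (L e.1) (L f.1) then om E e f else 0) +
      ((if e ∈ bad then om E e f else 0) + (if f ∈ bad then om E e f else 0)) := by
    intro e he f hf
    obtain ⟨hf1, hf2⟩ := mem_filter.1 hf
    have h0 := om_nonneg (E := E) e f
    by_cases h2 : e ∈ bad
    · rw [if_pos h2]
      split_ifs <;> linarith
    · by_cases h3 : f ∈ bad
      · rw [if_pos h3]
        split_ifs <;> linarith
      · have h4 : R e (L e.1) (M e.2) := by
          by_contra h; exact h2 (mem_filter.2 ⟨he, h⟩)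
        have h5 : R f (L f.1) (M f.2) := by
          by_contra h; exact h3 (mem_filter.2 ⟨hf1, h⟩)
        rw [if_pos ⟨M e.2, h4, by rw [← hf2]; exact h5⟩, if_neg h2, if_neg h3]
        linarith
  have h2 : ∑ e ∈ E, ∑ f ∈ E.filter (fun f => f.2 = e.2), (if e ∈ bad then om E e f else 0) ≤
      bad.card := by
    calc _ = ∑ e ∈ E, if e ∈ bad then ∑ f ∈ E.filter (fun f => f.2 = e.2), om E e f else 0 := by
          refine sum_congr rfl fun e _ => ?_
          split_ifs
          · rfl
          · rw [sum_const_zero]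
      _ ≤ ∑ e ∈ E, if e ∈ bad then (1 : ℝ) else 0 := by
          refine sum_le_sum fun e he => ?_
          split_ifs
          · exact sum_om_left_le he
          · exact le_rfl
      _ = bad.card := by
          rw [← sum_filter, sum_const, nsmul_eq_mul, mul_one]
          congr 2
          ext e
          simp only [mem_filter, hbad]
          tauto
  have h3 : ∑ e ∈ E, ∑ f ∈ E.filter (fun f => f.2 = e.2), (if f ∈ bad then om E e f else 0) ≤
      bad.card := by
    rw [sum_pairs]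
    calc _ = ∑ f ∈ E, if f ∈ bad then ∑ e ∈ E.filter (fun e => e.2 = f.2), om E e f else 0 := by
          refine sum_congr rfl fun f _ => ?_
          split_ifs
          · rfl
          · rw [sum_const_zero]
      _ ≤ ∑ f ∈ E, if f ∈ bad then (1 : ℝ) else 0 := by
          refine sum_le_sum fun f hf => ?_
          split_ifs
          · exact sum_om_right_le hf
          · exact le_rfl
      _ = bad.card := by
          rw [← sum_filter, sum_const, nsmul_eq_mul, mul_one]
          congr 2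
          ext e
          simp only [mem_filter, hbad]
          tauto
  calc _ ≤ ∑ e ∈ E, ∑ f ∈ E.filter (fun f => f.2 = e.2),
      ((if Ag R e f (L e.1) (L f.1) then om E e f else 0) +
      ((if e ∈ bad then om E e f else 0) + (if f ∈ bad then om E e f else 0))) :=
        sum_le_sum fun e he => sum_le_sum fun f hf => h1 e he f hf
    _ ≤ _ := by
        simp only [sum_add_distrib]
        unfold TP
        linarith

open Classical in
/-- The count for one order, the labels of the left side. -/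
theorem one_orderR [Nonempty A] (X : ℕ → ℕ → A) (l : ℕ → ℕ) (M : ℕ → B) :
    ∃ L : ℕ → A, ∑ e ∈ E, ∑ v' ∈ nR E e.1,
      (if R e (X (l v') e.1) (M e.2) then 1 / ((nR E e.1).card : ℝ) else 0) ≤ numR R E L M := by
  -- the number of satisfied edges at `u` with the label `x`
  let g : ℕ → A → ℕ := fun u x => ((E.filter fun e => e.1 = u).filter fun e =>
    R e x (M e.2)).card
  have h1 : ∀ u : ℕ, ∃ x : A, ∀ v' ∈ nR E u, g u (X (l v') u) ≤ g u x := by
    intro u
    by_cases hu : (nR E u).Nonempty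
    · obtain ⟨v0, _, hv0⟩ := exists_max_image (nR E u) (fun v' => g u (X (l v') u)) hu
      exact ⟨X (l v0) u, hv0⟩
    · exact ⟨Classical.arbitrary A, fun v' hv' => absurd ⟨v', hv'⟩ hu⟩
  choose L hL using h1
  refine ⟨L, ?_⟩
  have h2 : ∀ (φ : ℕ × ℕ → ℝ), ∑ e ∈ E, φ e = ∑ u ∈ E.image Prod.fst,
      ∑ e ∈ E.filter (fun e => e.1 = u), φ e := fun φ =>
    (sum_fiberwise_of_maps_to (fun e he => mem_image_of_mem _ he) φ).symm
  have h3 : (numR R E L M : ℝ) = ∑ u ∈ E.image Prod.fst, (g u (L u) : ℝ) := by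
    unfold numR
    rw [card_filter]
    push_cast
    rw [h2]
    refine sum_congr rfl fun u _ => ?_
    simp only [g]
    rw [card_filter]
    push_cast
    refine sum_congr rfl fun e he => ?_
    rw [(mem_filter.1 he).2]
  rw [h2, h3]
  refine sum_le_sum fun u hu => ?_
  have hne : 0 < (nR E u).card := by
    obtain ⟨e, he, rfl⟩ := mem_image.1 hu
    exact card_pos.2 ⟨e.2, mem_nR.2 he⟩
  have hne' : (0 : ℝ) < (nR E u).card := by exact_mod_cast hne
  calc ∑ e ∈ E.filter (fun e => e.1 = u), ∑ v' ∈ nR E e.1,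
        (if R e (X (l v') e.1) (M e.2) then 1 / ((nR E e.1).card : ℝ) else 0) =
        ∑ v' ∈ nR E u, (g u (X (l v') u) : ℝ) * (1 / ((nR E u).card : ℝ)) := by
        rw [sum_congr rfl fun e he => by rw [(mem_filter.1 he).2], sum_comm]
        refine sum_congr rfl fun v' _ => ?_
        simp only [g]
        rw [← sum_filter, sum_const, nsmul_eq_mul]
    _ ≤ ∑ v' ∈ nR E u, (g u (L u) : ℝ) * (1 / ((nR E u).card : ℝ)) := by
        refine sum_le_sum fun v' hv' => ?_
        have := hL u v' hv'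
        gcongr
    _ = g u (L u) := by
        rw [sum_const, nsmul_eq_mul]
        field_simp

open Classical in
/-- The count for one order, the labels of the right side. -/
theorem two_orderR [Fintype B] [Nonempty B] {d : ℕ} (a : ℕ → A) (X : ℕ → ℕ → A) (l : ℕ → ℕ)
    (hd : ∀ f ∈ E, ∀ x, (univ.filter fun t => R f x t).card ≤ d)
    (hl : ∀ e ∈ E, (l e.2, e.2) ∈ E) :
    ∃ M : ℕ → B, ∑ e ∈ E, ∑ v' ∈ nR E e.1,
      (if Ag R e (l e.2, e.2) (X (l v') e.1) (a (l e.2)) then
        1 / ((nR E e.1).card : ℝ) else 0) ≤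
      d * ∑ e ∈ E, ∑ v' ∈ nR E e.1,
        (if R e (X (l v') e.1) (M e.2) then 1 / ((nR E e.1).card : ℝ) else 0) := by
  let w : ℕ × ℕ → B → ℝ := fun e t => ∑ v' ∈ nR E e.1,
    (if R e (X (l v') e.1) t then 1 / ((nR E e.1).card : ℝ) else 0)
  have hw : ∀ e t, 0 ≤ w e t := fun e t => sum_nonneg fun _ _ => by split_ifs <;> positivity
  have h1 : ∀ v : ℕ, ∃ t : B, ∀ t' : B, ∑ e ∈ E.filter (fun e => e.2 = v), w e t' ≤
      ∑ e ∈ E.filter (fun e => e.2 = v), w e t := by
    intro v
    obtain ⟨t, _, ht⟩ := exists_max_image (univ : Finset B)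
      (fun t => ∑ e ∈ E.filter (fun e => e.2 = v), w e t) univ_nonempty
    exact ⟨t, fun t' => ht t' (mem_univ _)⟩
  choose M hM using h1
  refine ⟨M, ?_⟩
  have h2 : ∀ (φ : ℕ × ℕ → ℝ), ∑ e ∈ E, φ e = ∑ u ∈ E.image Prod.snd,
      ∑ e ∈ E.filter (fun e => e.2 = u), φ e := fun φ =>
    (sum_fiberwise_of_maps_to (fun e he => mem_image_of_mem _ he) φ).symm
  rw [h2, h2 fun e => ∑ v' ∈ nR E e.1,
    (if R e (X (l v') e.1) (M e.2) then 1 / ((nR E e.1).card : ℝ) else 0), mul_sum]
  refine sum_le_sum fun v hv => ?_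
  obtain ⟨e0, he0, hev⟩ := mem_image.1 hv
  have hf0 : (l v, v) ∈ E := by rw [← hev]; exact hl e0 he0
  set S := univ.filter fun t => R (l v, v) (a (l v)) t with hS
  have hScard : S.card ≤ d := hd _ hf0 _
  calc ∑ e ∈ E.filter (fun e => e.2 = v), ∑ v' ∈ nR E e.1,
      (if Ag R e (l e.2, e.2) (X (l v') e.1) (a (l e.2)) then
        1 / ((nR E e.1).card : ℝ) else 0) ≤
      ∑ e ∈ E.filter (fun e => e.2 = v), ∑ t ∈ S, w e t := by
        refine sum_le_sum fun e he => ?_
        have hev' := (mem_filter.1 he).2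
        simp only [w]
        rw [sum_comm]
        refine sum_le_sum fun v' _ => ?_
        have hnn : ∀ t ∈ S, 0 ≤ (if R e (X (l v') e.1) t then
            1 / ((nR E e.1).card : ℝ) else 0) := fun t _ => by split_ifs <;> positivity
        by_cases h : Ag R e (l e.2, e.2) (X (l v') e.1) (a (l e.2))
        · rw [if_pos h]
          obtain ⟨t, h3, h4⟩ := h
          rw [hev'] at h4
          have h5 : t ∈ S := mem_filter.2 ⟨mem_univ _, h4⟩
          refine le_trans ?_ (single_le_sum hnn h5)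
          rw [if_pos h3]
        · rw [if_neg h]
          exact sum_nonneg hnn
    _ = ∑ t ∈ S, ∑ e ∈ E.filter (fun e => e.2 = v), w e t := sum_comm
    _ ≤ ∑ _t ∈ S, ∑ e ∈ E.filter (fun e => e.2 = v), w e (M v) :=
        sum_le_sum fun t _ => hM v t
    _ = S.card * ∑ e ∈ E.filter (fun e => e.2 = v), w e (M v) := by
        rw [sum_const, nsmul_eq_mul]
    _ ≤ d * ∑ e ∈ E.filter (fun e => e.2 = v), w e (M v) := by
        have : 0 ≤ ∑ e ∈ E.filter (fun e => e.2 = v), w e (M v) :=
          sum_nonneg fun e _ => hw e _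
        have h3 : (S.card : ℝ) ≤ d := by exact_mod_cast hScard
        exact mul_le_mul_of_nonneg_right h3 this
    _ = _ := by
        congr 1
        refine sum_congr rfl fun e he => ?_
        rw [(mem_filter.1 he).2]

open Classical in
theorem soundR [Nonempty A] [Fintype B] [Nonempty B] {d : ℕ}
    (hd : ∀ f ∈ E, ∀ x, (univ.filter fun t => R f x t).card ≤ d)
    (a : ℕ → A) (X : ℕ → ℕ → A) :
    ∃ (L : ℕ → A) (M : ℕ → B), TP (Ag R) E a X ≤ d * numR R E L M := by
  set Z := E.image Prod.fst with hZ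
  have hnbZ : ∀ v, nb E v ⊆ Z := fun v x hx => mem_image.2 ⟨(x, v), mem_nb.1 hx, rfl⟩
  -- the leaders
  have h1 : ∀ (σ : Z ≃ Fin Z.card) (v : ℕ), ∃ z, (nb E v).Nonempty → z ∈ nb E v ∧
      ∀ y ∈ nb E v, rk σ z ≤ rk σ y := by
    intro σ v
    by_cases hv : (nb E v).Nonempty
    · obtain ⟨z, hz, h⟩ := exists_min_image (nb E v) (rk σ) hv
      exact ⟨z, fun _ => ⟨hz, h⟩⟩
    · exact ⟨0, fun h => absurd h hv⟩
  choose l hl using h1
  have hlE : ∀ σ : Z ≃ Fin Z.card, ∀ e ∈ E, (l σ e.2, e.2) ∈ E := fun σ e he =>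
    mem_nb.1 (hl σ e.2 ⟨e.1, mem_nb.2 he⟩).1
  have h2 : ∀ σ : Z ≃ Fin Z.card, ∃ (L : ℕ → A) (M : ℕ → B), ∑ e ∈ E, ∑ v' ∈ nR E e.1,
      (if Ag R e (l σ e.2, e.2) (X (l σ v') e.1) (a (l σ e.2)) then
        1 / ((nR E e.1).card : ℝ) else 0) ≤ d * numR R E L M := by
    intro σ
    obtain ⟨M, hM⟩ := two_orderR R a X (l σ) hd (hlE σ)
    obtain ⟨L, hL⟩ := one_orderR (E := E) R X (l σ) M
    exact ⟨L, M, hM.trans (mul_le_mul_of_nonneg_left hL (by positivity))⟩
  choose L M hLM using h2
  -- the average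
  set N := Fintype.card (Z ≃ Fin Z.card) with hN
  have hNpos : 0 < N := by
    rw [hN, Fintype.card_pos_iff]
    exact ⟨Z.equivFin⟩
  have hNr : (0 : ℝ) < N := by exact_mod_cast hNpos
  have key : (N : ℝ) * TP (Ag R) E a X ≤ ∑ σ : Z ≃ Fin Z.card, ∑ e ∈ E, ∑ v' ∈ nR E e.1,
      (if Ag R e (l σ e.2, e.2) (X (l σ v') e.1) (a (l σ e.2)) then
        1 / ((nR E e.1).card : ℝ) else 0) := by
    rw [sum_comm]
    unfold TP
    rw [mul_sum]
    refine sum_le_sum fun e he => ?_
    rw [sum_comm]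
    -- exchange the sums over `f` and `v'`
    have h3 : ∑ f ∈ E.filter (fun f => f.2 = e.2),
        (if Ag R e f (X f.1 e.1) (a f.1) then om E e f else 0) =
        ∑ v' ∈ nR E e.1, ∑ f ∈ E.filter (fun f => f.2 = e.2),
          (if Ag R e f (X f.1 e.1) (a f.1) ∧ v' ∈ nR E f.1 then
            1 / (((nR E e.1).card : ℝ) * ((nb E e.2 ∪ nb E v').card : ℝ)) else 0) := by
      rw [sum_comm]
      refine sum_congr rfl fun f _ => ?_
      by_cases h : Ag R e f (X f.1 e.1) (a f.1)
      · simp only [h, true_and, if_true]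
        unfold om
        rw [← sum_filter, filter_mem_eq_inter]
      · simp only [h, false_and, if_false, sum_const_zero]
    rw [h3, mul_sum]
    refine sum_le_sum fun v' hv' => ?_
    have hev' : e.1 ∈ nb E v' := mem_nb.2 (mem_nR.1 hv')
    have hee : e.1 ∈ nb E e.2 := mem_nb.2 he
    -- every order has at most one pair of leaders
    have h4 : ∀ σ : Z ≃ Fin Z.card, ∑ f ∈ E.filter (fun f => f.2 = e.2),
        (if (Ag R e f (X f.1 e.1) (a f.1) ∧ v' ∈ nR E f.1) ∧
          (∀ y ∈ nb E e.2 ∪ nb E v', rk σ f.1 ≤ rk σ y) then 1 / ((nR E e.1).card : ℝ) else 0) ≤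
        if Ag R e (l σ e.2, e.2) (X (l σ v') e.1) (a (l σ e.2)) then
          1 / ((nR E e.1).card : ℝ) else 0 := by
      intro σ
      have hpos : (0 : ℝ) ≤ 1 / ((nR E e.1).card : ℝ) := by positivity
      have h5 : ∀ f ∈ E.filter (fun f => f.2 = e.2), (Ag R e f (X f.1 e.1) (a f.1) ∧
          v' ∈ nR E f.1) ∧ (∀ y ∈ nb E e.2 ∪ nb E v', rk σ f.1 ≤ rk σ y) →
          f = (l σ e.2, e.2) ∧
            Ag R e (l σ e.2, e.2) (X (l σ v') e.1) (a (l σ e.2)) := by
        rintro f hf ⟨⟨h6, h7⟩, h8⟩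
        obtain ⟨hf1, hf2⟩ := mem_filter.1 hf
        have hfe : f.1 ∈ nb E e.2 := mem_nb.2 (by rw [← hf2]; exact hf1)
        have hfv' : f.1 ∈ nb E v' := mem_nb.2 (mem_nR.1 h7)
        obtain ⟨h9, h10⟩ := hl σ e.2 ⟨_, hee⟩
        obtain ⟨h11, h12⟩ := hl σ v' ⟨_, hev'⟩
        have h13 : f.1 = l σ e.2 := rk_inj σ (hnbZ _ hfe) (hnbZ _ h9)
          (le_antisymm (h8 _ (mem_union_left _ h9)) (h10 _ hfe))
        have h14 : f.1 = l σ v' := rk_inj σ (hnbZ _ hfv') (hnbZ _ h11)
          (le_antisymm (h8 _ (mem_union_right _ h11)) (h12 _ hfv'))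
        have h15 : f = (l σ e.2, e.2) := Prod.ext h13 hf2
        refine ⟨h15, ?_⟩
        rw [← h14, ← h15, ← h13]
        exact h6
      by_cases h6 : ∃ f ∈ E.filter (fun f => f.2 = e.2), (Ag R e f (X f.1 e.1) (a f.1) ∧
          v' ∈ nR E f.1) ∧ (∀ y ∈ nb E e.2 ∪ nb E v', rk σ f.1 ≤ rk σ y)
      · obtain ⟨f, hf, hf'⟩ := h6
        obtain ⟨h7, h8⟩ := h5 f hf hf'
        rw [if_pos h8, sum_eq_single f]
        · rw [if_pos hf']
        · intro f' hf1 hne
          rw [if_neg]
          intro h9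
          exact hne ((h5 f' hf1 h9).1.trans h7.symm)
        · intro h9; exact absurd hf h9
      · rw [sum_eq_zero]
        · split_ifs
          · exact hpos
          · exact le_rfl
        · intro f hf
          rw [if_neg]
          intro h7
          exact h6 ⟨f, hf, h7⟩
    refine le_trans ?_ (sum_le_sum fun σ _ => h4 σ)
    rw [sum_comm, mul_sum]
    refine sum_le_sum fun f hf => ?_
    obtain ⟨hf1, hf2⟩ := mem_filter.1 hf
    by_cases h6 : Ag R e f (X f.1 e.1) (a f.1) ∧ v' ∈ nR E f.1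
    · rw [if_pos h6]
      simp only [h6, true_and]
      have hfe : f.1 ∈ nb E e.2 := mem_nb.2 (by rw [← hf2]; exact hf1)
      have h7 := card_rank (Z := Z) (n := Z.card) (A := nb E e.2 ∪ nb E v')
        (union_subset (hnbZ _) (hnbZ _)) (z := f.1) (mem_union_left _ hfe)
      rw [← sum_filter, sum_const, nsmul_eq_mul]
      have hU : (0 : ℝ) < (nb E e.2 ∪ nb E v').card := by
        exact_mod_cast card_pos.2 ⟨_, mem_union_left _ hfe⟩
      have hd : (0 : ℝ) < (nR E e.1).card := by
        exact_mod_cast card_pos.2 ⟨e.2, mem_nR.2 he⟩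
      have h8 : ((univ.filter fun σ : Z ≃ Fin Z.card =>
          ∀ y ∈ nb E e.2 ∪ nb E v', rk σ f.1 ≤ rk σ y).card : ℝ) *
          ((nb E e.2 ∪ nb E v').card : ℝ) = N := by
        rw [hN]
        exact_mod_cast (by convert h7 using 3)
      rw [← h8]
      apply le_of_eq
      field_simp
    · rw [if_neg h6, mul_zero]
      exact sum_nonneg fun σ _ => by split_ifs <;> positivity
  obtain ⟨σ, _, hσ⟩ := exists_le_of_sum_le (s := (univ : Finset (Z ≃ Fin Z.card)))
    (f := fun _ => TP (Ag R) E a X)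
    (g := fun σ => (d : ℝ) * (numR R E (L σ) (M σ) : ℝ))
    ⟨Z.equivFin, mem_univ _⟩ (by
      rw [sum_const, nsmul_eq_mul, card_univ]
      exact key.trans (sum_le_sum fun σ _ => hLM σ))
  exact ⟨L σ, M σ, hσ⟩

end Pool.Agent.H697.IR
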