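import Pool.Agent.H697.CL.Link
import Pool.Agent.H697.IR.RelReal
import Pool.Agent.H697.IR.RelAlg

/-!
# The algorithm for relations and the sum of the weights
-/

namespace Pool.Agent.H697.IR

open Finset Pool.Agent.NPC
open Pool.Agent.H697.UG (Game Edge degL degR hasE Simple edges mem_edges card_edges_filter
  card_edges hasE_iff unique_edge)
open Pool.Agent.H697.CL (nb nR mem_nb mem_nR card_nb card_nR om pw best exists_ed sum_list
  sum_list_filter le_best exists_best sum_ends_nb pw_le)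

/-- The relation of an edge whose map goes from the labels of the second end to the labels of the
first end. -/
def Rel {q n : ℕ} (ρ : ℕ × ℕ → Fin n → Fin q) (p : ℕ × ℕ) (x : Fin q) (t : Fin n) : Prop :=
  ρ p t = x

section
variable {J : Game} (hS : Simple J) {q n : ℕ} {ρ : ℕ × ℕ → Fin n → Fin q}
  (hρ : ∀ e ∈ J, ∀ t : Fin n, e.2[(t : ℕ)]? = some (ρ e.1 t : ℕ))

include hρ in
theorem agM_iff (z : ℕ) (a x : Fin q) {e : Edge} (he : e ∈ J) :
    agM n J z a x e = true ↔ (z, e.1.2) ∈ edges J ∧ Ag (Rel ρ) e.1 (z, e.1.2) x a := by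
  unfold agM
  simp only [List.any_eq_true, Bool.and_eq_true, decide_eq_true_eq, List.mem_range]
  constructor
  · rintro ⟨f, hf, h1, t, ht, h2, h3⟩
    refine ⟨mem_edges.2 ⟨f, hf, h1⟩, ⟨t, ht⟩, ?_, ?_⟩
    · have h4 := hρ e he ⟨t, ht⟩
      rw [show ((⟨t, ht⟩ : Fin n) : ℕ) = t from rfl, h2, Option.some.injEq] at h4
      exact (Fin.ext h4).symm
    · have h4 := hρ f hf ⟨t, ht⟩
      rw [show ((⟨t, ht⟩ : Fin n) : ℕ) = t from rfl, h3, Option.some.injEq, h1] at h4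
      exact (Fin.ext h4).symm
  · rintro ⟨h1, t, h2, h3⟩
    obtain ⟨f, hf, h4⟩ := mem_edges.1 h1
    refine ⟨f, hf, h4, t, t.2, ?_, ?_⟩
    · rw [hρ e he t]
      exact congrArg some (congrArg Fin.val h2)
    · rw [hρ f hf t, h4]
      exact congrArg some (congrArg Fin.val h3)

open Classical in
include hS hρ in
theorem innM_eq (Q z : ℕ) (a x : Fin q) (u : ℕ) : innM n Q J z a u x =
    ∑ p ∈ edges J, if p.1 = u ∧ (z, p.2) ∈ edges J ∧ Ag (Rel ρ) p (z, p.2) x a then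
      pw Q J z u p.2 else 0 := by
  obtain ⟨ed, hed, hed'⟩ := exists_ed hS
  unfold innM
  rw [sum_list_filter hS hed]
  refine sum_congr rfl fun p hp => ?_
  obtain ⟨h1, h2⟩ := hed' p hp
  have h3 := agM_iff hρ z a x h1
  rw [h2] at h3
  simp only [Bool.and_eq_true, decide_eq_true_eq, h3, h2]

/-- The sum for given labels. -/
def totM (n Q : ℕ) (J : Game) (a : ℕ → Fin q) (X : ℕ → ℕ → Fin q) : ℕ :=
  ∑ p₁ ∈ edges J, ∑ p₀ ∈ edges J, innM n Q J p₁.1 (a p₁.1) p₀.1 (X p₁.1 p₀.1)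

include hS in
theorem totalM_eq (n q Q : ℕ) : totalM n q Q J = ∑ p₁ ∈ edges J, best (fun a => ∑ p₀ ∈ edges J,
    best (fun x => innM n Q J p₁.1 a p₀.1 x) q) q := by
  classical
  obtain ⟨ed, hed, hed'⟩ := exists_ed hS
  unfold totalM midM
  rw [sum_list hS hed]
  refine sum_congr rfl fun p hp => ?_
  congr 1
  funext a
  rw [sum_list hS hed, (hed' p hp).2]
  exact sum_congr rfl fun p₀ hp₀ => by rw [(hed' p₀ hp₀).2]

include hS in
theorem totM_le (Q : ℕ) (a : ℕ → Fin q) (X : ℕ → ℕ → Fin q) :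
    totM n Q J a X ≤ totalM n q Q J := by
  rw [totalM_eq hS]
  unfold totM
  refine sum_le_sum fun p₁ _ => ?_
  refine le_trans ?_ (le_best _ (a p₁.1).2)
  refine sum_le_sum fun p₀ _ => ?_
  exact le_best (fun x => innM n Q J p₁.1 (a p₁.1) p₀.1 x) (X p₁.1 p₀.1).2

include hS in
theorem exists_totM (hq : 0 < q) (Q : ℕ) : ∃ (a : ℕ → Fin q) (X : ℕ → ℕ → Fin q),
    totalM n q Q J = totM n Q J a X := by
  have h1 : ∀ z : ℕ, ∃ a : Fin q, best (fun a => ∑ p₀ ∈ edges J,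
    best (fun x => innM n Q J z a p₀.1 x) q) q = ∑ p₀ ∈ edges J,
    best (fun x => innM n Q J z a p₀.1 x) q := fun z => exists_best _ hq
  choose a ha using h1
  have h2 : ∀ z u : ℕ, ∃ x : Fin q, best (fun x => innM n Q J z (a z) u x) q =
      innM n Q J z (a z) u x := fun z u => exists_best _ hq
  choose X hX using h2
  refine ⟨a, X, ?_⟩
  rw [totalM_eq hS]
  unfold totM
  refine sum_congr rfl fun p₁ _ => ?_
  rw [ha]
  exact sum_congr rfl fun p₀ _ => hX _ _

open Classical in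
/-- The sum of the real weights. -/
theorem sum_realM (P : ℕ × ℕ → ℕ × ℕ → Fin q → Fin q → Prop) (E : Finset (ℕ × ℕ))
    (a : ℕ → Fin q) (X : ℕ → ℕ → Fin q) :
    ∑ p₁ ∈ E, ∑ p₀ ∈ E, ∑ p ∈ E, (if p.1 = p₀.1 ∧ (p₁.1, p.2) ∈ E ∧
      P p (p₁.1, p.2) (X p₁.1 p₀.1) (a p₁.1) then
        om E (p₀.1, p.2) (p₁.1, p.2) /
          (((nR E p₁.1).card : ℝ) * ((nR E p₀.1).card : ℝ)) else 0) = TP P E a X := by
  unfold TP
  have h1 : ∀ p₁ : ℕ × ℕ, ∑ p₀ ∈ E, ∑ p ∈ E, (if p.1 = p₀.1 ∧ (p₁.1, p.2) ∈ E ∧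
      P p (p₁.1, p.2) (X p₁.1 p₀.1) (a p₁.1) then
        om E (p₀.1, p.2) (p₁.1, p.2) /
          (((nR E p₁.1).card : ℝ) * ((nR E p₀.1).card : ℝ)) else 0) =
      ∑ p ∈ E, (if (p₁.1, p.2) ∈ E then (if P p (p₁.1, p.2) (X p₁.1 p.1) (a p₁.1) then
        om E p (p₁.1, p.2) else 0) else 0) / ((nR E p₁.1).card : ℝ) := by
    intro p₁
    rw [sum_comm]
    refine sum_congr rfl fun p hp => ?_
    have h2 : ∀ p₀ ∈ E, (if p.1 = p₀.1 ∧ (p₁.1, p.2) ∈ E ∧
        P p (p₁.1, p.2) (X p₁.1 p₀.1) (a p₁.1) then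
        om E (p₀.1, p.2) (p₁.1, p.2) /
          (((nR E p₁.1).card : ℝ) * ((nR E p₀.1).card : ℝ)) else 0) =
        if p₀.1 = p.1 then ((if (p₁.1, p.2) ∈ E then
        (if P p (p₁.1, p.2) (X p₁.1 p.1) (a p₁.1) then
        om E p (p₁.1, p.2) else 0) else 0) / ((nR E p₁.1).card : ℝ)) / ((nR E p.1).card : ℝ)
        else 0 := by
      intro p₀ _
      by_cases h3 : p₀.1 = p.1
      · rw [if_pos h3, h3]
        by_cases h4 : (p₁.1, p.2) ∈ E
        · by_cases h5 : P p (p₁.1, p.2) (X p₁.1 p.1) (a p₁.1)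
          · rw [if_pos ⟨rfl, h4, h5⟩, if_pos h4, if_pos h5, div_div]
          · rw [if_neg (fun h => h5 h.2.2), if_pos h4, if_neg h5, zero_div, zero_div]
        · rw [if_neg (fun h => h4 h.2.1), if_neg h4, zero_div, zero_div]
      · rw [if_neg h3, if_neg (fun h => h3 h.1.symm)]
    rw [sum_congr rfl h2, ← sum_filter, sum_const, ← card_nR, nsmul_eq_mul]
    have hpos : (0 : ℝ) < (nR E p.1).card := by
      exact_mod_cast card_pos.2 ⟨p.2, mem_nR.2 hp⟩
    field_simp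
  rw [sum_congr rfl fun p₁ _ => h1 p₁, sum_comm]
  refine sum_congr rfl fun p _ => ?_
  rw [sum_ends_nb p.2 fun z => if P p (z, p.2) (X z p.1) (a z) then om E p (z, p.2) else 0]
  refine sum_congr rfl fun f hf => ?_
  obtain ⟨_, hf2⟩ := mem_filter.1 hf
  have h3 : (f.1, p.2) = f := Prod.ext rfl hf2.symm
  rw [h3]

include hS hρ in
theorem totM_bounds (Q : ℕ) (a : ℕ → Fin q) (X : ℕ → ℕ → Fin q) :
    (totM n Q J a X : ℝ) ≤ Q * TP (Ag (Rel ρ)) (edges J) a X ∧
      Q * TP (Ag (Rel ρ)) (edges J) a X ≤ totM n Q J a X + (J.length : ℝ) ^ 4 := by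
  classical
  rw [← sum_realM]
  unfold totM
  push_cast
  simp only [mul_sum]
  constructor
  · refine sum_le_sum fun p₁ _ => sum_le_sum fun p₀ _ => ?_
    rw [innM_eq hS hρ]
    push_cast
    refine sum_le_sum fun p _ => ?_
    split_ifs with h
    · exact (pw_le hS Q p₁.1 p₀.1 p.2).1
    · rw [mul_zero]
  · calc _ ≤ ∑ p₁ ∈ edges J, ∑ p₀ ∈ edges J,
          ((innM n Q J p₁.1 (a p₁.1) p₀.1 (X p₁.1 p₀.1) : ℝ) + (J.length : ℝ) ^ 2) := by
          refine sum_le_sum fun p₁ _ => sum_le_sum fun p₀ _ => ?_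
          rw [innM_eq hS hρ]
          push_cast
          calc _ ≤ ∑ p ∈ edges J, ((if p.1 = p₀.1 ∧ (p₁.1, p.2) ∈ edges J ∧
                Ag (Rel ρ) p (p₁.1, p.2) (X p₁.1 p₀.1) (a p₁.1) then
                (pw Q J p₁.1 p₀.1 p.2 : ℝ) else 0) + J.length) := by
                refine sum_le_sum fun p _ => ?_
                split_ifs with h
                · exact (pw_le hS Q p₁.1 p₀.1 p.2).2
                · rw [mul_zero, zero_add]
                  positivity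
            _ = _ := by
                rw [sum_add_distrib, sum_const, card_edges hS, nsmul_eq_mul]
                ring
      _ = _ := by
          simp only [sum_add_distrib, sum_const, card_edges hS, nsmul_eq_mul]
          ring

end

end Pool.Agent.H697.IR
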