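import Pool.Agent.H697.IR.Two
import Pool.Agent.H697.IR.RelLink

/-!
# d-to-1 games which are clustered on one of the sides are easy
-/

namespace Pool.Agent.H697.IR

open Finset Pool.Agent.NPC
open Pool.Agent.H697.CL (jac clus exists_pi clus_mul edges_nonempty)
open Pool.Agent.H697.UG (Game Edge Simple edges mem_edges card_edges card_edges_filter cgraph)

theorem poly_mirror : Poly mirror := by
  unfold mirror
  refine NPC.Poly.map (F := fun (_ : Game) (e : Edge) => (((e.1.2, e.1.1), e.2) : Edge))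
    Poly.id ?_
  have i : Poly (fun p : Game × Edge => p.2) := Poly.snd Poly.id
  exact Poly.pair (Poly.pair (Poly.snd (Poly.fst i)) (Poly.fst (Poly.fst i))) (Poly.snd i)

theorem length_mirror (J : Game) : (mirror J).length = J.length := List.length_map _

theorem simple_mirror {J : Game} (h : Simple J) : Simple (mirror J) := by
  unfold Simple mirror at *
  rw [List.map_map]
  have : (Prod.fst ∘ fun e : Edge => (((e.1.2, e.1.1), e.2) : Edge)) =
      Prod.swap ∘ Prod.fst := rfl
  rw [this, ← List.map_map]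
  exact h.map Prod.swap_injective

theorem card_get_le (l : List ℕ) (q y : ℕ) :
    (univ.filter fun x : Fin q => l[(x : ℕ)]? = some y).card ≤ l.count y := by
  have h1 : l.count y = (l.zipIdx.filter fun p => decide (p.1 = y)).length := by
    conv_lhs => rw [← List.zipIdx_map_fst 0 l]
    rw [List.count, List.countP_map, List.countP_eq_length_filter]
    congr 1
  rw [h1]
  refine le_trans ?_ (List.toFinset_card_le _)
  refine card_le_card_of_injOn (fun x : Fin q => (y, (x : ℕ))) ?_ ?_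
  · intro x hx
    rw [mem_coe, mem_filter] at hx
    rw [mem_coe, List.mem_toFinset, List.mem_filter]
    refine ⟨?_, by simp⟩
    obtain ⟨h2, h3⟩ := List.getElem?_eq_some_iff.1 hx.2
    rw [List.mem_iff_getElem]
    refine ⟨x, by simpa using h2, ?_⟩
    simp [h3]
  · intro x _ x' _ h
    exact Fin.ext (Prod.mk.inj h).2

open Pool.Agent.H697.LC in
/-- The number of satisfied edges of the mirrored game. -/
theorem numR_mirror {J : Game} (hS : Simple J) {q₁ q₂ : ℕ} {π : ℕ × ℕ → Fin q₁ → Fin q₂}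
    (hπ : ∀ e ∈ J, ∀ x : Fin q₁, e.2[(x : ℕ)]? = some (π e.1 x : ℕ)) (L : ℕ → Fin q₁)
    (M : ℕ → Fin q₂) :
    numR (Rel fun p => π p.swap) (edges (mirror J)) M L = numSat J L M := by
  classical
  have h1 := card_edges_filter (simple_mirror hS)
    (fun e => decide (e.2[(L e.1.2 : ℕ)]? = some (M e.1.1 : ℕ)))
    (fun p => Rel (fun p => π p.swap) p (M p.1) (L p.2)) (by
      intro e he
      obtain ⟨e', he', rfl⟩ := List.mem_map.1 he
      rw [decide_eq_true_eq]
      show e'.2[(L e'.1.1 : ℕ)]? = some (M e'.1.2 : ℕ) ↔ π e'.1 (L e'.1.1) = M e'.1.2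
      rw [hπ e' he', Option.some.injEq]
      exact ⟨fun h => Fin.ext h, fun h => congrArg Fin.val h⟩)
  unfold numR numSat
  have h2 : ((mirror J).filter fun e => decide (e.2[(L e.1.2 : ℕ)]? = some (M e.1.1 : ℕ))).length =
      (J.filter fun e => decide (Sat L M e)).length := by
    unfold mirror
    rw [List.filter_map, List.length_map]
    rfl
  rw [← h2, h1]

open Pool.Agent.H697.LC in
/-- The algorithm for the other side. -/
theorem exists_accM {d : ℕ} (hd : 0 < d) {q₁ q₂ : ℕ} (hq₁ : 0 < q₁) (hq₂ : 0 < q₂) {γ ε δ : ℝ}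
    (h : 2 * ε + d * δ < γ) : ∃ D : Game → Bool, Poly D ∧ ∀ J, Simple J →
      (γ ≤ clus (mirror J) → Yes d q₁ q₂ ε J → D J = true) ∧
        (No d q₁ q₂ δ J → D J = false) := by
  classical
  have hpos : ∀ J : Game, J ≠ [] → (0 : ℝ) < J.length := fun J hJ => by
    exact_mod_cast List.length_pos_iff.2 hJ
  have hdr : (0 : ℝ) < d := by exact_mod_cast hd
  rcases lt_or_ge δ 0 with hδ | hδ
  · refine ⟨fun _ => true, NPC.Poly.const true, fun J _ => ⟨fun _ _ => rfl, ?_⟩⟩
    rintro ⟨hG, hno⟩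
    exfalso
    have h1 := hno (fun _ => ⟨0, hq₁⟩) (fun _ => ⟨0, hq₂⟩)
    have h2 := hpos J hG.1
    have h3 : (0 : ℝ) ≤ numSat J (fun _ => (⟨0, hq₁⟩ : Fin q₁)) (fun _ => (⟨0, hq₂⟩ : Fin q₂)) := by
      positivity
    nlinarith
  obtain ⟨r, hr1, hr2⟩ := exists_rat_btwn (show d * δ < γ - 2 * ε by linarith)
  have hr0 : (0 : ℝ) < r := lt_of_le_of_lt (by positivity) hr1
  have hr0' : 0 < r := by exact_mod_cast hr0
  set A := r.den with hA
  set B := r.num.toNat with hB
  have hAB : (A : ℝ) * r = B := by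
    have h1 : (B : ℤ) = r.num := Int.toNat_of_nonneg (Rat.num_nonneg.2 hr0'.le)
    have h2 : (B : ℝ) = (r.num : ℝ) := by exact_mod_cast h1
    rw [h2]
    have h3 := Rat.den_mul_eq_num r
    exact_mod_cast h3
  have hApos : (0 : ℝ) < A := by exact_mod_cast r.den_pos
  obtain ⟨C, hC⟩ := exists_nat_gt (1 / (γ - 2 * ε - r))
  have hgap : 0 < γ - 2 * ε - r := by linarith
  have hC1 : 1 ≤ C * (γ - 2 * ε - r) := by
    rw [div_lt_iff₀ hgap] at hC
    exact hC.le
  have hC0 : (0 : ℝ) < C := lt_trans (by positivity) hC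
  refine ⟨fun J => accM q₁ q₂ A B C (mirror J),
    (poly_accM q₁ q₂ A B C).comp poly_mirror, fun I hS => ?_⟩
  set J := mirror I with hJ
  have hSJ : Simple J := simple_mirror hS
  have hne : I ≠ [] → J ≠ [] := fun h0 => by
    rw [hJ]
    unfold mirror
    simpa using h0
  have hlen : J.length = I.length := length_mirror I
  constructor
  · rintro hcl ⟨hG, L, M, hLM⟩
    obtain ⟨π, hπ⟩ := exists_pi hS hq₂ hG
    set ρ : ℕ × ℕ → Fin q₁ → Fin q₂ := fun p => π p.swap with hρdef
    have hρ : ∀ e ∈ J, ∀ t : Fin q₁, e.2[(t : ℕ)]? = some (ρ e.1 t : ℕ) := by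
      intro e he t
      obtain ⟨e', he', rfl⟩ := List.mem_map.1 he
      exact hπ e' he' t
    have hm := hpos J (hne hG.1)
    have hE : ((edges J).card : ℝ) = J.length := by exact_mod_cast card_edges hSJ
    have h1 := completeR (E := edges J) (Rel ρ) M L
    rw [← clus_mul (edges_nonempty (hne hG.1)), numR_mirror hS hπ, hE] at h1
    rw [← hlen] at hLM
    have h2 : (γ - 2 * ε) * J.length ≤ TP (Ag (Rel ρ)) (edges J) M (fun _ u => M u) := by
      nlinarith
    have h3 := (totM_bounds hSJ hρ (C * J.length ^ 3) M (fun _ u => M u)).2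
    have h4 : (totM q₁ (C * J.length ^ 3) J M (fun _ u => M u) : ℝ) ≤
        totalM q₁ q₂ (C * J.length ^ 3) J := by exact_mod_cast totM_le hSJ _ _ _
    show accM q₁ q₂ A B C J = true
    unfold accM
    rw [decide_eq_true_eq]
    have h5 : ((B * (C * J.length ^ 3) * J.length : ℕ) : ℝ) ≤
        ((A * totalM q₁ q₂ (C * J.length ^ 3) J : ℕ) : ℝ) := by
      push_cast at h3 ⊢
      have h6 : (C : ℝ) * J.length ^ 3 * ((γ - 2 * ε) * J.length) ≤
          C * J.length ^ 3 * TP (Ag (Rel ρ)) (edges J) M (fun _ u => M u) := by gcongr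
      have h7 : (1 : ℝ) * (J.length : ℝ) ^ 4 ≤ C * (γ - 2 * ε - r) * (J.length : ℝ) ^ 4 :=
        mul_le_mul_of_nonneg_right hC1 (by positivity)
      have h8 : r * (C * (J.length : ℝ) ^ 3) * J.length ≤
          totalM q₁ q₂ (C * J.length ^ 3) J := by nlinarith
      calc (B : ℝ) * (C * (J.length : ℝ) ^ 3) * J.length =
            A * (r * (C * (J.length : ℝ) ^ 3) * J.length) := by rw [← hAB]; ring
        _ ≤ _ := by gcongr
    exact_mod_cast h5
  · rintro ⟨hG, hno⟩
    by_contra hacc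
    rw [Bool.not_eq_false] at hacc
    have hacc' : accM q₁ q₂ A B C J = true := hacc
    obtain ⟨π, hπ⟩ := exists_pi hS hq₂ hG
    set ρ : ℕ × ℕ → Fin q₁ → Fin q₂ := fun p => π p.swap with hρdef
    have hρ : ∀ e ∈ J, ∀ t : Fin q₁, e.2[(t : ℕ)]? = some (ρ e.1 t : ℕ) := by
      intro e he t
      obtain ⟨e', he', rfl⟩ := List.mem_map.1 he
      exact hπ e' he' t
    have hm := hpos J (hne hG.1)
    obtain ⟨a, X, haX⟩ := exists_totM (n := q₁) hSJ hq₂ (C * J.length ^ 3)
    have : Nonempty (Fin q₁) := ⟨⟨0, hq₁⟩⟩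
    have : Nonempty (Fin q₂) := ⟨⟨0, hq₂⟩⟩
    have hfib : ∀ f ∈ edges J, ∀ x : Fin q₂,
        (univ.filter fun t => Rel ρ f x t).card ≤ d := by
      intro f hf x
      obtain ⟨e, he, hef⟩ := mem_edges.1 hf
      obtain ⟨e', he', hee⟩ := List.mem_map.1 he
      have h1 : e.2 = e'.2 := by rw [← hee]
      have h2 := (hG.2 e' he').2.2 (x : ℕ)
      refine le_trans ?_ ((card_get_le e'.2 q₁ x).trans h2)
      refine card_le_card fun t ht => ?_
      rw [mem_filter] at ht ⊢
      refine ⟨mem_univ _, ?_⟩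
      rw [← h1, hρ e he t, hef]
      exact congrArg some (congrArg Fin.val ht.2)
    obtain ⟨L, M, hLM⟩ := soundR (E := edges J) (Rel ρ) hfib a X
    rw [numR_mirror hS hπ] at hLM
    have h1 := hno M L
    rw [← hlen] at h1
    have h2 := (totM_bounds hSJ hρ (C * J.length ^ 3) a X).1
    rw [← haX] at h2
    unfold accM at hacc'
    rw [decide_eq_true_eq] at hacc'
    have h3 : ((B * (C * J.length ^ 3) * J.length : ℕ) : ℝ) ≤
        ((A * totalM q₁ q₂ (C * J.length ^ 3) J : ℕ) : ℝ) := by exact_mod_cast hacc'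
    push_cast at h2 h3
    have h4 : (A : ℝ) * (r * (C * (J.length : ℝ) ^ 3) * J.length) ≤
        A * totalM q₁ q₂ (C * J.length ^ 3) J := by
      calc (A : ℝ) * (r * (C * (J.length : ℝ) ^ 3) * J.length) =
            B * (C * (J.length : ℝ) ^ 3) * J.length := by rw [← hAB]; ring
        _ ≤ _ := h3
    have h5 := le_of_mul_le_mul_left h4 hApos
    have hQ : (0 : ℝ) < C * (J.length : ℝ) ^ 3 := by positivity
    have h6 : (C * (J.length : ℝ) ^ 3) * (r * J.length) ≤
        (C * (J.length : ℝ) ^ 3) * (d * δ * J.length) := by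
      calc (C * (J.length : ℝ) ^ 3) * (r * J.length) = r * (C * (J.length : ℝ) ^ 3) * J.length := by
            ring
        _ ≤ _ := h5
        _ ≤ _ := h2
        _ ≤ (C * (J.length : ℝ) ^ 3) * (d * δ * J.length) := by
            refine mul_le_mul_of_nonneg_left ?_ hQ.le
            refine hLM.trans ?_
            rw [mul_assoc]
            exact mul_le_mul_of_nonneg_left h1 hdr.le
    have h7 := le_of_mul_le_mul_left h6 hQ
    have h8 := le_of_mul_le_mul_right h7 hm
    linarith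

open Pool.Agent.H697.LC in
/-- d-to-1 games which are clustered on one of the sides are easy. -/
theorem easy_side_LC {d : ℕ} (hd : 0 < d) {q₁ q₂ : ℕ} (hq₁ : 0 < q₁) (hq₂ : 0 < q₂) {γ ε δ : ℝ}
    (h : 2 * ε + d * δ < γ) : Easy (SideClustered γ) (Yes d q₁ q₂ ε) (No d q₁ q₂ δ) := by
  classical
  have hpos : ∀ J : Game, J ≠ [] → (0 : ℝ) < J.length := fun J hJ => by
    exact_mod_cast List.length_pos_iff.2 hJ
  rcases lt_or_ge δ 0 with hδ | hδ
  · refine ⟨fun _ => True, inPP_of (P := fun _ : Game => True) (d := fun _ : Game => true)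
      (NPC.Poly.const true) fun _ => by simp, fun J _ => ⟨fun _ => trivial, ?_⟩⟩
    rintro ⟨hG, hno⟩ -
    have h1 := hno (fun _ => ⟨0, hq₁⟩) (fun _ => ⟨0, hq₂⟩)
    have h2 := hpos J hG.1
    have h3 : (0 : ℝ) ≤ numSat J (fun _ => (⟨0, hq₁⟩ : Fin q₁)) (fun _ => (⟨0, hq₂⟩ : Fin q₂)) := by
      positivity
    nlinarith
  have hd1 : (1 : ℝ) ≤ d := by exact_mod_cast hd
  obtain ⟨D, hD, hDD⟩ := exists_acc d hq₁ hq₂ (show 2 * ε + δ < γ by nlinarith)
  obtain ⟨D', hD', hDD'⟩ := exists_accM hd hq₁ hq₂ h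
  refine ⟨fun J => (D J || D' J) = true, inPP_of (Poly.or hD hD') fun _ => Iff.rfl,
    fun J hJ => ⟨fun hy => ?_, fun hn hacc => ?_⟩⟩
  · show (D J || D' J) = true
    rw [Bool.or_eq_true]
    rcases hJ.2 with hc | hc
    · exact Or.inl ((hDD J hJ.1).1 hc hy)
    · exact Or.inr ((hDD' J hJ.1).1 hc hy)
  · have hacc' : (D J || D' J) = true := hacc
    rw [Bool.or_eq_true] at hacc'
    rcases hacc' with h1 | h1
    · rw [(hDD J hJ.1).2 hn] at h1
      exact Bool.false_ne_true h1
    · rw [(hDD' J hJ.1).2 hn] at h1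
      exact Bool.false_ne_true h1

end Pool.Agent.H697.IR
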