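import Pool.Agent.H697.IR.Clus
import Pool.Agent.H697.IR.Defs

/-!
# The clustering coefficients of the two sides
-/

set_option linter.unusedSectionVars false

namespace Pool.Agent.H697.IR

open Finset Pool.Agent.NPC Pool.Agent.H697.Forest
open Pool.Agent.H697.CL (nb nR mem_nb mem_nR card_nb card_nR jac clus edges_nonempty
  clus_ge_left)
open Pool.Agent.H697.UG (Game Edge Simple edges mem_edges card_edges cgraph)

/-- The edges with exchanged ends. -/
def sw (E : Finset (ℕ × ℕ)) : Finset (ℕ × ℕ) := E.image Prod.swap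

theorem mem_sw {E : Finset (ℕ × ℕ)} {u v : ℕ} : (u, v) ∈ sw E ↔ (v, u) ∈ E := by
  unfold sw
  rw [mem_image]
  constructor
  · rintro ⟨⟨a, b⟩, h1, h2⟩
    simp only [Prod.swap, Prod.mk.injEq] at h2
    rw [← h2.1, ← h2.2]
    exact h1
  · intro h
    exact ⟨(v, u), h, rfl⟩

theorem nR_sw (E : Finset (ℕ × ℕ)) (v : ℕ) : nR (sw E) v = nb E v := by
  ext u
  rw [mem_nR, mem_nb, mem_sw]

theorem nb_sw (E : Finset (ℕ × ℕ)) (u : ℕ) : nb (sw E) u = nR E u := by
  ext v
  rw [mem_nb, mem_nR, mem_sw]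

theorem image_fst_sw (E : Finset (ℕ × ℕ)) : (sw E).image Prod.fst = E.image Prod.snd := by
  ext u
  simp only [mem_image, Prod.exists, exists_and_right, exists_eq_right, mem_sw]

theorem card_sw (E : Finset (ℕ × ℕ)) : (sw E).card = E.card :=
  card_image_of_injective _ Prod.swap_injective

/-- The similarity in a set of edges. -/
noncomputable def jE (E : Finset (ℕ × ℕ)) (v v' : ℕ) : ℝ :=
  ((nb E v ∩ nb E v').card : ℝ) / (nb E v ∪ nb E v').card

/-- The sum of the similarities on the right side. -/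
noncomputable def clL (E : Finset (ℕ × ℕ)) : ℝ :=
  ∑ u ∈ E.image Prod.fst, (∑ v ∈ nR E u, ∑ v' ∈ nR E u, jE E v v') / ((nR E u).card : ℝ)

theorem clL_eq {J : Game} (hJ : J ≠ []) : clL (edges J) = clus J * (edges J).card := by
  classical
  have hne := edges_nonempty hJ
  have hpos : (0 : ℝ) < (edges J).card := by exact_mod_cast card_pos.2 hne
  set E := edges J with hE
  unfold clus clL
  rw [← hE, div_mul_cancel₀ _ hpos.ne',
    ← sum_fiberwise_of_maps_to (s := E) (t := E.image Prod.fst) (g := Prod.fst)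
    (fun e he => mem_image_of_mem _ he)]
  refine sum_congr rfl fun u _ => ?_
  rw [sum_div]
  symm
  refine sum_nbij Prod.snd ?_ ?_ ?_ ?_
  · intro p hp
    obtain ⟨h3, rfl⟩ := mem_filter.1 hp
    exact mem_nR.2 h3
  · intro p hp p' hp' h
    rw [mem_coe, mem_filter] at hp hp'
    exact Prod.ext (hp.2.trans hp'.2.symm) h
  · intro v hv
    exact ⟨(u, v), mem_coe.2 (mem_filter.2 ⟨mem_nR.1 (mem_coe.1 hv), rfl⟩), rfl⟩
  · intro p hp
    rw [(mem_filter.1 hp).2]
    rfl

/-- The bipartite graph of a set of edges, on its vertices. -/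
abbrev gr (E : Finset (ℕ × ℕ)) : SimpleGraph (E.image Prod.fst ⊕ E.image Prod.snd) :=
  sub E (E.image Prod.fst) (E.image Prod.snd)

/-- The name of a vertex. -/
def nm (E : Finset (ℕ × ℕ)) : (E.image Prod.fst ⊕ E.image Prod.snd) → ℕ :=
  Sum.elim Subtype.val Subtype.val

theorem nbr_inl (E : Finset (ℕ × ℕ)) (u : E.image Prod.fst) :
    ((gr E).neighborFinset (Sum.inl u)).image (nm E) = nR E u := by
  ext v
  rw [mem_image, mem_nR]
  constructor
  · rintro ⟨z | z, h1, h2⟩
    · rw [SimpleGraph.mem_neighborFinset] at h1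
      exact absurd h1 (sub_ll _ _ _ _ _)
    · rw [SimpleGraph.mem_neighborFinset, sub_lr] at h1
      rw [← h2]
      exact h1
  · intro h
    refine ⟨Sum.inr ⟨v, mem_image_of_mem _ h⟩, ?_, rfl⟩
    rw [SimpleGraph.mem_neighborFinset, sub_lr]
    exact h

theorem nbr_inr (E : Finset (ℕ × ℕ)) (v : E.image Prod.snd) :
    ((gr E).neighborFinset (Sum.inr v)).image (nm E) = nb E v := by
  ext u
  rw [mem_image, mem_nb]
  constructor
  · rintro ⟨z | z, h1, h2⟩
    · rw [SimpleGraph.mem_neighborFinset, sub_rl] at h1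
      rw [← h2]
      exact h1
    · rw [SimpleGraph.mem_neighborFinset] at h1
      exact absurd h1 (sub_rr _ _ _ _ _)
  · intro h
    refine ⟨Sum.inl ⟨u, mem_image_of_mem _ h⟩, ?_, rfl⟩
    rw [SimpleGraph.mem_neighborFinset, sub_rl]
    exact h

/-- The vertices of the left side. -/
def lft (E : Finset (ℕ × ℕ)) : Set (E.image Prod.fst ⊕ E.image Prod.snd) :=
  {x | x.isLeft = true}

theorem nm_injOn_left (E : Finset (ℕ × ℕ)) :
    Set.InjOn (nm E) {x | x.isLeft = true} := by
  rintro (a | a) ha (b | b) hb h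
  · exact congrArg Sum.inl (Subtype.ext h)
  · simp at hb
  · simp at ha
  · simp at ha

theorem nm_injOn_right (E : Finset (ℕ × ℕ)) :
    Set.InjOn (nm E) {x | x.isRight = true} := by
  rintro (a | a) ha (b | b) hb h
  · simp at ha
  · simp at ha
  · simp at hb
  · exact congrArg Sum.inr (Subtype.ext h)

theorem nbr_inl_right (E : Finset (ℕ × ℕ)) (u : E.image Prod.fst) :
    (((gr E).neighborFinset (Sum.inl u) : Finset (E.image Prod.fst ⊕ E.image Prod.snd)) :
      Set (E.image Prod.fst ⊕ E.image Prod.snd)) ⊆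
      {x : E.image Prod.fst ⊕ E.image Prod.snd | x.isRight = true} := by
  rintro (z | z) h
  · rw [mem_coe, SimpleGraph.mem_neighborFinset] at h
    exact absurd h (sub_ll _ _ _ _ _)
  · rfl

theorem nbr_inr_left (E : Finset (ℕ × ℕ)) (v : E.image Prod.snd) :
    (((gr E).neighborFinset (Sum.inr v) : Finset (E.image Prod.fst ⊕ E.image Prod.snd)) :
      Set (E.image Prod.fst ⊕ E.image Prod.snd)) ⊆
      {x : E.image Prod.fst ⊕ E.image Prod.snd | x.isLeft = true} := by
  rintro (z | z) h
  · rfl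
  · rw [mem_coe, SimpleGraph.mem_neighborFinset] at h
    exact absurd h (sub_rr _ _ _ _ _)

theorem JG_inr (E : Finset (ℕ × ℕ)) (v v' : E.image Prod.snd) :
    JG (gr E) (Sum.inr v) (Sum.inr v') = jE E v v' := by
  classical
  unfold JG jE
  have h1 := nbr_inr_left E v
  have h2 := nbr_inr_left E v'
  congr 2
  · rw [← nbr_inr, ← nbr_inr, ← Finset.image_inter_of_injOn]
    · rw [Finset.card_image_of_injOn]
      refine (nm_injOn_left E).mono fun x hx => ?_
      exact h1 (mem_coe.2 (Finset.mem_inter.1 (mem_coe.1 hx)).1)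
    · refine (nm_injOn_left E).mono fun x hx => ?_
      rcases hx with hx | hx
      · exact h1 hx
      · exact h2 hx
  · rw [← nbr_inr, ← nbr_inr, ← Finset.image_union, Finset.card_image_of_injOn]
    refine (nm_injOn_left E).mono fun x hx => ?_
    rcases Finset.mem_union.1 (mem_coe.1 hx) with hx | hx
    · exact h1 (mem_coe.2 hx)
    · exact h2 (mem_coe.2 hx)

theorem JG_inl (E : Finset (ℕ × ℕ)) (u u' : E.image Prod.fst) :
    JG (gr E) (Sum.inl u) (Sum.inl u') = jE (sw E) u u' := by
  classical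
  unfold JG jE
  rw [nb_sw, nb_sw]
  have h1 := nbr_inl_right E u
  have h2 := nbr_inl_right E u'
  congr 2
  · rw [← nbr_inl, ← nbr_inl, ← Finset.image_inter_of_injOn]
    · rw [Finset.card_image_of_injOn]
      refine (nm_injOn_right E).mono fun x hx => ?_
      exact h1 (mem_coe.2 (Finset.mem_inter.1 (mem_coe.1 hx)).1)
    · refine (nm_injOn_right E).mono fun x hx => ?_
      rcases hx with hx | hx
      · exact h1 hx
      · exact h2 hx
  · rw [← nbr_inl, ← nbr_inl, ← Finset.image_union, Finset.card_image_of_injOn]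
    refine (nm_injOn_right E).mono fun x hx => ?_
    rcases Finset.mem_union.1 (mem_coe.1 hx) with hx | hx
    · exact h1 (mem_coe.2 hx)
    · exact h2 (mem_coe.2 hx)

theorem dg_inl (E : Finset (ℕ × ℕ)) (u : E.image Prod.fst) :
    dg (gr E) (Sum.inl u) = (nR E u).card := by
  classical
  unfold dg
  rw [← SimpleGraph.card_neighborFinset_eq_degree, ← nbr_inl, Finset.card_image_of_injOn]
  exact (nm_injOn_right E).mono (nbr_inl_right E u)

theorem dg_inr (E : Finset (ℕ × ℕ)) (v : E.image Prod.snd) :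
    dg (gr E) (Sum.inr v) = (nb E v).card := by
  classical
  unfold dg
  rw [← SimpleGraph.card_neighborFinset_eq_degree, ← nbr_inr, Finset.card_image_of_injOn]
  exact (nm_injOn_left E).mono (nbr_inr_left E v)

theorem dg_pos (E : Finset (ℕ × ℕ)) (x) : 0 < dg (gr E) x := by
  rcases x with u | v
  · rw [dg_inl]
    obtain ⟨e, he, h⟩ := mem_image.1 u.2
    have : e.2 ∈ nR E u := mem_nR.2 (by rw [← h]; exact he)
    exact_mod_cast card_pos.2 ⟨_, this⟩
  · rw [dg_inr]
    obtain ⟨e, he, h⟩ := mem_image.1 v.2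
    have : e.1 ∈ nb E v := mem_nb.2 (by rw [← h]; exact he)
    exact_mod_cast card_pos.2 ⟨_, this⟩

theorem sum_nbr_inl (E : Finset (ℕ × ℕ)) (u : E.image Prod.fst) (F : _ → ℝ) (F' : ℕ → ℝ)
    (h : ∀ v : E.image Prod.snd, F (Sum.inr v) = F' v) :
    ∑ c ∈ (gr E).neighborFinset (Sum.inl u), F c = ∑ v ∈ nR E u, F' v := by
  classical
  rw [← nbr_inl, Finset.sum_image]
  · refine sum_congr rfl fun c hc => ?_
    rcases c with c | c
    · rw [SimpleGraph.mem_neighborFinset] at hc
      exact absurd hc (sub_ll _ _ _ _ _)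
    · exact h c
  · exact (nm_injOn_right E).mono (nbr_inl_right E u)

theorem sum_nbr_inr (E : Finset (ℕ × ℕ)) (v : E.image Prod.snd) (F : _ → ℝ) (F' : ℕ → ℝ)
    (h : ∀ u : E.image Prod.fst, F (Sum.inl u) = F' u) :
    ∑ c ∈ (gr E).neighborFinset (Sum.inr v), F c = ∑ u ∈ nb E v, F' u := by
  classical
  rw [← nbr_inr, Finset.sum_image]
  · refine sum_congr rfl fun c hc => ?_
    rcases c with c | c
    · exact h c
    · rw [SimpleGraph.mem_neighborFinset] at hc
      exact absurd hc (sub_rr _ _ _ _ _)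
  · exact (nm_injOn_left E).mono (nbr_inr_left E v)

theorem Q2_eq (E : Finset (ℕ × ℕ)) : Q2 (gr E) = clL E + clL (sw E) := by
  classical
  unfold Q2
  rw [Fintype.sum_sum_type]
  congr 1
  · unfold clL
    rw [← Finset.sum_coe_sort (E.image Prod.fst)]
    refine sum_congr rfl fun u _ => ?_
    rw [dg_inl]
    congr 1
    refine sum_nbr_inl E u _ (fun v => ∑ v' ∈ nR E u, jE E v v') fun v => ?_
    exact sum_nbr_inl E u _ (fun v' => jE E v v') fun v' => JG_inr E v v'
  · unfold clL
    rw [image_fst_sw, ← Finset.sum_coe_sort (E.image Prod.snd)]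
    refine sum_congr rfl fun v _ => ?_
    rw [dg_inr, nR_sw]
    congr 1
    refine sum_nbr_inr E v _ (fun u => ∑ u' ∈ nb E v, jE (sw E) u u') fun u => ?_
    exact sum_nbr_inr E v _ (fun u' => jE (sw E) u u') fun u' => JG_inl E u u'

theorem Zm_eq (E : Finset (ℕ × ℕ)) : Zm (gr E) = 2 * E.card := by
  classical
  unfold Zm
  rw [Fintype.sum_sum_type]
  have h1 : ∑ u : E.image Prod.fst, dg (gr E) (Sum.inl u) = E.card := by
    rw [Finset.sum_congr rfl fun u _ => dg_inl E u,
      Finset.sum_coe_sort (E.image Prod.fst) (fun u => ((nR E u).card : ℝ)),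
      card_eq_sum_card_image Prod.fst E]
    push_cast
    exact sum_congr rfl fun u _ => by rw [card_nR]
  have h2 : ∑ v : E.image Prod.snd, dg (gr E) (Sum.inr v) = E.card := by
    rw [Finset.sum_congr rfl fun v _ => dg_inr E v,
      Finset.sum_coe_sort (E.image Prod.snd) (fun v => ((nb E v).card : ℝ)),
      card_eq_sum_card_image Prod.snd E]
    push_cast
    exact sum_congr rfl fun u _ => by rw [card_nb]
  rw [h1, h2]
  ring

theorem edges_mirror (J : Game) : edges (mirror J) = sw (edges J) := by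
  ext ⟨a, b⟩
  rw [mem_sw, mem_edges, mem_edges]
  constructor
  · rintro ⟨e, he, h⟩
    obtain ⟨e', he', rfl⟩ := List.mem_map.1 he
    refine ⟨e', he', ?_⟩
    simp only [Prod.mk.injEq] at h
    exact Prod.ext h.2 h.1
  · rintro ⟨e, he, h⟩
    refine ⟨_, List.mem_map.2 ⟨e, he, rfl⟩, ?_⟩
    rw [h]

/-- **Bipartite graphs without an induced forest** have a large clustering coefficient on one of
the sides. -/
theorem clus_of_noInduced {α : Type} [Fintype α] (H : SimpleGraph α) (hH : H.IsAcyclic) :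
    ∃ γ : ℝ, 0 < γ ∧ ∀ I : Game, I ≠ [] → Simple I → IsEmpty (H ↪g cgraph I) →
      γ ≤ clus I ∨ γ ≤ clus (mirror I) := by
  classical
  obtain ⟨κ, hκ, hmain⟩ := exists_forest H hH
  refine ⟨min (κ ^ 2) κ / 2, by positivity, fun I hI hS hfree => ?_⟩
  by_contra hcon
  push Not at hcon
  obtain ⟨hc1, hc2⟩ := hcon
  set E := edges I with hE
  have hne : E.Nonempty := edges_nonempty hI
  have hEpos : (0 : ℝ) < E.card := by exact_mod_cast card_pos.2 hne
  have hI' : mirror I ≠ [] := by
    unfold mirror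
    simpa using hI
  have e1 : clL E = clus I * E.card := clL_eq hI
  have e2 : clL (sw E) = clus (mirror I) * E.card := by
    rw [← card_sw E, hE, ← edges_mirror]
    exact clL_eq hI'
  have hQ2 : Q2 (gr E) ≤ min (κ ^ 2) κ * E.card := by
    rw [Q2_eq, e1, e2]
    nlinarith
  have hZ : Zm (gr E) = 2 * E.card := Zm_eq E
  have hZpos : 0 < Zm (gr E) := by rw [hZ]; positivity
  have hQQ : QQ (gr E) ≤ κ * Zm (gr E) := by
    have h1 := QQ_sq_le (G := gr E) (dg_pos E)
    have h2 : QQ (gr E) ^ 2 ≤ (κ * Zm (gr E)) ^ 2 := by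
      calc QQ (gr E) ^ 2 ≤ Zm (gr E) * (2 * Q2 (gr E)) := h1
        _ ≤ Zm (gr E) * (2 * (κ ^ 2 * E.card)) := by
          have : min (κ ^ 2) κ * E.card ≤ κ ^ 2 * E.card := by
            gcongr
            exact min_le_left _ _
          gcongr
          exact hQ2.trans this
        _ = _ := by rw [hZ]; ring
    exact abs_le_of_sq_le_sq' h2 (by positivity) |>.2
  have hV : (Fintype.card (E.image Prod.fst ⊕ E.image Prod.snd) : ℝ) ≤ κ * Zm (gr E) := by
    have h1 := clus_ge_left hI
    have h2 := clus_ge_left hI'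
    rw [edges_mirror, image_fst_sw, card_sw] at h2
    rw [← hE] at h1 h2
    rw [Fintype.card_sum, Fintype.card_coe, Fintype.card_coe, hZ]
    push_cast
    have h3 : min (κ ^ 2) κ ≤ κ := min_le_right _ _
    nlinarith
  obtain ⟨f⟩ := hmain _ (gr E) (fun x => x.isLeft) (by
    rintro (x | x) (y | y) h
    · exact absurd h (sub_ll _ _ _ _ _)
    · simp
    · simp
    · exact absurd h (sub_rr _ _ _ _ _)) (dg_pos E) hZpos hQQ hV
  -- the embedding into the constraint graph
  refine hfree.false (f.trans ⟨⟨Sum.map Subtype.val Subtype.val, ?_⟩, fun {x y} => ?_⟩)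
  · exact Sum.map_injective.2 ⟨Subtype.val_injective, Subtype.val_injective⟩
  · have key : ∀ u v, (u, v) ∈ I.map Prod.fst ↔ (u, v) ∈ E := by
      intro u v
      rw [hE, edges, List.mem_toFinset]
    rcases x with x | x <;> rcases y with y | y
    · exact ⟨fun h => absurd h (by simp [cgraph, bip]), fun h => absurd h (sub_ll _ _ _ _ _)⟩
    · rw [sub_lr]
      exact key _ _
    · rw [sub_rl]
      exact key _ _
    · exact ⟨fun h => absurd h (by simp [cgraph, bip]), fun h => absurd h (sub_rr _ _ _ _ _)⟩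

end Pool.Agent.H697.IR
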