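import Pool.Agent.H697.IR.Sides

/-!
# The algorithm for games which are clustered on one of the two sides
-/

namespace Pool.Agent.H697.IR

open Finset Pool.Agent.NPC
open Pool.Agent.H697.CL (jac clus acc poly_acc total tot exists_pi complete sound tot_bounds
  tot_le exists_tot numE_eq clus_mul edges_nonempty T)
open Pool.Agent.H697.UG (Game Edge Simple edges mem_edges card_edges cgraph)

/-! ### The inverse permutations -/

/-- The table of the inverse permutation. -/
def inv (q : ℕ) (t : List ℕ) : List ℕ :=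
  (List.range q).map fun y =>
    (((List.range q).filter fun x => decide (t[x]? = some y)).head?).getD 0

theorem length_inv (q : ℕ) (t : List ℕ) : (inv q t).length = q := by
  unfold inv
  rw [List.length_map, List.length_range]

theorem mem_table {q : ℕ} {t : List ℕ} (h1 : t.length = q) (h2 : ∀ x ∈ t, x < q) (h3 : t.Nodup)
    {y : ℕ} (hy : y < q) : ∃ x < q, t[x]? = some y := by
  have h4 : t.toFinset = Finset.range q := by
    refine Finset.eq_of_subset_of_card_le (fun x hx => ?_) ?_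
    · exact Finset.mem_range.2 (h2 x (List.mem_toFinset.1 hx))
    · rw [Finset.card_range, List.toFinset_card_of_nodup h3, h1]
  have h5 : y ∈ t := by
    rw [← List.mem_toFinset, h4]
    exact Finset.mem_range.2 hy
  obtain ⟨x, hx⟩ := List.mem_iff_getElem?.1 h5
  refine ⟨x, ?_, hx⟩
  obtain ⟨h, -⟩ := List.getElem?_eq_some_iff.1 hx
  omega

theorem inv_get {q : ℕ} {t : List ℕ} (h1 : t.length = q) (h2 : ∀ x ∈ t, x < q) (h3 : t.Nodup)
    {y : ℕ} (hy : y < q) : ∃ x < q, t[x]? = some y ∧ (inv q t)[y]? = some x := by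
  obtain ⟨x0, hx0, hx0'⟩ := mem_table h1 h2 h3 hy
  have hmem : x0 ∈ (List.range q).filter fun x => decide (t[x]? = some y) := by
    rw [List.mem_filter]
    exact ⟨List.mem_range.2 hx0, by simpa using hx0'⟩
  obtain ⟨x, l, hl⟩ := List.exists_cons_of_ne_nil (List.ne_nil_of_mem hmem)
  have hx : x ∈ (List.range q).filter fun x => decide (t[x]? = some y) := by
    rw [hl]
    exact List.mem_cons_self
  rw [List.mem_filter, List.mem_range] at hx
  refine ⟨x, hx.1, by simpa using hx.2, ?_⟩
  unfold inv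
  rw [List.getElem?_map, List.getElem?_range hy, Option.map_some, hl]
  rfl

theorem inv_spec {q : ℕ} {t : List ℕ} (h1 : t.length = q) (h2 : ∀ x ∈ t, x < q) (h3 : t.Nodup)
    {x y : ℕ} (hy : y < q) : (inv q t)[y]? = some x ↔ t[x]? = some y := by
  obtain ⟨x', hx', h4, h5⟩ := inv_get h1 h2 h3 hy
  rw [h5, Option.some_inj]
  constructor
  · rintro rfl
    exact h4
  · intro h
    obtain ⟨hx, -⟩ := List.getElem?_eq_some_iff.1 h
    exact (List.nodup_iff_getElem?_ne_getElem? |>.1 h3 |> fun H => by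
      by_contra hne
      rcases lt_or_gt_of_ne hne with hlt | hlt
      · exact H x' x hlt hx (h4.trans h.symm)
      · exact H x x' hlt (by omega) (h.trans h4.symm))

/-- The game with exchanged sides. -/
def swapG (q : ℕ) (J : Game) : Game := J.map fun e => ((e.1.2, e.1.1), inv q e.2)

theorem edges_swapG (q : ℕ) (J : Game) : edges (swapG q J) = edges (mirror J) := by
  unfold edges swapG mirror
  rw [List.map_map, List.map_map]
  rfl

theorem clus_congr {J J' : Game} (h : edges J = edges J') : clus J = clus J' := by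
  unfold clus jac
  rw [h]

theorem simple_swapG {q : ℕ} {J : Game} (h : Simple J) : Simple (swapG q J) := by
  unfold Simple swapG at *
  rw [List.map_map]
  have : (Prod.fst ∘ fun e : Edge => (((e.1.2, e.1.1), inv q e.2) : Edge)) =
      Prod.swap ∘ Prod.fst := rfl
  rw [this, ← List.map_map]
  exact h.map Prod.swap_injective

theorem isGame_swapG {q : ℕ} {J : Game} (h : UG.IsGame q J) : UG.IsGame q (swapG q J) := by
  refine ⟨fun h0 => h.1 (List.map_eq_nil_iff.1 h0), fun e he => ?_⟩
  obtain ⟨e', he', rfl⟩ := List.mem_map.1 he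
  obtain ⟨h1, h2, h3⟩ := h.2 e' he'
  refine ⟨length_inv _ _, fun x hx => ?_, ?_⟩
  · obtain ⟨y, hy⟩ := List.mem_iff_getElem?.1 hx
    have hyq : y < q := by
      obtain ⟨h4, -⟩ := List.getElem?_eq_some_iff.1 hy
      rwa [length_inv] at h4
    obtain ⟨x', hx', -, h5⟩ := inv_get h1 h2 h3 hyq
    have h6 := hy.symm.trans h5
    rw [Option.some_inj] at h6
    omega
  · rw [List.nodup_iff_getElem?_ne_getElem?]
    intro i j hij hj h4
    rw [length_inv] at hj
    obtain ⟨x, -, h5, h6⟩ := inv_get h1 h2 h3 (show i < q by omega)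
    obtain ⟨x', -, h7, h8⟩ := inv_get h1 h2 h3 hj
    have h9 := (h6.symm.trans h4).trans h8
    rw [Option.some_inj] at h9
    rw [h9, h7, Option.some_inj] at h5
    omega

theorem numSat_swapG {q : ℕ} {J : Game} (h : UG.IsGame q J) (L M : ℕ → Fin q) :
    UG.numSat (swapG q J) M L = UG.numSat J L M := by
  unfold UG.numSat swapG
  rw [List.filter_map, List.length_map]
  congr 1
  refine List.filter_congr fun e he => ?_
  obtain ⟨h1, h2, h3⟩ := h.2 e he
  simp only [Function.comp_apply]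
  rw [decide_eq_decide]
  unfold UG.Sat
  exact inv_spec h1 h2 h3 (M e.1.2).2

theorem length_swapG (q : ℕ) (J : Game) : (swapG q J).length = J.length := List.length_map _

theorem yes_swapG {q : ℕ} {ε : ℝ} {J : Game} (h : UG.Yes q ε J) : UG.Yes q ε (swapG q J) := by
  obtain ⟨hG, L, M, hLM⟩ := h
  refine ⟨isGame_swapG hG, M, L, ?_⟩
  rw [numSat_swapG hG, length_swapG]
  exact hLM

theorem no_swapG {q : ℕ} {δ : ℝ} {J : Game} (h : UG.No q δ J) : UG.No q δ (swapG q J) := by
  obtain ⟨hG, hno⟩ := h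
  refine ⟨isGame_swapG hG, fun M L => ?_⟩
  rw [numSat_swapG hG, length_swapG]
  exact hno L M

section
variable {α : Type} [TEnc α]

theorem poly_inv (q : ℕ) {t : α → List ℕ} (ht : Poly t) : Poly (fun a => inv q (t a)) := by
  unfold inv
  refine NPC.Poly.map (F := fun a (y : ℕ) =>
    (((List.range q).filter fun x => decide ((t a)[x]? = some y)).head?).getD 0)
    (NPC.Poly.const _) ?_
  refine Poly.head?_getD (Poly.filter (p := fun (p : α × ℕ) (x : ℕ) =>
    decide ((t p.1)[x]? = some p.2)) (NPC.Poly.const _) ?_) 0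
  have i : Poly (fun p : (α × ℕ) × ℕ => p) := Poly.id
  exact Poly.decide_eq (Poly.getElem? (ht.comp (Poly.fst (Poly.fst i))) (Poly.snd i))
    (Poly.some (Poly.snd (Poly.fst i)))

end

theorem poly_swapG (q : ℕ) : Poly (swapG q) := by
  unfold swapG
  refine NPC.Poly.map (F := fun (_ : Game) (e : Edge) =>
    (((e.1.2, e.1.1), inv q e.2) : Edge)) Poly.id ?_
  have i : Poly (fun p : Game × Edge => p.2) := Poly.snd Poly.id
  exact Poly.pair (Poly.pair (Poly.snd (Poly.fst i)) (Poly.fst (Poly.fst i)))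
    (poly_inv q (Poly.snd i))

/-! ### The algorithm for one side -/

open Pool.Agent.H697.LC in
/-- The algorithm is sound for all simple games. -/
theorem exists_acc (d : ℕ) {q₁ q₂ : ℕ} (hq₁ : 0 < q₁) (hq₂ : 0 < q₂) {γ ε δ : ℝ}
    (h : 2 * ε + δ < γ) : ∃ D : Game → Bool, Poly D ∧ ∀ J, Simple J →
      (γ ≤ clus J → Yes d q₁ q₂ ε J → D J = true) ∧ (No d q₁ q₂ δ J → D J = false) := by
  classical
  have hpos : ∀ J : Game, J ≠ [] → (0 : ℝ) < J.length := fun J hJ => by
    exact_mod_cast List.length_pos_iff.2 hJ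
  rcases lt_or_ge δ 0 with hδ | hδ
  · refine ⟨fun _ => true, NPC.Poly.const true, fun J _ => ⟨fun _ _ => rfl, ?_⟩⟩
    rintro ⟨hG, hno⟩
    exfalso
    have h1 := hno (fun _ => ⟨0, hq₁⟩) (fun _ => ⟨0, hq₂⟩)
    have h2 := hpos J hG.1
    have h3 : (0 : ℝ) ≤ numSat J (fun _ => (⟨0, hq₁⟩ : Fin q₁)) (fun _ => (⟨0, hq₂⟩ : Fin q₂)) := by
      positivity
    nlinarith
  obtain ⟨r, hr1, hr2⟩ := exists_rat_btwn (show δ < γ - 2 * ε by linarith)
  have hr0 : (0 : ℝ) < r := lt_of_le_of_lt hδ hr1
  have hr0' : 0 < r := by exact_mod_cast hr0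
  set A := r.den with hA
  set B := r.num.toNat with hB
  have hAB : (A : ℝ) * r = B := by
    have h1 : (B : ℤ) = r.num := Int.toNat_of_nonneg (Rat.num_nonneg.2 hr0'.le)
    have h2 : (B : ℝ) = (r.num : ℝ) := by exact_mod_cast h1
    rw [h2]
    have h3 := Rat.den_mul_eq_num r
    exact_mod_cast h3
  have hApos : (0 : ℝ) < A := by exact_mod_cast r.den_pos
  obtain ⟨C, hC⟩ := exists_nat_gt (1 / (γ - 2 * ε - r))
  have hgap : 0 < γ - 2 * ε - r := by linarith
  have hC1 : 1 ≤ C * (γ - 2 * ε - r) := by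
    rw [div_lt_iff₀ hgap] at hC
    exact hC.le
  have hC0 : (0 : ℝ) < C := lt_trans (by positivity) hC
  refine ⟨acc q₁ A B C, poly_acc q₁ A B C, fun J hS => ?_⟩
  constructor
  · rintro hcl ⟨hG, L, M, hLM⟩
    obtain ⟨π, hπ⟩ := exists_pi hS hq₂ hG
    have hm := hpos J hG.1
    have hE : ((edges J).card : ℝ) = J.length := by exact_mod_cast card_edges hS
    have h1 := complete (E := edges J) π L M
    rw [← clus_mul (edges_nonempty hG.1), numE_eq hS hπ, hE] at h1
    have h2 : (γ - 2 * ε) * J.length ≤ T π (edges J) L (fun _ u => L u) := by nlinarith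
    have h3 := (tot_bounds hS hπ (C * J.length ^ 3) L (fun _ u => L u)).2
    have h4 : (tot (C * J.length ^ 3) J L (fun _ u => L u) : ℝ) ≤
        total q₁ (C * J.length ^ 3) J := by exact_mod_cast tot_le hS _ _ _
    unfold acc
    rw [decide_eq_true_eq]
    have h5 : ((B * (C * J.length ^ 3) * J.length : ℕ) : ℝ) ≤
        ((A * total q₁ (C * J.length ^ 3) J : ℕ) : ℝ) := by
      push_cast at h3 ⊢
      have h6 : (C : ℝ) * J.length ^ 3 * ((γ - 2 * ε) * J.length) ≤
          C * J.length ^ 3 * T π (edges J) L (fun _ u => L u) := by gcongr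
      have h7 : (1 : ℝ) * (J.length : ℝ) ^ 4 ≤ C * (γ - 2 * ε - r) * (J.length : ℝ) ^ 4 :=
        mul_le_mul_of_nonneg_right hC1 (by positivity)
      have h8 : r * (C * (J.length : ℝ) ^ 3) * J.length ≤
          total q₁ (C * J.length ^ 3) J := by nlinarith
      calc (B : ℝ) * (C * (J.length : ℝ) ^ 3) * J.length =
            A * (r * (C * (J.length : ℝ) ^ 3) * J.length) := by rw [← hAB]; ring
        _ ≤ _ := by gcongr
    exact_mod_cast h5
  · rintro ⟨hG, hno⟩
    by_contra hacc
    rw [Bool.not_eq_false] at hacc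
    obtain ⟨π, hπ⟩ := exists_pi hS hq₂ hG
    have hm := hpos J hG.1
    obtain ⟨a, X, haX⟩ := exists_tot hS hq₁ (C * J.length ^ 3)
    have : Nonempty (Fin q₁) := ⟨⟨0, hq₁⟩⟩
    obtain ⟨L, M, hLM⟩ := sound (E := edges J) π a X
    rw [numE_eq hS hπ] at hLM
    have h1 := hno L M
    have h2 := (tot_bounds hS hπ (C * J.length ^ 3) a X).1
    rw [← haX] at h2
    unfold acc at hacc
    rw [decide_eq_true_eq] at hacc
    have h3 : ((B * (C * J.length ^ 3) * J.length : ℕ) : ℝ) ≤
        ((A * total q₁ (C * J.length ^ 3) J : ℕ) : ℝ) := by exact_mod_cast hacc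
    push_cast at h2 h3
    have h4 : (A : ℝ) * (r * (C * (J.length : ℝ) ^ 3) * J.length) ≤
        A * total q₁ (C * J.length ^ 3) J := by
      calc (A : ℝ) * (r * (C * (J.length : ℝ) ^ 3) * J.length) =
            B * (C * (J.length : ℝ) ^ 3) * J.length := by rw [← hAB]; ring
        _ ≤ _ := h3
    have h5 := le_of_mul_le_mul_left h4 hApos
    have hQ : (0 : ℝ) < C * (J.length : ℝ) ^ 3 := by positivity
    have h6 : (C * (J.length : ℝ) ^ 3) * (r * J.length) ≤
        (C * (J.length : ℝ) ^ 3) * (δ * J.length) := by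
      calc (C * (J.length : ℝ) ^ 3) * (r * J.length) = r * (C * (J.length : ℝ) ^ 3) * J.length := by
            ring
        _ ≤ _ := h5
        _ ≤ _ := h2
        _ ≤ (C * (J.length : ℝ) ^ 3) * (δ * J.length) := by
            gcongr
            exact hLM.trans h1
    have h7 := le_of_mul_le_mul_left h6 hQ
    have h8 := le_of_mul_le_mul_right h7 hm
    linarith

/-- Unique games which are clustered on one of the sides are easy. -/
theorem easy_two {q : ℕ} (hq : 0 < q) {γ ε δ : ℝ} (h : 2 * ε + δ < γ) :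
    UG.Easy (SideClustered γ) q ε δ := by
  classical
  obtain ⟨D, hD, hDD⟩ := exists_acc 1 hq hq h
  refine ⟨fun J => (D J || D (swapG q J)) = true,
    inPP_of (Poly.or hD (hD.comp (poly_swapG q))) fun _ => Iff.rfl, fun J hJ => ⟨fun hy => ?_,
    fun hn hacc => ?_⟩⟩
  · show (D J || D (swapG q J)) = true
    rw [Bool.or_eq_true]
    rcases hJ.2 with hc | hc
    · exact Or.inl ((hDD J hJ.1).1 hc ⟨CL.isGame_LC hy.1, hy.2⟩)
    · have hy' := yes_swapG hy
      refine Or.inr ((hDD _ (simple_swapG hJ.1)).1 ?_ ⟨CL.isGame_LC hy'.1, hy'.2⟩)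
      rw [clus_congr (edges_swapG q J)]
      exact hc
  · have hacc' : (D J || D (swapG q J)) = true := hacc
    rw [Bool.or_eq_true] at hacc'
    have hn' := no_swapG hn
    rcases hacc' with h1 | h1
    · rw [(hDD J hJ.1).2 ⟨CL.isGame_LC hn.1, hn.2⟩] at h1
      exact Bool.false_ne_true h1
    · rw [(hDD _ (simple_swapG hJ.1)).2 ⟨CL.isGame_LC hn'.1, hn'.2⟩] at h1
      exact Bool.false_ne_true h1

theorem sideClustered_of_noInd {ι : Type} {V : ι → Type} [∀ i, Finite (V i)]
    (H : ∀ i, SimpleGraph (V i)) (i : ι) (hi : (H i).IsAcyclic) :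
    ∃ γ : ℝ, 0 < γ ∧ ∀ I, I ≠ [] → NoInd H I → SideClustered γ I := by
  have := Fintype.ofFinite (V i)
  obtain ⟨γ, h0, h⟩ := clus_of_noInduced (H i) hi
  exact ⟨γ, h0, fun I hI hN => ⟨hN.1, h I hI hN.1 (hN.2 i)⟩⟩

end Pool.Agent.H697.IR
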