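import Pool.Agent.H697.Forest.Tree

/-!
# Random homomorphisms of trees to graphs with arbitrary degrees

The image of the root is chosen with probability proportional to the degree, the image of every
other vertex is a uniformly random neighbour of the image of its parent.
-/

set_option linter.unusedSectionVars false

namespace Pool.Agent.H697.IR

open Finset Pool.Agent.H697.Forest

variable {V : Type} [Fintype V] [DecidableEq V] (G : SimpleGraph V) [DecidableRel G.Adj]

/-- The degree. -/
noncomputable def dg (x : V) : ℝ := G.degree x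

/-- The adjacency matrix. -/
noncomputable def Am : Matrix V V ℝ := fun x y => if G.Adj x y then 1 else 0

/-- The normalised adjacency matrix. -/
noncomputable def Mm : Matrix V V ℝ :=
  fun x y => if G.Adj x y then 1 / (√(dg G x) * √(dg G y)) else 0

/-- The sum of the degrees. -/
noncomputable def Zm : ℝ := ∑ x, dg G x

variable (p : ℕ → ℕ)

/-- The weighted sum of `φ` over the homomorphisms of the tree on `0, ..., k` to `G`. -/
noncomputable def W : ℕ → ((ℕ → V) → ℝ) → ℝ
  | 0, φ => ∑ x, dg G x * φ (fun _ => x)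
  | k + 1, φ => W k fun f => ∑ z, (if G.Adj (f (p (k + 1))) z then 1 / dg G (f (p (k + 1)))
      else 0) * φ (Function.update f (k + 1) z)

variable {G p}

theorem dg_nonneg (x : V) : 0 ≤ dg G x := Nat.cast_nonneg _

theorem sum_adj_one (x : V) : ∑ z, (if G.Adj x z then (1 : ℝ) else 0) = dg G x := by
  rw [← Finset.sum_filter, Finset.sum_const, nsmul_eq_mul, mul_one]
  unfold dg
  rw [← SimpleGraph.card_neighborFinset_eq_degree]
  congr 2
  ext z
  simp

theorem ext_nonneg (x z : V) : 0 ≤ (if G.Adj x z then 1 / dg G x else 0) := by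
  have := dg_nonneg (G := G) x
  split_ifs <;> positivity

theorem sum_ext (hd : ∀ x, 0 < dg G x) (x : V) :
    ∑ z, (if G.Adj x z then 1 / dg G x else 0) = 1 := by
  have h : ∀ z, (if G.Adj x z then 1 / dg G x else 0) =
      (if G.Adj x z then (1 : ℝ) else 0) * (1 / dg G x) := by
    intro z
    split_ifs <;> simp
  rw [Finset.sum_congr rfl fun z _ => h z, ← Finset.sum_mul, sum_adj_one]
  exact mul_one_div_cancel (hd x).ne'

theorem W_mono (k : ℕ) {φ ψ : (ℕ → V) → ℝ} (h : ∀ f, φ f ≤ ψ f) :
    W G p k φ ≤ W G p k ψ := by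
  induction k generalizing φ ψ with
  | zero => exact Finset.sum_le_sum fun x _ => mul_le_mul_of_nonneg_left (h _) (dg_nonneg x)
  | succ k ih =>
    exact ih fun f => Finset.sum_le_sum fun z _ =>
      mul_le_mul_of_nonneg_left (h _) (ext_nonneg _ _)

theorem W_add (k : ℕ) (φ ψ : (ℕ → V) → ℝ) :
    W G p k (fun f => φ f + ψ f) = W G p k φ + W G p k ψ := by
  induction k generalizing φ ψ with
  | zero => simp only [W, mul_add, Finset.sum_add_distrib]
  | succ k ih => simp only [W, mul_add, Finset.sum_add_distrib, ih]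

theorem W_smul (k : ℕ) (a : ℝ) (φ : (ℕ → V) → ℝ) :
    W G p k (fun f => a * φ f) = a * W G p k φ := by
  induction k generalizing φ with
  | zero => simp only [W, Finset.mul_sum]; exact Finset.sum_congr rfl fun _ _ => by ring
  | succ k ih =>
    simp only [W]
    rw [← ih]
    congr 1
    funext f
    rw [Finset.mul_sum]
    exact Finset.sum_congr rfl fun _ _ => by ring

theorem W_sub (k : ℕ) (φ ψ : (ℕ → V) → ℝ) :
    W G p k (fun f => φ f - ψ f) = W G p k φ - W G p k ψ := by
  have h := W_smul (G := G) (p := p) k (-1) ψ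
  have h2 := W_add (G := G) (p := p) k φ (fun f => -1 * ψ f)
  rw [h] at h2
  rw [show (fun f => φ f - ψ f) = fun f => φ f + -1 * ψ f from by funext f; ring, h2]
  ring

theorem W_zero (k : ℕ) : W G p k (fun _ => 0) = 0 := by
  have h := W_smul (G := G) (p := p) k 0 (fun _ => 0)
  simpa using h

theorem W_sum {ι : Type*} (s : Finset ι) (k : ℕ) (φ : ι → (ℕ → V) → ℝ) :
    W G p k (fun f => ∑ i ∈ s, φ i f) = ∑ i ∈ s, W G p k (φ i) := by
  classical
  induction s using Finset.induction_on with
  | empty => simpa using W_zero k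
  | insert a s ha ih =>
    simp only [Finset.sum_insert ha]
    rw [W_add, ih]

/-- If the sum is positive, some homomorphism has a positive value. -/
theorem exists_of_W_pos (hp : ∀ j, p (j + 1) ≤ j) (k : ℕ)
    {φ : (ℕ → V) → ℝ} (h : 0 < W G p k φ) :
    ∃ f : ℕ → V, (∀ j, j < k → G.Adj (f (p (j + 1))) (f (j + 1))) ∧ 0 < φ f := by
  induction k generalizing φ with
  | zero =>
    obtain ⟨x, -, hx⟩ := Finset.exists_lt_of_sum_lt (s := univ) (f := fun _ : V => (0 : ℝ))
      (g := fun x => dg G x * φ (fun _ => x)) (by rw [Finset.sum_const_zero]; exact h)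
    refine ⟨fun _ => x, fun j hj => absurd hj (by omega), ?_⟩
    have := dg_nonneg (G := G) x
    rcases this.eq_or_lt with h0 | h0
    · rw [← h0, zero_mul] at hx
      exact absurd hx (lt_irrefl _)
    · exact (pos_iff_pos_of_mul_pos hx).1 h0
  | succ k ih =>
    obtain ⟨f, hf, hφ⟩ := ih h
    obtain ⟨z, -, hz⟩ := Finset.exists_lt_of_sum_lt (s := univ) (f := fun _ : V => (0 : ℝ))
      (g := fun z => (if G.Adj (f (p (k + 1))) z then 1 / dg G (f (p (k + 1))) else 0) *
        φ (Function.update f (k + 1) z)) (by rw [Finset.sum_const_zero]; exact hφ)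
    have hadj : G.Adj (f (p (k + 1))) z := by
      by_contra hn
      simp [hn] at hz
    refine ⟨Function.update f (k + 1) z, fun j hj => ?_, ?_⟩
    · have hpj := hp j
      rcases Nat.lt_succ_iff_lt_or_eq.1 hj with hj | rfl
      · rw [Function.update_of_ne (by omega), Function.update_of_ne (by omega)]
        exact hf j hj
      · rw [Function.update_of_ne (by omega), Function.update_self]
        exact hadj
    · have h0 := ext_nonneg (G := G) (f (p (k + 1))) z
      rcases h0.eq_or_lt with h1 | h1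
      · rw [← h1, zero_mul] at hz
        exact absurd hz (lt_irrefl _)
      · exact (pos_iff_pos_of_mul_pos hz).1 h1

/-- Adding a vertex does not change the sum of a function of the other images. -/
theorem W_step (hd : ∀ x, 0 < dg G x) (k : ℕ) {φ : (ℕ → V) → ℝ}
    (h : ∀ f z, φ (Function.update f (k + 1) z) = φ f) : W G p (k + 1) φ = W G p k φ := by
  simp only [W]
  congr 1
  funext f
  simp only [h]
  rw [← Finset.sum_mul, sum_ext hd, one_mul]

/-! ### The kernels -/

variable (G) in
/-- The kernel of a walk of length `j`. -/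
noncomputable def Kn (j : ℕ) (x y : V) : ℝ := √(dg G x) * (Mm G ^ j) x y * √(dg G y)

theorem Mm_symm (x y : V) : Mm G x y = Mm G y x := by
  unfold Mm
  simp only [G.adj_comm x y, mul_comm]

theorem Mm_transpose : (Mm G).transpose = Mm G := by
  ext a b
  exact Mm_symm b a

theorem Mm_pow_transpose (k : ℕ) : (Mm G ^ k).transpose = Mm G ^ k := by
  rw [Matrix.transpose_pow, Mm_transpose]

theorem Mm_pow_symm (k : ℕ) (x y : V) : (Mm G ^ k) x y = (Mm G ^ k) y x := by
  calc (Mm G ^ k) x y = (Mm G ^ k).transpose y x := rfl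
    _ = (Mm G ^ k) y x := by rw [Mm_pow_transpose]

theorem Mm_nonneg (x y : V) : 0 ≤ Mm G x y := by
  unfold Mm
  split_ifs <;> positivity

theorem Mm_pow_nonneg (k : ℕ) (x y : V) : 0 ≤ (Mm G ^ k) x y := by
  induction k generalizing x y with
  | zero =>
    rw [pow_zero, Matrix.one_apply]
    split_ifs <;> norm_num
  | succ k ih =>
    rw [pow_succ, Matrix.mul_apply]
    exact Finset.sum_nonneg fun z _ => mul_nonneg (ih x z) (Mm_nonneg z y)

theorem Kn_symm (j : ℕ) (x y : V) : Kn G j x y = Kn G j y x := by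
  unfold Kn
  rw [Mm_pow_symm]
  ring

theorem Kn_nonneg (j : ℕ) (x y : V) : 0 ≤ Kn G j x y :=
  mul_nonneg (mul_nonneg (Real.sqrt_nonneg _) (Mm_pow_nonneg _ _ _)) (Real.sqrt_nonneg _)

theorem Kn_zero (x y : V) : Kn G 0 x y = if x = y then dg G x else 0 := by
  unfold Kn
  rw [pow_zero, Matrix.one_apply]
  split_ifs with h
  · rw [← h, mul_one, Real.mul_self_sqrt (dg_nonneg x)]
  · simp

theorem Kn_succ (hd : ∀ x, 0 < dg G x) (j : ℕ) (x z : V) :
    ∑ y, Kn G j x y * (if G.Adj y z then 1 / dg G y else 0) = Kn G (j + 1) x z := by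
  unfold Kn
  rw [pow_succ, Matrix.mul_apply, Finset.mul_sum, Finset.sum_mul]
  refine Finset.sum_congr rfl fun y _ => ?_
  unfold Mm
  split_ifs with h
  · have hy := hd y
    have hz := hd z
    have h1 : √(dg G y) * √(dg G y) = dg G y := Real.mul_self_sqrt hy.le
    have hsy : 0 < √(dg G y) := Real.sqrt_pos.2 hy
    have hsz : 0 < √(dg G z) := Real.sqrt_pos.2 hz
    nth_rewrite 2 [← h1]
    field_simp
  · simp

variable (G p) in
/-- The joint weight of the images of `s` and `t` is bounded by the kernel of `j` steps. -/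
def Ker2 (k s t j : ℕ) : Prop :=
  ∀ ψ : V → V → ℝ, (∀ x y, 0 ≤ ψ x y) →
    W G p k (fun f => ψ (f s) (f t)) ≤ ∑ x, ∑ y, Kn G j x y * ψ x y

theorem Ker2.symm {k s t j : ℕ} (h : Ker2 G p k s t j) : Ker2 G p k t s j := by
  intro ψ hψ
  refine (h (fun x y => ψ y x) fun x y => hψ y x).trans (le_of_eq ?_)
  rw [Finset.sum_comm]
  exact Finset.sum_congr rfl fun x _ => Finset.sum_congr rfl fun y _ => by rw [Kn_symm]

theorem Ker2.step (hd : ∀ x, 0 < dg G x) {k s t j : ℕ} (hs : s ≤ k) (ht : t ≤ k)
    (hk : Ker2 G p k s t j) : Ker2 G p (k + 1) s t j := by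
  intro ψ hψ
  rw [W_step hd k fun f z => by
    rw [Function.update_of_ne (show s ≠ k + 1 by omega),
      Function.update_of_ne (show t ≠ k + 1 by omega)]]
  exact hk ψ hψ

theorem Ker2.new (hd : ∀ x, 0 < dg G x) {k s j : ℕ} (hs : s ≤ k)
    (hk : Ker2 G p k s (p (k + 1)) j) : Ker2 G p (k + 1) s (k + 1) (j + 1) := by
  intro ψ hψ
  have h1 : W G p (k + 1) (fun f => ψ (f s) (f (k + 1))) =
      W G p k (fun f => (fun x y => ∑ z, (if G.Adj y z then 1 / dg G y else 0) * ψ x z)
        (f s) (f (p (k + 1)))) := by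
    simp only [W, Function.update_of_ne (show s ≠ k + 1 by omega), Function.update_self]
  rw [h1]
  refine (hk (fun x y => ∑ z, (if G.Adj y z then 1 / dg G y else 0) * ψ x z)
    fun x y => Finset.sum_nonneg fun z _ => mul_nonneg (ext_nonneg _ _) (hψ x z)).trans
    (le_of_eq ?_)
  refine Finset.sum_congr rfl fun x _ => ?_
  simp_rw [Finset.mul_sum]
  rw [Finset.sum_comm]
  refine Finset.sum_congr rfl fun z _ => ?_
  rw [← Kn_succ hd, Finset.sum_mul]
  exact Finset.sum_congr rfl fun y _ => by ring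

theorem Ker2.diag (hd : ∀ x, 0 < dg G x) {k : ℕ}
    (hk : Ker2 G p k (p (k + 1)) (p (k + 1)) 0) : Ker2 G p (k + 1) (k + 1) (k + 1) 0 := by
  intro ψ hψ
  have h1 : W G p (k + 1) (fun f => ψ (f (k + 1)) (f (k + 1))) =
      W G p k (fun f => (fun _ y => ∑ z, (if G.Adj y z then 1 / dg G y else 0) * ψ z z)
        (f (p (k + 1))) (f (p (k + 1)))) := by
    simp only [W, Function.update_self]
  rw [h1]
  refine (hk (fun _ y => ∑ z, (if G.Adj y z then 1 / dg G y else 0) * ψ z z)
    fun x y => Finset.sum_nonneg fun z _ => mul_nonneg (ext_nonneg _ _) (hψ z z)).trans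
    (le_of_eq ?_)
  have h2 : ∀ (F : V → V → ℝ), ∑ x, ∑ y, Kn G 0 x y * F x y = ∑ x, dg G x * F x x := by
    intro F
    refine Finset.sum_congr rfl fun x _ => ?_
    rw [Finset.sum_eq_single x]
    · rw [Kn_zero, if_pos rfl]
    · intro y _ hyx
      rw [Kn_zero, if_neg (Ne.symm hyx), zero_mul]
    · simp
  rw [h2, h2]
  simp_rw [Finset.mul_sum]
  rw [Finset.sum_comm]
  refine Finset.sum_congr rfl fun z _ => ?_
  have h3 : ∀ x, dg G x * ((if G.Adj x z then 1 / dg G x else 0) * ψ z z) =
      (if G.Adj z x then (1 : ℝ) else 0) * ψ z z := by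
    intro x
    simp only [G.adj_comm x z]
    split_ifs
    · have := (hd x).ne'
      field_simp
    · simp
  rw [Finset.sum_congr rfl fun x _ => h3 x, ← Finset.sum_mul, sum_adj_one]

variable (G p) in
/-- The joint weight of the images of `s`, `y`, `z`, `t`, where `y`, `z` are adjacent vertices of the
path from `s` to `t`. -/
def Ker4 (k s y z t i j : ℕ) : Prop :=
  ∀ ψ : V → V → V → V → ℝ, (∀ a b c e, 0 ≤ ψ a b c e) →
    W G p k (fun f => ψ (f s) (f y) (f z) (f t)) ≤
      ∑ a, ∑ b, ∑ c, ∑ e, Kn G i a b * Kn G j c e * Am G b c / (dg G b * dg G c) * ψ a b c e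

theorem Am_symm (x y : V) : Am G x y = Am G y x := by
  unfold Am
  simp only [G.adj_comm x y]

theorem Am_nonneg (x y : V) : 0 ≤ Am G x y := by
  unfold Am
  split_ifs <;> norm_num

theorem Ker4.symm {k s y z t i j : ℕ} (h : Ker4 G p k s y z t i j) :
    Ker4 G p k t z y s j i := by
  intro ψ hψ
  refine (h (fun a b c e => ψ e c b a) fun a b c e => hψ e c b a).trans (le_of_eq ?_)
  calc ∑ a, ∑ b, ∑ c, ∑ e, Kn G i a b * Kn G j c e * Am G b c / (dg G b * dg G c) * ψ e c b a
      = ∑ a, ∑ e, ∑ b, ∑ c, Kn G i a b * Kn G j c e * Am G b c / (dg G b * dg G c) *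
          ψ e c b a := by
        refine Finset.sum_congr rfl fun a _ => ?_
        rw [Finset.sum_congr rfl fun b _ => Finset.sum_comm, Finset.sum_comm]
    _ = ∑ e, ∑ a, ∑ b, ∑ c, Kn G i a b * Kn G j c e * Am G b c / (dg G b * dg G c) *
          ψ e c b a := Finset.sum_comm
    _ = ∑ e, ∑ c, ∑ b, ∑ a, Kn G i a b * Kn G j c e * Am G b c / (dg G b * dg G c) *
          ψ e c b a := by
        refine Finset.sum_congr rfl fun e _ => ?_
        rw [Finset.sum_congr rfl fun a _ => Finset.sum_comm, Finset.sum_comm]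
        exact Finset.sum_congr rfl fun c _ => Finset.sum_comm
    _ = _ := by
        refine Finset.sum_congr rfl fun e _ => Finset.sum_congr rfl fun c _ =>
          Finset.sum_congr rfl fun b _ => Finset.sum_congr rfl fun a _ => ?_
        rw [Kn_symm i a b, Kn_symm j c e, Am_symm b c]
        ring

theorem Ker4.step (hd : ∀ x, 0 < dg G x) {k s y z t i j : ℕ} (hs : s ≤ k) (hy : y ≤ k)
    (hz : z ≤ k) (ht : t ≤ k) (hk : Ker4 G p k s y z t i j) :
    Ker4 G p (k + 1) s y z t i j := by
  intro ψ hψ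
  rw [W_step hd k fun f z' => by
    rw [Function.update_of_ne (show s ≠ k + 1 by omega),
      Function.update_of_ne (show y ≠ k + 1 by omega),
      Function.update_of_ne (show z ≠ k + 1 by omega),
      Function.update_of_ne (show t ≠ k + 1 by omega)]]
  exact hk ψ hψ

theorem Ker4.new (hd : ∀ x, 0 < dg G x) {k s y z i j : ℕ} (hs : s ≤ k) (hy : y ≤ k)
    (hz : z ≤ k) (hk : Ker4 G p k s y z (p (k + 1)) i j) :
    Ker4 G p (k + 1) s y z (k + 1) i (j + 1) := by
  intro ψ hψ
  have h1 : W G p (k + 1) (fun f => ψ (f s) (f y) (f z) (f (k + 1))) =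
      W G p k (fun f => (fun a b c e => ∑ e', (if G.Adj e e' then 1 / dg G e else 0) *
        ψ a b c e') (f s) (f y) (f z) (f (p (k + 1)))) := by
    simp only [W, Function.update_of_ne (show s ≠ k + 1 by omega),
      Function.update_of_ne (show y ≠ k + 1 by omega),
      Function.update_of_ne (show z ≠ k + 1 by omega), Function.update_self]
  rw [h1]
  refine (hk (fun a b c e => ∑ e', (if G.Adj e e' then 1 / dg G e else 0) * ψ a b c e')
    fun a b c e => Finset.sum_nonneg fun e' _ => mul_nonneg (ext_nonneg _ _)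
      (hψ a b c e')).trans (le_of_eq ?_)
  refine Finset.sum_congr rfl fun a _ => Finset.sum_congr rfl fun b _ =>
    Finset.sum_congr rfl fun c _ => ?_
  simp_rw [Finset.mul_sum]
  rw [Finset.sum_comm]
  refine Finset.sum_congr rfl fun e' _ => ?_
  rw [← Kn_succ hd]
  simp_rw [Finset.mul_sum, Finset.sum_mul, Finset.sum_div, Finset.sum_mul]
  exact Finset.sum_congr rfl fun e _ => by ring

theorem Ker4.base (hd : ∀ x, 0 < dg G x) {k s i : ℕ} (hs : s ≤ k) (hq : p (k + 1) ≤ k)
    (hk : Ker2 G p k s (p (k + 1)) i) :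
    Ker4 G p (k + 1) s (p (k + 1)) (k + 1) (k + 1) i 0 := by
  intro ψ hψ
  have h1 : W G p (k + 1) (fun f => ψ (f s) (f (p (k + 1))) (f (k + 1)) (f (k + 1))) =
      W G p k (fun f => (fun a b => ∑ c, (if G.Adj b c then 1 / dg G b else 0) *
        ψ a b c c) (f s) (f (p (k + 1)))) := by
    simp only [W, Function.update_of_ne (show s ≠ k + 1 by omega),
      Function.update_of_ne (show p (k + 1) ≠ k + 1 by omega), Function.update_self]
  rw [h1]
  refine (hk (fun a b => ∑ c, (if G.Adj b c then 1 / dg G b else 0) * ψ a b c c)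
    fun a b => Finset.sum_nonneg fun c _ => mul_nonneg (ext_nonneg _ _)
      (hψ a b c c)).trans (le_of_eq ?_)
  refine Finset.sum_congr rfl fun a _ => Finset.sum_congr rfl fun b _ => ?_
  rw [Finset.mul_sum]
  refine Finset.sum_congr rfl fun c _ => ?_
  rw [Finset.sum_eq_single c]
  · rw [Kn_zero, if_pos rfl]
    unfold Am
    have hb := (hd b).ne'
    have hc := (hd c).ne'
    split_ifs
    · field_simp
    · simp
  · intro e _ hec
    rw [Kn_zero, if_neg (Ne.symm hec)]
    simp
  · simp

/-! ### Paths of the tree -/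

/-- A path in the tree on `0, ..., k`. -/
def IsPath (p : ℕ → ℕ) (k n : ℕ) (x : ℕ → ℕ) : Prop :=
  (∀ j ≤ n, x j ≤ k) ∧ (∀ j < n, TAdj p (x j) (x (j + 1))) ∧
    ∀ i ≤ n, ∀ j ≤ n, x i = x j → i = j

theorem IsPath.rev {k n : ℕ} {x : ℕ → ℕ} (h : IsPath p k n x) :
    IsPath p k n (fun j => x (n - j)) := by
  obtain ⟨h1, h2, h3⟩ := h
  refine ⟨fun j _ => h1 _ (Nat.sub_le _ _), fun j hj => ?_, fun i hi j hj h => ?_⟩
  · have h4 := h2 (n - (j + 1)) (by omega)
    rw [show n - (j + 1) + 1 = n - j by omega] at h4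
    exact h4.symm
  · have := h3 (n - i) (Nat.sub_le _ _) (n - j) (Nat.sub_le _ _) h
    omega

theorem adj_top (hp : ∀ j, p (j + 1) ≤ j) {k y : ℕ} (hy : y ≤ k) (h : TAdj p y (k + 1)) :
    y = p (k + 1) := by
  rcases h with ⟨-, h⟩ | ⟨h0, h⟩
  · exact h
  · exfalso
    obtain ⟨y', rfl⟩ : ∃ y', y = y' + 1 := ⟨y - 1, by omega⟩
    have := hp y'
    omega

/-- The new vertex is an end of a path. -/
theorem IsPath.top (hp : ∀ j, p (j + 1) ≤ j) {k n : ℕ} {x : ℕ → ℕ}
    (h : IsPath p (k + 1) n x) {r : ℕ} (hr : r ≤ n) (hx : x r = k + 1) : r = 0 ∨ r = n := by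
  obtain ⟨h1, h2, h3⟩ := h
  by_contra hcon
  push Not at hcon
  obtain ⟨r', rfl⟩ : ∃ r', r = r' + 1 := ⟨r - 1, by omega⟩
  have a1 := h2 r' (by omega)
  have a2 := h2 (r' + 1) (by omega)
  rw [hx] at a1 a2
  have b1 : x r' ≤ k := by
    have := h1 r' (by omega)
    rcases Nat.lt_or_ge (x r') (k + 1) with h | h
    · omega
    · have := h3 r' (by omega) (r' + 1) hr (by omega)
      omega
  have b2 : x (r' + 1 + 1) ≤ k := by
    have := h1 (r' + 1 + 1) (by omega)
    rcases Nat.lt_or_ge (x (r' + 1 + 1)) (k + 1) with h | h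
    · omega
    · have := h3 (r' + 1 + 1) (by omega) (r' + 1) hr (by omega)
      omega
  have c1 := adj_top hp b1 a1
  have c2 := adj_top hp b2 a2.symm
  have := h3 r' (by omega) (r' + 1 + 1) (by omega) (by omega)
  omega

theorem IsPath.init (hp : ∀ j, p (j + 1) ≤ j) {k n : ℕ} {x : ℕ → ℕ}
    (h : IsPath p (k + 1) (n + 1) x) (hx : x (n + 1) = k + 1) :
    IsPath p k n x ∧ x n = p (k + 1) := by
  obtain ⟨h1, h2, h3⟩ := h
  have h4 : ∀ j ≤ n, x j ≤ k := by
    intro j hj
    have a1 := h1 j (by omega)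
    rcases Nat.lt_or_ge (x j) (k + 1) with h | h
    · omega
    · have := h3 j (by omega) (n + 1) le_rfl (by omega)
      omega
  refine ⟨⟨h4, fun j hj => h2 j (by omega), fun i hi j hj h => h3 i (by omega) j (by omega) h⟩,
    ?_⟩
  have := h2 n (by omega)
  rw [hx] at this
  exact adj_top hp (h4 n le_rfl) this

/-- The kernel of a path. -/
theorem IsPath.ker2 (hd : ∀ x, 0 < dg G x) (hp : ∀ j, p (j + 1) ≤ j) (k : ℕ) :
    ∀ (n : ℕ) (x : ℕ → ℕ), IsPath p k n x → Ker2 G p k (x 0) (x n) n := by
  induction k with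
  | zero =>
    intro n x h
    have h0 : n = 0 := by
      by_contra hn
      have h1 := h.1 0 (by omega)
      have h2 := h.1 n le_rfl
      have := h.2.2 0 (by omega) n le_rfl (by omega)
      omega
    subst h0
    intro ψ hψ
    have h1 := h.1 0 le_rfl
    refine le_of_eq (Finset.sum_congr rfl fun a _ => ?_)
    rw [Finset.sum_eq_single a]
    · rw [Kn_zero, if_pos rfl]
    · intro y _ hyx
      rw [Kn_zero, if_neg (Ne.symm hyx), zero_mul]
    · simp
  | succ k ih =>
    have hpk := hp k
    have key : ∀ (n : ℕ) (x : ℕ → ℕ), IsPath p (k + 1) n x → x n = k + 1 →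
        Ker2 G p (k + 1) (x 0) (x n) n := by
      intro n x h hx
      cases n with
      | zero =>
        rw [hx]
        refine Ker2.diag hd ?_
        exact ih 0 (fun _ => p (k + 1)) ⟨fun j _ => hpk, fun j hj => absurd hj (by omega),
          fun i hi j hj _ => by omega⟩
      | succ n =>
        obtain ⟨h1, h2⟩ := h.init hp hx
        have h3 := ih n x h1
        rw [h2] at h3
        rw [hx]
        exact h3.new hd (h1.1 0 (Nat.zero_le _))
    intro n x h
    by_cases hx : ∃ r ≤ n, x r = k + 1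
    · obtain ⟨r, hr, hxr⟩ := hx
      rcases h.top hp hr hxr with rfl | rfl
      · have h1 := key n _ h.rev (by simpa using hxr)
        simp only [Nat.sub_zero, Nat.sub_self] at h1
        exact h1.symm
      · exact key _ x h hxr
    · push Not at hx
      have h1 : IsPath p k n x := ⟨fun j hj => by
        have := h.1 j hj
        have := hx j hj
        omega, h.2.1, h.2.2⟩
      exact (ih n x h1).step hd (h1.1 0 (Nat.zero_le _)) (h1.1 n le_rfl)

/-- The joint kernel for an edge of a path and its ends. -/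
theorem IsPath.ker4 (hd : ∀ x, 0 < dg G x) (hp : ∀ j, p (j + 1) ≤ j) (k : ℕ) :
    ∀ (r j : ℕ) (x : ℕ → ℕ), IsPath p k (r + 1 + j) x →
      Ker4 G p k (x 0) (x r) (x (r + 1)) (x (r + 1 + j)) r j := by
  induction k with
  | zero =>
    intro r j x h
    have h1 := h.1 0 (by omega)
    have h2 := h.1 (r + 1 + j) le_rfl
    have := h.2.2 0 (by omega) (r + 1 + j) le_rfl (by omega)
    omega
  | succ k ih =>
    have hpk := hp k
    have key : ∀ (r j : ℕ) (x : ℕ → ℕ), IsPath p (k + 1) (r + 1 + j) x →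
        x (r + 1 + j) = k + 1 →
        Ker4 G p (k + 1) (x 0) (x r) (x (r + 1)) (x (r + 1 + j)) r j := by
      intro r j x h hx
      cases j with
      | zero =>
        obtain ⟨h1, h2⟩ := IsPath.init hp (n := r) h hx
        have h3 := h1.ker2 hd hp k
        rw [h2] at h3
        simp only [Nat.add_zero] at hx ⊢
        rw [hx, h2]
        exact Ker4.base hd (h1.1 0 (Nat.zero_le _)) hpk h3
      | succ j =>
        obtain ⟨h1, h2⟩ := IsPath.init hp (n := r + 1 + j) h hx
        have h3 := ih r j x h1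
        rw [h2] at h3
        rw [hx]
        exact h3.new hd (h1.1 0 (Nat.zero_le _)) (h1.1 r (by omega)) (h1.1 (r + 1) (by omega))
    intro r j x h
    by_cases hx : ∃ l ≤ r + 1 + j, x l = k + 1
    · obtain ⟨l, hl, hxl⟩ := hx
      rcases h.top hp hl hxl with rfl | rfl
      · have h1 : IsPath p (k + 1) (j + 1 + r) (fun l => x (r + 1 + j - l)) := by
          rw [show j + 1 + r = r + 1 + j by omega]
          exact h.rev
        have h2 := key j r _ h1 (by
          simp only [show r + 1 + j - (j + 1 + r) = 0 by omega]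
          exact hxl)
        simp only [Nat.sub_zero, show r + 1 + j - j = r + 1 by omega,
          show r + 1 + j - (j + 1) = r by omega,
          show r + 1 + j - (j + 1 + r) = 0 by omega] at h2
        exact h2.symm
      · exact key r j x h hxl
    · push Not at hx
      have h1 : IsPath p k (r + 1 + j) x := ⟨fun l hl => by
        have := h.1 l hl
        have := hx l hl
        omega, h.2.1, h.2.2⟩
      exact (ih r j x h1).step hd (h1.1 0 (Nat.zero_le _)) (h1.1 r (by omega))
        (h1.1 (r + 1) (by omega)) (h1.1 _ le_rfl)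

end Pool.Agent.H697.IR
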